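import Pool.Agent.HCap.Targets

/-!
# The volume of a cap by slices
-/

set_option autoImplicit false

open MeasureTheory Set

namespace HCap

open BallSimp

namespace CAP_

/-- the density -/
noncomputable def dn (d : ℕ) (x : EE d) : ENNReal :=
  ENNReal.ofReal ((1 - ‖x‖ ^ 2) ^ (-((d : ℝ) + 1) / 2))

lemma dn_meas (d : ℕ) : Measurable (dn d) := by
  unfold dn
  refine ENNReal.measurable_ofReal.comp ?_
  exact (measurable_const.sub (measurable_norm.pow_const 2)).pow_const _

lemma muK_eq {d : ℕ} {A : Set (EE d)} (hA : MeasurableSet A) : muK d A = ∫⁻ x in A, dn d x :=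
  withDensity_apply _ hA

lemma muK_rot {d : ℕ} (L : EE d ≃ₗᵢ[ℝ] EE d) {A : Set (EE d)} (hA : MeasurableSet A) :
    muK d (L ⁻¹' A) = muK d A := by
  have hL : MeasurePreserving L volume volume := L.measurePreserving
  rw [muK_eq hA, muK_eq (hL.measurable hA), ← hL.setLIntegral_comp_preimage hA (dn_meas d)]
  refine lintegral_congr fun x => ?_
  unfold dn
  rw [L.norm_map]

/-- a first coordinate and the others -/
noncomputable def cn {m : ℕ} (s : ℝ) (y : EE m) : EE (m + 1) :=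
  WithLp.toLp 2 (Fin.cons s y.ofLp : Fin (m + 1) → ℝ)

lemma norm_cn {m : ℕ} (s : ℝ) (y : EE m) : ‖cn s y‖ ^ 2 = s ^ 2 + ‖y‖ ^ 2 := by
  rw [EuclideanSpace.norm_sq_eq, EuclideanSpace.norm_sq_eq, Fin.sum_univ_succ]
  simp [cn]

lemma lint_split {m : ℕ} {F : EE (m + 1) → ENNReal} (hF : Measurable F) :
    ∫⁻ x, F x = ∫⁻ s : ℝ, ∫⁻ y : EE m, F (cn s y) := by
  have h1 := PiLp.volume_preserving_toLp (Fin (m + 1))
  have h2 := (volume_preserving_piFinSuccAbove (fun _ : Fin (m + 1) => ℝ) 0).symm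
  have h3 := PiLp.volume_preserving_ofLp (Fin m)
  have hF1 : Measurable fun x : Fin (m + 1) → ℝ => F (WithLp.toLp 2 x) := hF.comp h1.measurable
  have hF3 : Measurable fun z : ℝ × (Fin m → ℝ) => F (WithLp.toLp 2
      ((MeasurableEquiv.piFinSuccAbove (fun _ : Fin (m + 1) => ℝ) 0).symm z)) :=
    hF1.comp h2.measurable
  rw [← h1.lintegral_comp hF, ← h2.lintegral_comp hF1, Measure.volume_eq_prod]
  refine (lintegral_prod _ hF3.aemeasurable).trans ?_
  refine lintegral_congr fun s => ?_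
  have e : ∀ y : Fin m → ℝ, (MeasurableEquiv.piFinSuccAbove (fun _ : Fin (m + 1) => ℝ) 0).symm
      (s, y) = (Fin.cons s y : Fin (m + 1) → ℝ) := by
    intro y
    simp [MeasurableEquiv.piFinSuccAbove]
    rfl
  have hF2 : Measurable fun y : Fin m → ℝ => F (WithLp.toLp 2
      ((MeasurableEquiv.piFinSuccAbove (fun _ : Fin (m + 1) => ℝ) 0).symm (s, y))) :=
    hF3.comp (measurable_const.prodMk measurable_id)
  rw [← h3.lintegral_comp hF2]
  refine lintegral_congr fun y => ?_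
  rw [e]
  rfl

/-- the first basis vector -/
noncomputable def e0 (m : ℕ) : EE (m + 1) := EuclideanSpace.single 0 1

lemma inner_e0 {m : ℕ} (s : ℝ) (y : EE m) : inner ℝ (e0 m) (cn s y) = s := by
  unfold e0
  rw [EuclideanSpace.inner_single_left]
  simp [cn]

lemma norm_e0 (m : ℕ) : ‖e0 m‖ = 1 := by
  unfold e0
  simp

/-- the cap in the direction `u` -/
def cpu {d : ℕ} (t h : ℝ) (u : EE d) : Set (EE d) :=
  Metric.closedBall 0 t ∩ {x | h < inner ℝ u x}

lemma cpu_meas {d : ℕ} (t h : ℝ) (u : EE d) : MeasurableSet (cpu t h u) := by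
  refine Metric.isClosed_closedBall.measurableSet.inter ?_
  exact measurableSet_lt measurable_const (continuous_const.inner continuous_id).measurable

lemma muK_dir {m : ℕ} (t h : ℝ) (u : EE (m + 1)) (hu : ‖u‖ = 1) :
    muK (m + 1) (cpu t h u) = muK (m + 1) (cpu t h (e0 m)) := by
  set L : EE (m + 1) ≃ₗᵢ[ℝ] EE (m + 1) := (ℝ ∙ (u - e0 m))ᗮ.reflection with hL
  have hLu : L u = e0 m := Submodule.reflection_sub (by rw [hu, norm_e0])
  rw [← muK_rot L (cpu_meas t h (e0 m))]
  congr 1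
  ext x
  unfold cpu
  simp only [mem_inter_iff, Metric.mem_closedBall, dist_zero_right, mem_ofPred_eq, mem_preimage]
  rw [L.norm_map, ← hLu, L.inner_map_map]

/-- the constant -/
noncomputable def V (m : ℕ) : ENNReal := volume (Metric.ball (0 : EE m) 1)

lemma rho {m : ℕ} {t s : ℝ} (hst : s ^ 2 ≤ t ^ 2) :
    Real.sqrt (t ^ 2 - s ^ 2) ^ m = (t ^ 2 - s ^ 2) ^ ((m : ℝ) / 2) := by
  rw [Real.sqrt_eq_rpow, ← Real.rpow_natCast, ← Real.rpow_mul (by linarith)]
  congr 1
  ring

lemma slice (hS : T_SLI) {m : ℕ} (hm : 0 < m) {t h s : ℝ} (ht : 0 < t) (ht1 : t < 1)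
    (hh : 0 ≤ h) :
    ∫⁻ y : EE m, (cpu t h (e0 m)).indicator (dn (m + 1)) (cn s y) =
      (Ioc h t).indicator (fun s => V m * ENNReal.ofReal ((1 - t ^ 2) ^ (-((m : ℝ) / 2)) *
        fc (m + 1) t s)) s := by
  have ht2 : 0 < 1 - t ^ 2 := by nlinarith
  by_cases hs : s ∈ Ioc h t
  · have hs0 : 0 ≤ s := hh.trans hs.1.le
    have hst : s ^ 2 ≤ t ^ 2 := by
      have := hs.2
      nlinarith
    have hb : 0 < 1 - s ^ 2 := by linarith
    rw [indicator_of_mem hs]
    have h1 := hS m (1 - s ^ 2) (Real.sqrt (t ^ 2 - s ^ 2)) hm (Real.sqrt_nonneg _)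
      (by rw [Real.sq_sqrt (by linarith)]; linarith)
    rw [Real.sq_sqrt (by linarith), rho hst] at h1
    have e1 : ∫⁻ y : EE m, (cpu t h (e0 m)).indicator (dn (m + 1)) (cn s y) =
        ∫⁻ y in Metric.closedBall (0 : EE m) (Real.sqrt (t ^ 2 - s ^ 2)),
          ENNReal.ofReal ((1 - s ^ 2 - ‖y‖ ^ 2) ^ (-((m : ℝ) + 2) / 2)) := by
      rw [← lintegral_indicator Metric.isClosed_closedBall.measurableSet]
      refine lintegral_congr fun y => ?_
      have hiff : cn s y ∈ cpu t h (e0 m) ↔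
          y ∈ Metric.closedBall (0 : EE m) (Real.sqrt (t ^ 2 - s ^ 2)) := by
        unfold cpu
        simp only [mem_inter_iff, Metric.mem_closedBall, dist_zero_right, mem_ofPred_eq, inner_e0]
        rw [Real.le_sqrt (norm_nonneg _) (by linarith)]
        constructor
        · rintro ⟨h2, _⟩
          have h3 : ‖cn s y‖ ^ 2 ≤ t ^ 2 := pow_le_pow_left₀ (norm_nonneg _) h2 2
          rw [norm_cn] at h3
          linarith
        · intro h2
          refine ⟨?_, hs.1⟩
          have h3 : ‖cn s y‖ ^ 2 ≤ t ^ 2 := by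
            rw [norm_cn]
            linarith
          exact le_of_sq_le_sq h3 ht.le
      by_cases hy : y ∈ Metric.closedBall (0 : EE m) (Real.sqrt (t ^ 2 - s ^ 2))
      · rw [indicator_of_mem hy, indicator_of_mem (hiff.2 hy)]
        unfold dn
        rw [norm_cn]
        congr 2
        · ring
        · push_cast
          ring
      · rw [indicator_of_notMem hy, indicator_of_notMem (fun h => hy (hiff.1 h))]
    rw [e1, h1]
    unfold V
    congr 2
    have e2 : (1 : ℝ) - s ^ 2 - (t ^ 2 - s ^ 2) = 1 - t ^ 2 := by ring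
    have e3 : (((m + 1 : ℕ) : ℝ) - 1) / 2 = (m : ℝ) / 2 := by
      push_cast
      ring
    unfold fc
    rw [e2, e3, Real.rpow_neg ht2.le]
    have h4 : 0 < (1 - t ^ 2) ^ ((m : ℝ) / 2) := Real.rpow_pos_of_pos ht2 _
    field_simp
  · rw [indicator_of_notMem hs]
    rw [← lintegral_zero (μ := (volume : Measure (EE m)))]
    refine lintegral_congr fun y => ?_
    rw [indicator_of_notMem]
    rintro ⟨h1, h2⟩
    have h2' : h < inner ℝ (e0 m) (cn s y) := h2
    rw [inner_e0] at h2'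
    rw [Metric.mem_closedBall, dist_zero_right] at h1
    apply hs
    refine ⟨h2', ?_⟩
    have h3 : ‖cn s y‖ ^ 2 ≤ t ^ 2 := pow_le_pow_left₀ (norm_nonneg _) h1 2
    rw [norm_cn] at h3
    have h4 : s ^ 2 ≤ t ^ 2 := by nlinarith [sq_nonneg ‖y‖]
    exact le_of_sq_le_sq h4 ht.le

lemma fc_nonneg {m : ℕ} {t s : ℝ} (ht1 : t < 1) (hs0 : 0 ≤ s) (hst : s ≤ t) :
    0 ≤ fc (m + 1) t s := by
  unfold fc
  refine div_nonneg (Real.rpow_nonneg (by nlinarith) _) (by nlinarith)

lemma fc_int {m : ℕ} {t h : ℝ} (ht1 : t < 1) (hh : 0 ≤ h) (hht : h ≤ t) :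
    IntervalIntegrable (fc (m + 1) t) volume h t := by
  apply ContinuousOn.intervalIntegrable
  rw [uIcc_of_le hht]
  unfold fc
  refine ContinuousOn.div ?_ (by fun_prop) ?_
  · apply Continuous.continuousOn
    refine Continuous.rpow_const (by fun_prop) fun x => Or.inr ?_
    push_cast
    have : (0 : ℝ) ≤ m := Nat.cast_nonneg m
    linarith
  · rintro s ⟨h1, h2⟩
    have : s ^ 2 < 1 := by nlinarith
    linarith

end CAP_

open CAP_ in
/-- CAP -/
theorem p_CAP (h_SLI : T_SLI) : T_CAP := by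
  intro d t hd ht ht1
  obtain ⟨m, rfl⟩ : ∃ m, d = m + 1 := ⟨d - 1, by omega⟩
  have hm : 0 < m := by omega
  have ht2 : 0 < 1 - t ^ 2 := by nlinarith
  have hV1 : V m ≠ ⊤ := by
    unfold V
    exact measure_ball_lt_top.ne
  have hV0 : V m ≠ 0 := by
    unfold V
    exact (Metric.measure_ball_pos volume 0 one_pos).ne'
  have hVp : 0 < (V m).toReal := ENNReal.toReal_pos hV0 hV1
  have hc : 0 < (1 - t ^ 2) ^ (-((m : ℝ) / 2)) := Real.rpow_pos_of_pos ht2 _
  refine ⟨(V m).toReal * (1 - t ^ 2) ^ (-((m : ℝ) / 2)), by positivity, ?_⟩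
  intro u hu h hh hht
  have e1 : muK (m + 1) (Metric.closedBall 0 t ∩ {x | h < inner ℝ u x}) =
      muK (m + 1) (cpu t h (e0 m)) := muK_dir t h u hu
  rw [e1, muK_eq (cpu_meas t h (e0 m)), ← lintegral_indicator (cpu_meas t h (e0 m)),
    lint_split ((dn_meas (m + 1)).indicator (cpu_meas t h (e0 m)))]
  simp only [slice h_SLI hm ht ht1 hh]
  rw [lintegral_indicator measurableSet_Ioc, lintegral_const_mul' _ _ hV1]
  have hint : IntegrableOn (fun s => (1 - t ^ 2) ^ (-((m : ℝ) / 2)) * fc (m + 1) t s)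
      (Ioc h t) := by
    have h1 := (fc_int (m := m) ht1 hh hht).const_mul ((1 - t ^ 2) ^ (-((m : ℝ) / 2)))
    rwa [intervalIntegrable_iff_integrableOn_Ioc_of_le hht] at h1
  rw [← ofReal_integral_eq_lintegral_ofReal hint ?_]
  · rw [integral_const_mul, ← intervalIntegral.integral_of_le hht]
    have e2 : ∫ s in h..t, fc (m + 1) t s = cap (m + 1) t h := rfl
    rw [e2, mul_assoc, ENNReal.ofReal_mul ENNReal.toReal_nonneg, ENNReal.ofReal_toReal hV1]
  · rw [Filter.EventuallyLE, ae_restrict_iff' measurableSet_Ioc]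
    refine Filter.Eventually.of_forall fun s hs => ?_
    exact mul_nonneg hc.le (fc_nonneg ht1 (hh.trans hs.1.le) hs.2)

end HCap
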