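import Pool.Agent.HCap.Targets

/-!
# HCap, block CE1 (MP_034d00_gt, helper75)

The centred theorem, part (1).
-/

set_option autoImplicit false

namespace HCap

open BallSimp MeasureTheory Set

namespace CE1_

lemma exp_bd : (1071 / 1600 : ℝ) ≤ Real.exp (-(2 / 5)) := by
  have h1 : Real.exp (2 / 5) ≤ 1600 / 1071 := by
    have h2 : Real.exp (2 / 5) ^ 5 ≤ (1600 / 1071 : ℝ) ^ 5 := by
      have e : Real.exp (2 / 5) ^ 5 = Real.exp 1 ^ 2 := by
        rw [← Real.exp_nat_mul, ← Real.exp_nat_mul]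
        norm_num
      rw [e]
      have h3 := Real.exp_one_lt_d9
      have h4 : Real.exp 1 ^ 2 ≤ (2.7182818286 : ℝ) ^ 2 :=
        pow_le_pow_left₀ (Real.exp_pos 1).le h3.le 2
      refine h4.trans ?_
      norm_num
    exact le_of_pow_le_pow_left₀ (by norm_num) (by norm_num) h2
  rw [Real.exp_neg]
  have h5 := Real.exp_pos (2 / 5)
  rw [le_inv_comm₀ (by norm_num) h5]
  refine h1.trans (le_of_eq ?_)
  norm_num

lemma log_bd {e : ℝ} (h1 : 23 / 40 ≤ e) (h2 : 0 < 1 - e ^ 2) :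
    1 / 5 ≤ -(1 / 2) * Real.log (1 - e ^ 2) := by
  have h3 : 1 - e ^ 2 ≤ Real.exp (-(2 / 5)) := by
    refine le_trans ?_ exp_bd
    nlinarith
  have h4 : Real.log (1 - e ^ 2) ≤ -(2 / 5) := by
    rw [← Real.log_exp (-(2 / 5))]
    exact Real.log_le_log h2 h3
  linarith

/-- the ball inside a simplex all of whose facets are far away -/
lemma ball_sub_hull (hHUL : T_HUL) {d : ℕ} {w z : Fin (d + 1) → EE d} {s : Fin (d + 1) → ℝ}
    (hD : Dual w z s) {t h : ℝ} (ht' : ∀ i, ht z s i = h) (hth : t ≤ h) :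
    Metric.closedBall (0 : EE d) t ⊆ convexHull ℝ (Set.range w) := by
  intro x hx
  rw [mem_closedBall_zero_iff] at hx
  rw [hHUL d w z s hD x]
  intro i
  have h0 : 0 < ‖z i‖ := norm_pos_iff.mpr (hD.hz i)
  have h1 : s i = ‖z i‖ * h := by
    rw [← ht' i, ht]
    field_simp
  calc inner ℝ (z i) x ≤ ‖z i‖ * ‖x‖ := real_inner_le_norm _ _
    _ ≤ ‖z i‖ * h := by gcongr; linarith
    _ = s i := h1.symm

/-- the converse -/
lemma rad_le (hHUL : T_HUL) {d : ℕ} {w z : Fin (d + 1) → EE d} {s : Fin (d + 1) → ℝ}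
    (hD : Dual w z s) {t : ℝ} (ht0 : 0 ≤ t)
    (hsub : Metric.closedBall (0 : EE d) t ⊆ convexHull ℝ (Set.range w)) (i : Fin (d + 1)) :
    t ≤ ht z s i := by
  have h0 : 0 < ‖z i‖ := norm_pos_iff.mpr (hD.hz i)
  have hx : (t / ‖z i‖) • z i ∈ Metric.closedBall (0 : EE d) t := by
    rw [mem_closedBall_zero_iff, norm_smul, Real.norm_eq_abs, abs_of_nonneg (by positivity)]
    rw [div_mul_cancel₀ _ h0.ne']
  have h1 := (hHUL d w z s hD _).mp (hsub hx) i
  rw [real_inner_smul_right, real_inner_self_eq_norm_sq] at h1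
  rw [ht, le_div_iff₀ h0]
  calc t * ‖z i‖ = t / ‖z i‖ * ‖z i‖ ^ 2 := by field_simp
    _ ≤ s i := h1

/-- the ratio -/
lemma XX_ge {t t₀ h R R₀ : ℝ} (ht0 : 0 < t) (ht1 : t < 1) (hR : 1 ≤ R) (hR₀ : 1 ≤ R₀)
    (e : t ^ 2 = 1 - 1 / R ^ 2) (e₀ : t₀ ^ 2 = 1 - 1 / R₀ ^ 2) (h0 : 0 ≤ t₀) (hh : t₀ ≤ h)
    (h1 : h < 1) (hRR : 9 * (R ^ 2 - 1) ≤ 10 * (R₀ ^ 2 - 1)) : 9 / 10 ≤ XX t h := by
  have a1 : R ^ 2 * (1 - t ^ 2) = 1 := by
    rw [e]; have : R ^ 2 ≠ 0 := by positivity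
    field_simp; ring
  have a2 : R₀ ^ 2 * (1 - t₀ ^ 2) = 1 := by
    rw [e₀]; have : R₀ ^ 2 ≠ 0 := by positivity
    field_simp; ring
  have hp : 0 ≤ h := h0.trans hh
  have b1 : 0 < 1 - t ^ 2 := by nlinarith
  have b2 : 0 < 1 - h ^ 2 := by nlinarith
  have b3 : t₀ ^ 2 ≤ h ^ 2 := by nlinarith
  have b4 : 0 < 1 - t₀ ^ 2 := by linarith
  have c1 : R ^ 2 = 1 / (1 - t ^ 2) := by field_simp; exact a1
  have c2 : R₀ ^ 2 ≤ 1 / (1 - h ^ 2) := by
    have : R₀ ^ 2 = 1 / (1 - t₀ ^ 2) := by field_simp; exact a2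
    rw [this]
    exact one_div_le_one_div_of_le b2 (by linarith)
  have c3 : 9 * (1 / (1 - t ^ 2) - 1) ≤ 10 * (1 / (1 - h ^ 2) - 1) := by
    rw [← c1]; linarith
  have c4 : 9 * t ^ 2 * (1 - h ^ 2) ≤ 10 * h ^ 2 * (1 - t ^ 2) := by
    have d1 : 1 / (1 - t ^ 2) - 1 = t ^ 2 / (1 - t ^ 2) := by field_simp; ring
    have d2 : 1 / (1 - h ^ 2) - 1 = h ^ 2 / (1 - h ^ 2) := by field_simp; ring
    rw [d1, d2, ← mul_div_assoc, ← mul_div_assoc, div_le_div_iff₀ b1 b2] at c3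
    exact c3
  rw [XX, div_le_div_iff₀ (by norm_num) (by positivity)]
  nlinarith

/-- the choice of the parents -/
lemma parents {d : ℕ} (z : Fin (d + 1) → EE d) (s : Fin (d + 1) → ℝ) (t : ℝ) :
    ∃ (N : Finset (Fin (d + 1))) (p : Fin (d + 1) → Fin (d + 1)),
      (∀ j ∈ N, ((p j : Fin (d + 1)) : ℕ) < (j : ℕ) ∧ ∃ x, x ∈ cp z s t j ∧ x ∈ cp z s t (p j)) ∧
      ∀ i ∈ Finset.univ \ N, ∀ j ∈ Finset.univ \ N, i ≠ j →
        Disjoint (cp z s t i) (cp z s t j) := by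
  classical
  let Q : Fin (d + 1) → Fin (d + 1) → Prop := fun j i =>
    i < j ∧ ¬ Disjoint (cp z s t j) (cp z s t i)
  refine ⟨Finset.univ.filter fun j => ∃ i, Q j i,
    fun j => if h : ∃ i, Q j i then h.choose else j, ?_, ?_⟩
  · intro j hj
    rw [Finset.mem_filter] at hj
    have h1 := hj.2.choose_spec
    simp only [dif_pos hj.2]
    refine ⟨h1.1, ?_⟩
    obtain ⟨x, hx1, hx2⟩ := Set.not_disjoint_iff.mp h1.2
    exact ⟨x, hx1, hx2⟩
  · have key : ∀ i ∈ Finset.univ \ (Finset.univ.filter fun j => ∃ i, Q j i),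
        ∀ j, j < i → Disjoint (cp z s t i) (cp z s t j) := by
      intro i hi j hj
      rw [Finset.mem_sdiff, Finset.mem_filter] at hi
      by_contra hcon
      exact hi.2 ⟨Finset.mem_univ i, j, hj, hcon⟩
    intro i hi j hj hij
    rcases lt_or_gt_of_ne hij with h | h
    · exact (key j hj i h).symm
    · exact key i hi j h

end CE1_

open CE1_ in
theorem p_CE1 (hDUA : T_DUA) (hEUV : T_EUV) (hGMN : T_GMN) (hOVL : T_OVL) (hCMP : T_CMP)
    (hTH1 : T_TH1) (hNUM : T_NUM) (hREG : T_REG) (hHUL : T_HUL) : T_CE1 := by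
  intro d v w hd hP R R₀ hsub hRR hR₀
  have hd0 : 0 < d := by omega
  have hdR : (2 : ℝ) ≤ d := by exact_mod_cast hd
  rcases hB_zero (d := d) R with ⟨h1, -⟩ | ⟨hR, h1⟩
  · rw [h1]; simp
  rw [h1]
  have hw' := (affInd_iff w).mp hP.hwa
  have hv' := (affInd_iff v).mp hP.hva
  obtain ⟨α, hα, hReg⟩ := hP.reg
  obtain ⟨zw, sw, hDw, -, hhw, hnw⟩ := hREG d w α hd0 hα hReg hw'
  set h₀ := Real.sqrt (α / (d * (d + 1))) with hh₀
  have h₀pos : 0 < h₀ := by rw [hh₀]; positivity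
  have h₀half : h₀ ≤ 1 / 2 := by
    have h2 := hP.hw 0
    rw [hnw 0] at h2
    nlinarith
  set t := Real.sqrt (1 - 1 / R ^ 2) with ht'
  by_cases hth : t ≤ h₀
  · have h2 := ball_sub_hull hHUL hDw hhw hth
    rw [inter_eq_left.mpr h2]
    exact measure_mono inter_subset_left
  push Not at hth
  have htpos : 0 < t := h₀pos.trans hth
  have ht2 : t ^ 2 = 1 - 1 / R ^ 2 := by
    rw [ht']
    apply Real.sq_sqrt
    rw [sub_nonneg, div_le_one (by positivity)]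
    nlinarith
  have ht1 : t < 1 := by
    have : 0 < 1 / R ^ 2 := by positivity
    nlinarith
  set t₀ := Real.sqrt (1 - 1 / R₀ ^ 2) with ht₀
  have ht₀2 : t₀ ^ 2 = 1 - 1 / R₀ ^ 2 := by
    rw [ht₀]
    apply Real.sq_sqrt
    rw [sub_nonneg, div_le_one (by positivity)]
    nlinarith
  have ht₀h : t₀ ≤ h₀ := by
    rcases hB_zero (d := d) R₀ with ⟨-, h2⟩ | ⟨-, h2⟩
    · exact absurd hR₀ (not_le.mpr h2)
    · rw [h2] at hsub
      have h3 := rad_le hHUL hDw (Real.sqrt_nonneg _) hsub 0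
      rwa [hhw 0] at h3
  have hXX : 9 / 10 ≤ XX t h₀ := XX_ge htpos ht1 hR hR₀ ht2 ht₀2 (Real.sqrt_nonneg _) ht₀h
    (by linarith) hRR
  obtain ⟨z, s, hD⟩ := hDUA d v hd0 hv'
  by_cases hk : ∃ k, ht z s k ≤ 0 ∨ 8 * ht z s k ^ 2 ≤ 7 * h₀ ^ 2
  · obtain ⟨k, hk⟩ := hk
    refine hCMP d v w z s α t hd hα hReg hw' htpos ht1 hth.le hD {k} ?_ ?_
    · intro i hi j hj hij
      rw [Finset.mem_singleton] at hi hj
      exact absurd (hi.trans hj.symm) hij
    · rw [Finset.sum_singleton]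
      have h2 : 8 * max (ht z s k) 0 ^ 2 ≤ 7 * h₀ ^ 2 := by
        rcases le_total (ht z s k) 0 with h3 | h3
        · rw [max_eq_right h3]
          have := sq_nonneg h₀
          nlinarith
        · rw [max_eq_left h3]
          rcases hk with hk | hk
          · have h4 : ht z s k = 0 := le_antisymm hk h3
            rw [h4]
            have := sq_nonneg h₀
            nlinarith
          · exact hk
      have h5 : (0 : ℝ) ≤ max (ht z s k) 0 := le_max_right _ _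
      have h6 : max (ht z s k) 0 ≤ t := by
        by_contra h7
        push Not at h7
        nlinarith
      rw [min_eq_left h6]
      exact hTH1 d t _ h₀ hd htpos ht1 h5 h₀pos hth.le hXX h2
  push Not at hk
  have hs : ∀ i, 0 < s i := by
    intro i
    have h2 := (hk i).1
    have h0 : 0 < ‖z i‖ := norm_pos_iff.mpr (hD.hz i)
    rw [ht] at h2
    exact (div_pos_iff_of_pos_right h0).mp h2
  obtain ⟨N, p, hN, hdis⟩ := parents z s t
  have hG := hGMN d v w z s α hd0 hα hReg (hEUV d v w hP) hD hs (fun i => (i : ℕ)) N p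
    (fun j hj => (hN j hj).1)
  -- the ratio of the squares
  have hsq : 9 / 10 * t ^ 2 ≤ h₀ ^ 2 := by
    rw [XX, div_le_div_iff₀ (by norm_num) (by
      have : 0 < 1 - h₀ ^ 2 := by nlinarith
      positivity)] at hXX
    have h2 : 0 < 1 - t ^ 2 := by nlinarith
    have h3 : h₀ ^ 2 ≤ t ^ 2 := by nlinarith
    by_contra h4
    push Not at h4
    nlinarith [mul_pos h2 (sub_pos.mpr h4), sq_nonneg t]
  have hep : ∀ j ∈ N, 1 / 5 ≤ -(1 / 2) * Real.log (1 - ep z j (p j) ^ 2) := by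
    intro j hj
    obtain ⟨hj1, x, hx1, hx2⟩ := hN j hj
    obtain ⟨h2, -, h3⟩ := hOVL d z s t j (p j) x htpos (hD.hz j) (hD.hz _) (hs j) (hs _) hx1 hx2
    refine log_bd ?_ (hG.1 j hj)
    refine le_trans ?_ (h2.trans h3)
    have h4 : 7 / 8 * h₀ ^ 2 ≤ ht z s j * ht z s (p j) := by
      have a1 := (hk j).1
      have a2 := (hk (p j)).1
      have a3 := (hk j).2
      have a4 := (hk (p j)).2
      by_contra hcon
      push Not at hcon
      have a5 : 0 < ht z s j * ht z s (p j) := mul_pos a1 a2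
      have a6 : (ht z s j * ht z s (p j)) ^ 2 < (7 / 8 * h₀ ^ 2) ^ 2 := by
        apply pow_lt_pow_left₀ hcon a5.le (by norm_num)
      have a7 : (7 / 8 * h₀ ^ 2) ^ 2 ≤ ht z s j ^ 2 * ht z s (p j) ^ 2 := by
        rw [sq (7 / 8 * h₀ ^ 2)]
        apply mul_le_mul (by linarith) (by linarith) (by positivity) (by positivity)
      rw [mul_pow] at a6
      linarith
    have h5 : 63 / 40 ≤ 2 * (ht z s j * ht z s (p j)) / t ^ 2 := by
      rw [le_div_iff₀ (by positivity)]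
      nlinarith
    linarith
  have hsum : (N.card : ℝ) / 5 ≤ ∑ i, (Real.log h₀ - Real.log (ht z s i)) := by
    refine le_trans ?_ hG.2
    rw [Finset.mul_sum]
    have h2 := Finset.card_nsmul_le_sum N (fun j => -(1 / 2) * Real.log (1 - ep z j (p j) ^ 2))
      (1 / 5) hep
    rw [nsmul_eq_mul] at h2
    linarith
  refine hCMP d v w z s α t hd hα hReg hw' htpos ht1 hth.le hD (Finset.univ \ N) hdis ?_
  have h2 := hNUM d t h₀ (ht z s) N hd htpos ht1 h₀pos hth.le h₀half hXX (fun i => (hk i).1)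
    (fun i => (hk i).2.le) hsum
  refine h2.trans (le_of_eq ?_)
  refine Finset.sum_congr rfl fun i _ => ?_
  rw [max_eq_left (hk i).1.le]

end HCap
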