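import Pool.Agent.HCap.Targets

/-!
# HCap: CE2, the centred theorem, second window
-/

set_option autoImplicit false

open MeasureTheory Set

namespace HCap

open BallSimp

lemma CE2_muK_zero {d : ℕ} (hd : 0 < d) (A : Set (EE d)) :
    muK d (Metric.closedBall 0 0 ∩ A) = 0 := by
  have h1 : volume (Metric.closedBall (0 : EE d) 0 ∩ A) = 0 := by
    apply measure_mono_null inter_subset_left
    rw [Measure.addHaar_closedBall volume 0 le_rfl]
    simp [hd.ne']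
  exact withDensity_absolutelyContinuous _ _ h1

lemma CE2_hull {d : ℕ} {v z : Fin (d + 1) → EE d} {s : Fin (d + 1) → ℝ} (h_HUL : T_HUL)
    (h : Dual v z s) {t : ℝ} (ht0 : ∀ i, t ≤ ht z s i) :
    Metric.closedBall (0 : EE d) t ⊆ convexHull ℝ (Set.range v) := by
  intro x hx
  rw [mem_closedBall_zero_iff] at hx
  rw [h_HUL d v z s h x]
  intro i
  have hz : 0 < ‖z i‖ := norm_pos_iff.mpr (h.hz i)
  have h1 : inner ℝ (z i) x ≤ ‖z i‖ * ‖x‖ := real_inner_le_norm _ _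
  have h2 : ‖z i‖ * ‖x‖ ≤ ‖z i‖ * t := by gcongr
  have h3 : t ≤ s i / ‖z i‖ := ht0 i
  rw [le_div_iff₀ hz] at h3
  linarith

lemma CE2_le_ht {d : ℕ} {v z : Fin (d + 1) → EE d} {s : Fin (d + 1) → ℝ} (h_HUL : T_HUL)
    (h : Dual v z s) {t : ℝ} (ht : 0 ≤ t)
    (hs : Metric.closedBall (0 : EE d) t ⊆ convexHull ℝ (Set.range v)) (i : Fin (d + 1)) :
    t ≤ HCap.ht z s i := by
  have hz : 0 < ‖z i‖ := norm_pos_iff.mpr (h.hz i)
  have h1 : (t / ‖z i‖) • z i ∈ Metric.closedBall (0 : EE d) t := by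
    rw [mem_closedBall_zero_iff, norm_smul, Real.norm_eq_abs, abs_of_nonneg (by positivity),
      div_mul_cancel₀ _ hz.ne']
  have h2 := (h_HUL d v z s h _).mp (hs h1) i
  rw [real_inner_smul_right, real_inner_self_eq_norm_sq] at h2
  have h3 : t / ‖z i‖ * ‖z i‖ ^ 2 = t * ‖z i‖ := by field_simp
  rw [h3] at h2
  unfold HCap.ht
  rw [le_div_iff₀ hz]
  exact h2

/-- the window in terms of the radii in the Klein model -/
lemma CE2_XX {R R₀ h₀ c : ℝ} (hR : 1 < R) (hR₀ : 1 ≤ R₀)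
    (hw : c * (R ^ 2 - 1) ≤ R₀ ^ 2 - 1)
    (h1 : Real.sqrt (1 - 1 / R₀ ^ 2) ≤ h₀) (h2 : h₀ < 1) (h3 : 0 < h₀) :
    c ≤ XX (Real.sqrt (1 - 1 / R ^ 2)) h₀ := by
  have hR2 : 0 < R ^ 2 - 1 := by nlinarith
  have hR0 : 0 < R := by linarith
  have hR₀0 : 0 < R₀ := by linarith
  have ht : Real.sqrt (1 - 1 / R ^ 2) ^ 2 = 1 - 1 / R ^ 2 := by
    apply Real.sq_sqrt
    rw [sub_nonneg, div_le_one (by positivity)]; nlinarith
  have ht₀ : Real.sqrt (1 - 1 / R₀ ^ 2) ^ 2 = 1 - 1 / R₀ ^ 2 := by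
    apply Real.sq_sqrt
    rw [sub_nonneg, div_le_one (by positivity)]; nlinarith
  have h4 : 1 - 1 / R₀ ^ 2 ≤ h₀ ^ 2 := by
    rw [← ht₀]
    exact pow_le_pow_left₀ (Real.sqrt_nonneg _) h1 2
  have h5 : 0 < 1 - h₀ ^ 2 := by nlinarith
  have h6 : (R₀ ^ 2 - 1) * (1 - h₀ ^ 2) ≤ h₀ ^ 2 := by
    have h7 : (1 - 1 / R₀ ^ 2) * R₀ ^ 2 ≤ h₀ ^ 2 * R₀ ^ 2 := by gcongr
    have h8 : (1 - 1 / R₀ ^ 2) * R₀ ^ 2 = R₀ ^ 2 - 1 := by field_simp
    rw [h8] at h7
    nlinarith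
  have h9 : c * (R ^ 2 - 1) * (1 - h₀ ^ 2) ≤ h₀ ^ 2 := by
    have := mul_le_mul_of_nonneg_right hw h5.le
    linarith
  have h10 : 0 < (1 - 1 / R ^ 2) * (1 - h₀ ^ 2) := by
    apply mul_pos _ h5
    rw [sub_pos, div_lt_one (by positivity)]; nlinarith
  unfold XX
  rw [ht, le_div_iff₀ h10]
  have h11 : c * ((1 - 1 / R ^ 2) * (1 - h₀ ^ 2)) = (c * (R ^ 2 - 1) * (1 - h₀ ^ 2)) / R ^ 2 := by
    field_simp
  have h12 : h₀ ^ 2 * (1 - (1 - 1 / R ^ 2)) = h₀ ^ 2 / R ^ 2 := by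
    field_simp
    ring
  rw [h11, h12]
  gcongr

lemma CE2_XX_self {t : ℝ} (h0 : 0 < t) (h1 : t < 1) : XX t t = 1 := by
  unfold XX
  have h2 : (1 - t ^ 2) ≠ 0 := by nlinarith
  exact div_self (mul_ne_zero (by positivity) h2)

/-- the parts of the ball beyond the facets are disjoint -/
lemma CE2_disj {d : ℕ} {v z : Fin (d + 1) → EE d} {s : Fin (d + 1) → ℝ} (h : Dual v z s) {R t : ℝ}
    (hb : hB (0 : EE d) R = Metric.closedBall 0 t) (hDC : DC 0 R v) (i j : Fin (d + 1))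
    (hij : i ≠ j) : Disjoint (cp z s t i) (cp z s t j) := by
  rw [Set.disjoint_left]
  rintro x ⟨hx1, hx2⟩ ⟨-, hx3⟩
  have h1 : ∑ k, (s k - inner ℝ (z k) x) = 1 := by
    rw [Finset.sum_sub_distrib, h.ss, ← sum_inner, h.sz, inner_zero_left, sub_zero]
  have h2 := hDC (fun k => s k - inner ℝ (z k) x) h1 (by
    beta_reduce
    rw [h.rep x, hb]; exact hx1) i j hij
  simp only [mem_ofPred_eq] at hx2 hx3
  rcases h2 with h2 | h2 <;> linarith

theorem p_CE2 (h_DUA : T_DUA) (h_EUV : T_EUV) (h_GMN : T_GMN) (h_CMP : T_CMP) (h_TH2 : T_TH2)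
    (h_NU2 : T_NU2) (h_REG : T_REG) (h_HUL : T_HUL) : T_CE2 := by
  intro d v w hd hP R R₀ hsub hw hR₀ hDC
  have hd0 : 0 < d := by omega
  have hdR : (3 : ℝ) ≤ d := by exact_mod_cast hd
  rcases hB_zero (d := d) R with ⟨h1, -⟩ | ⟨hR1, hb⟩
  · rw [h1]; simp
  rcases eq_or_lt_of_le hR1 with hR | hR
  · have h8 : Real.sqrt (1 - 1 / R ^ 2) = 0 := by rw [← hR]; simp
    rw [hb, h8, CE2_muK_zero hd0]
    exact zero_le
  set t := Real.sqrt (1 - 1 / R ^ 2) with ht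
  have hR0 : 0 < R := by linarith
  have ht0 : 0 < t := by
    apply Real.sqrt_pos.mpr
    rw [sub_pos, div_lt_one (by positivity)]; nlinarith
  have ht1 : t < 1 := by
    rw [ht, Real.sqrt_lt' one_pos]
    have : 0 < 1 / R ^ 2 := by positivity
    linarith
  obtain ⟨α, hα, hreg⟩ := hP.reg
  have hwd := (affInd_iff w).mp hP.hwa
  have hvd := (affInd_iff v).mp hP.hva
  obtain ⟨z', s', hD', hs', hh', -⟩ := h_REG d w α hd0 hα hreg hwd
  set h₀ := Real.sqrt (α / (d * (d + 1))) with hh₀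
  have hh0 : 0 < h₀ := Real.sqrt_pos.mpr (by positivity)
  rw [hb]
  by_cases hth : t ≤ h₀
  · have h2 : Metric.closedBall (0 : EE d) t ⊆ convexHull ℝ (Set.range w) :=
      CE2_hull h_HUL hD' fun i => by rw [hh' i]; exact hth
    apply measure_mono
    intro x hx
    exact ⟨hx.1, h2 hx.1⟩
  push Not at hth
  have hX : 2 / 3 ≤ XX t h₀ := by
    have hb₀ : hB (0 : EE d) R₀ = Metric.closedBall 0 (Real.sqrt (1 - 1 / R₀ ^ 2)) := by
      rcases hB_zero (d := d) R₀ with ⟨-, h1⟩ | ⟨-, h1⟩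
      · linarith
      · exact h1
    rw [hb₀] at hsub
    have h3 := CE2_le_ht h_HUL hD' (Real.sqrt_nonneg _) hsub 0
    rw [hh' 0] at h3
    exact CE2_XX hR hR₀ (by linarith) h3 (by linarith) hh0
  obtain ⟨z, s, hD⟩ := h_DUA d v hd0 hvd
  have hdi : 1 / (d : ℝ) ≤ 1 / 3 := by
    apply one_div_le_one_div_of_le (by norm_num) hdR
  by_cases hk : ∃ k, HCap.ht z s k ≤ 0 ∨ (HCap.ht z s k ≤ t ∧ XX t (HCap.ht z s k) ≤ 1 / d)
  · obtain ⟨k, hk⟩ := hk
    apply h_CMP d v w z s α t (by omega) hα hreg hwd ht0 ht1 hth.le hD {k}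
    · intro i hi j hj hij
      rw [Finset.mem_singleton] at hi hj
      exact absurd (hi.trans hj.symm) hij
    · rw [Finset.sum_singleton]
      rcases le_or_gt (HCap.ht z s k) 0 with hk0 | hk0
      · rw [max_eq_right hk0, min_eq_left ht0.le]
        apply h_TH2 d t 0 h₀ hd ht0 ht1 le_rfl ht0.le hh0 hth.le hX
        have : XX t 0 = 0 := by simp [XX]
        rw [this]
        positivity
      · rcases hk with hk | ⟨hk1, hk2⟩
        · linarith
        · rw [max_eq_left hk0.le, min_eq_left hk1]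
          exact h_TH2 d t _ h₀ hd ht0 ht1 hk0.le hk1 hh0 hth.le hX hk2
  · push Not at hk
    have hpos : ∀ i, 0 < s i := by
      intro i
      have hz : 0 < ‖z i‖ := norm_pos_iff.mpr (hD.hz i)
      have h4 := (hk i).1
      unfold HCap.ht at h4
      by_contra hc
      push Not at hc
      have := div_nonpos_of_nonpos_of_nonneg hc hz.le
      linarith
    have h5 := (h_GMN d v w z s α hd0 hα hreg (h_EUV d v w hP) hD hpos (fun _ => 0) ∅ id
      (by simp)).2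
    rw [Finset.sum_empty, mul_zero, ← hh₀] at h5
    have h6 := h_NU2 d t h₀ (fun i => HCap.ht z s i) (by omega) ht0 ht1 hh0 hth.le (by linarith)
      (fun i => (hk i).1) (fun i => by
        rcases le_or_gt (HCap.ht z s i) t with h7 | h7
        · rw [min_eq_left h7]; exact ((hk i).2 h7).le
        · rw [min_eq_right h7.le, CE2_XX_self ht0 ht1]; linarith) h5
    apply h_CMP d v w z s α t (by omega) hα hreg hwd ht0 ht1 hth.le hD Finset.univ
    · intro i _ j _ hij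
      exact CE2_disj hD hb hDC i j hij
    · refine h6.trans (le_of_eq ?_)
      apply Finset.sum_congr rfl
      intro i _
      rw [max_eq_left (hk i).1.le]

end HCap
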