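import Pool.Agent.HCap.Targets

/-!
# HCap: the centred theorem, third part
-/

set_option autoImplicit false

open MeasureTheory Set

namespace HCap

open BallSimp

namespace CE3_

lemma XX_mono {t h h' : ℝ} (ht0 : 0 < t) (ht1 : t < 1) (hh : 0 ≤ h) (hhh : h ≤ h')
    (hht : h' ≤ t) : XX t h ≤ XX t h' := by
  unfold XX
  have h1 : 0 < 1 - t ^ 2 := by nlinarith
  have h2 : 0 < t ^ 2 := by positivity
  have h3 : h ^ 2 ≤ h' ^ 2 := by nlinarith
  have h4 : h' ^ 2 ≤ t ^ 2 := by nlinarith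
  have h5 : 0 < 1 - h ^ 2 := by nlinarith
  have h6 : 0 < 1 - h' ^ 2 := by nlinarith
  rw [div_le_div_iff₀ (by positivity) (by positivity)]
  have h7 : h ^ 2 * (1 - h' ^ 2) ≤ h' ^ 2 * (1 - h ^ 2) := by nlinarith
  calc h ^ 2 * (1 - t ^ 2) * (t ^ 2 * (1 - h' ^ 2))
      = (h ^ 2 * (1 - h' ^ 2)) * ((1 - t ^ 2) * t ^ 2) := by ring
    _ ≤ (h' ^ 2 * (1 - h ^ 2)) * ((1 - t ^ 2) * t ^ 2) :=
        mul_le_mul_of_nonneg_right h7 (by positivity)
    _ = _ := by ring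

/-- facts about `t = √(1 - 1/R²)` -/
lemma sq_t {R : ℝ} (hR : 1 ≤ R) : Real.sqrt (1 - 1 / R ^ 2) ^ 2 = 1 - 1 / R ^ 2 := by
  apply Real.sq_sqrt
  rw [sub_nonneg, div_le_one (by positivity)]
  nlinarith

lemma t_lt_one {R : ℝ} (hR : 1 ≤ R) : Real.sqrt (1 - 1 / R ^ 2) < 1 := by
  have h0 : 0 < R := by linarith
  rw [Real.sqrt_lt' one_pos]
  have : 0 < 1 / R ^ 2 := by positivity
  linarith

lemma XX_ball {R R₁ : ℝ} (hR : 1 < R) (hR1 : 1 < R₁) :
    XX (Real.sqrt (1 - 1 / R ^ 2)) (Real.sqrt (1 - 1 / R₁ ^ 2)) =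
      (R₁ ^ 2 - 1) / (R ^ 2 - 1) := by
  unfold XX
  rw [sq_t hR.le, sq_t hR1.le]
  have h1 : 0 < R ^ 2 - 1 := by nlinarith
  have h2 : 0 < R₁ ^ 2 - 1 := by nlinarith
  have h3 : R ≠ 0 := by positivity
  have h4 : R₁ ≠ 0 := by positivity
  have e1 : 1 - 1 / R ^ 2 = (R ^ 2 - 1) / R ^ 2 := by field_simp
  have e2 : 1 - 1 / R₁ ^ 2 = (R₁ ^ 2 - 1) / R₁ ^ 2 := by field_simp
  have e3 : 1 - (1 - 1 / R ^ 2) = 1 / R ^ 2 := by ring
  have e4 : 1 - (1 - 1 / R₁ ^ 2) = 1 / R₁ ^ 2 := by ring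
  rw [e3, e4, e1, e2]
  have h5 := h1.ne'
  have h6 := h2.ne'
  field_simp

/-- a small ball is contained in the regular simplex -/
lemma sub_of_le {d : ℕ} {w z : Fin (d + 1) → EE d} {s : Fin (d + 1) → ℝ} (h_HUL : T_HUL)
    (hD : Dual w z s) {t : ℝ} (ht : ∀ i, t ≤ ht z s i) :
    Metric.closedBall (0 : EE d) t ⊆ convexHull ℝ (Set.range w) := by
  intro x hx
  rw [mem_closedBall_zero_iff] at hx
  rw [h_HUL d w z s hD x]
  intro i
  have hz : 0 < ‖z i‖ := norm_pos_iff.mpr (hD.hz i)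
  have h1 := ht i
  unfold HCap.ht at h1
  rw [le_div_iff₀ hz] at h1
  calc inner ℝ (z i) x ≤ ‖z i‖ * ‖x‖ := real_inner_le_norm _ _
    _ ≤ ‖z i‖ * t := mul_le_mul_of_nonneg_left hx hz.le
    _ ≤ s i := by rw [mul_comm]; exact h1

/-- the distance of the facets from the centre of a ball inside the simplex -/
lemma le_of_sub {d : ℕ} {v z : Fin (d + 1) → EE d} {s : Fin (d + 1) → ℝ} (h_HUL : T_HUL)
    (hD : Dual v z s) {t : ℝ} (ht0 : 0 ≤ t)
    (h : Metric.closedBall (0 : EE d) t ⊆ convexHull ℝ (Set.range v)) (i : Fin (d + 1)) :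
    t ≤ ht z s i := by
  have hz : 0 < ‖z i‖ := norm_pos_iff.mpr (hD.hz i)
  have h1 : (t / ‖z i‖) • z i ∈ Metric.closedBall (0 : EE d) t := by
    rw [mem_closedBall_zero_iff, norm_smul, Real.norm_eq_abs,
      abs_of_nonneg (div_nonneg ht0 hz.le), div_mul_cancel₀ _ hz.ne']
  have h2 := (h_HUL d v z s hD _).mp (h h1) i
  rw [inner_smul_right, real_inner_self_eq_norm_sq] at h2
  unfold HCap.ht
  rw [le_div_iff₀ hz]
  calc t * ‖z i‖ = t / ‖z i‖ * ‖z i‖ ^ 2 := by field_simp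
    _ ≤ s i := h2

lemma disj {d : ℕ} {v z : Fin (d + 1) → EE d} {s : Fin (d + 1) → ℝ} (hD : Dual v z s)
    {t R : ℝ} (hB : hB (0 : EE d) R = Metric.closedBall 0 t) (hDC : DC 0 R v)
    (i j : Fin (d + 1)) (hij : i ≠ j) : Disjoint (cp z s t i) (cp z s t j) := by
  rw [Set.disjoint_left]
  intro x hxi hxj
  have h1 : ∑ i, (s i - inner ℝ (z i) x) = 1 := by
    rw [Finset.sum_sub_distrib, hD.ss, ← sum_inner, hD.sz, inner_zero_left, sub_zero]
  have h2 := hDC (fun i => s i - inner ℝ (z i) x) h1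
    (by
      have h3 : ∑ i, (fun i => s i - inner ℝ (z i) x) i • v i = x := hD.rep x
      rw [h3, hB]
      exact hxi.1) i j hij
  have h4 : s i < inner ℝ (z i) x := hxi.2
  have h5 : s j < inner ℝ (z j) x := hxj.2
  rcases h2 with h2 | h2 <;> linarith

end CE3_

theorem p_CE3 (h_DUA : T_DUA) (h_EUV : T_EUV) (h_GMN : T_GMN) (h_CMP : T_CMP) (h_NU2 : T_NU2)
    (h_REG : T_REG) (h_HUL : T_HUL) : T_CE3 := by
  intro d v w hd hP R R₁ hB1 hR hR1 hDC
  obtain ⟨α, hα, hw⟩ := hP.reg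
  have hvd : (mt v).det ≠ 0 := (affInd_iff v).mp hP.hva
  have hwd : (mt w).det ≠ 0 := (affInd_iff w).mp hP.hwa
  rcases hB_zero (d := d) R with ⟨h1, -⟩ | ⟨hR0, h1⟩
  · rw [h1]; simp
  set t : ℝ := Real.sqrt (1 - 1 / R ^ 2) with ht
  obtain ⟨zw, sw, hDw, hsw, hhtw, -⟩ := h_REG d w α (by omega) hα hw hwd
  have hdpos : (0 : ℝ) < d := by exact_mod_cast (by omega : 0 < d)
  set h₀ : ℝ := Real.sqrt (α / (d * (d + 1))) with hh₀
  have hh₀pos : 0 < h₀ := Real.sqrt_pos.mpr (by positivity)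
  rw [h1]
  rcases le_or_gt t h₀ with hth | hth
  · -- the ball is contained in the regular simplex
    have h2 := CE3_.sub_of_le h_HUL hDw (t := t) (fun i => by rw [hhtw i]; exact hth)
    rw [Set.inter_eq_left.mpr h2]
    exact measure_mono Set.inter_subset_left
  have ht0 : 0 < t := hh₀pos.trans hth
  have ht1 : t < 1 := CE3_.t_lt_one hR0
  have hRgt : 1 < R := by
    rcases hR0.eq_or_lt with h | h
    · exfalso
      rw [ht, ← h] at ht0
      norm_num at ht0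
    · exact h
  obtain ⟨z, s, hD⟩ := h_DUA d v (by omega) hvd
  have hR1gt : 1 < R₁ := by
    by_contra hcon
    have h2 : R₁ = 1 := le_antisymm (not_lt.mp hcon) hR1
    rw [h2] at hR
    nlinarith
  set t₁ : ℝ := Real.sqrt (1 - 1 / R₁ ^ 2) with ht₁
  have ht₁0 : 0 < t₁ := by
    rw [ht₁]
    apply Real.sqrt_pos.mpr
    rw [sub_pos, div_lt_one (by positivity)]
    nlinarith
  have hball : Metric.closedBall (0 : EE d) t₁ ⊆ convexHull ℝ (Set.range v) := by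
    rcases hB_zero (d := d) R₁ with ⟨-, h2⟩ | ⟨-, h2⟩
    · linarith
    · rw [h2] at hB1
      exact hB1
  have hhtk : ∀ k, t₁ ≤ HCap.ht z s k := fun k => CE3_.le_of_sub h_HUL hD ht₁0.le hball k
  have hs : ∀ k, 0 < s k := by
    intro k
    have hz : 0 < ‖z k‖ := norm_pos_iff.mpr (hD.hz k)
    have h2 := ht₁0.trans_le (hhtk k)
    unfold HCap.ht at h2
    exact (div_pos_iff_of_pos_right hz).mp h2
  have hEUV := h_EUV d v w hP
  have hG := (h_GMN d v w z s α (by omega) hα hw hEUV hD hs (fun _ => 0) ∅ id (by simp)).2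
  rw [Finset.sum_empty, mul_zero] at hG
  -- `t₁ ≤ h₀`
  have ht₁h : t₁ ≤ h₀ := by
    by_contra hcon
    rw [not_le] at hcon
    have h2 : ∑ i : Fin (d + 1), (Real.log h₀ - Real.log (HCap.ht z s i)) < 0 := by
      apply Finset.sum_neg
      · intro i _
        have h3 := Real.log_lt_log hh₀pos (hcon.trans_le (hhtk i))
        linarith
      · exact Finset.univ_nonempty
    linarith
  have hXX1 : 1 / (d : ℝ) ≤ XX t t₁ := by
    rw [ht, ht₁, CE3_.XX_ball hRgt hR1gt]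
    have h2 : 0 < R ^ 2 - 1 := by nlinarith
    rw [div_le_div_iff₀ hdpos h2]
    linarith
  have hXX0 : 1 / (d : ℝ) ≤ XX t h₀ :=
    hXX1.trans (CE3_.XX_mono ht0 ht1 ht₁0.le ht₁h hth.le)
  have hXXi : ∀ i, 1 / (d : ℝ) ≤ XX t (min (HCap.ht z s i) t) := by
    intro i
    refine hXX1.trans (CE3_.XX_mono ht0 ht1 ht₁0.le ?_ (min_le_right _ _))
    exact le_min (hhtk i) (ht₁h.trans hth.le)
  have hNU := h_NU2 d t h₀ (HCap.ht z s) hd ht0 ht1 hh₀pos hth.le hXX0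
    (fun i => ht₁0.trans_le (hhtk i)) hXXi hG
  refine h_CMP d v w z s α t hd hα hw hwd ht0 ht1 hth.le hD Finset.univ
    (fun i _ j _ hij => CE3_.disj hD h1 hDC i j hij) ?_
  refine hNU.trans (le_of_eq (Finset.sum_congr rfl (fun i _ => ?_)))
  rw [max_eq_left (ht₁0.le.trans (hhtk i))]

end HCap
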