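import Pool.Agent.HCap.Targets

/-!
# HCap: comparison with the regular simplex
-/

set_option autoImplicit false

open MeasureTheory Set

namespace HCap

open BallSimp

namespace CMP_

lemma fc_nonneg {d : ℕ} {t x : ℝ} (ht1 : t < 1) (hx : 0 ≤ x) (hxt : x ≤ t) : 0 ≤ fc d t x := by
  unfold fc
  have h1 : 0 ≤ t ^ 2 - x ^ 2 := by nlinarith
  have h2 : 0 ≤ 1 - x ^ 2 := by nlinarith
  exact div_nonneg (Real.rpow_nonneg h1 _) h2

lemma cap_nonneg {d : ℕ} {t h : ℝ} (ht1 : t < 1) (hh : 0 ≤ h) (hht : h ≤ t) :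
    0 ≤ cap d t h := by
  unfold cap
  exact intervalIntegral.integral_nonneg hht
    (fun u hu => fc_nonneg ht1 (hh.trans hu.1) hu.2)

end CMP_

theorem p_CMP (h_CPM : T_CPM) (h_MEA : T_MEA) (h_REG : T_REG) : T_CMP := by
  intro d v w z s α t hd hα hw hdet ht0 ht1 hh0 hD S hdisj hcap
  obtain ⟨K, hK, hCP⟩ := h_CPM d t hd ht0 ht1
  obtain ⟨zw, sw, hDw, hsw, hhtw, -⟩ := h_REG d w α (by omega) hα hw hdet
  set h₀ : ℝ := Real.sqrt (α / (d * (d + 1))) with hh₀
  have hh₀0 : 0 ≤ h₀ := Real.sqrt_nonneg _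
  -- the regular simplex
  have h1 := (h_MEA d w zw sw t hDw).2
  have h2 : ∑ i, muK d (cp zw sw t i) = ENNReal.ofReal (((d : ℝ) + 1) * (K * cap d t h₀)) := by
    have h3 : ∀ i, muK d (cp zw sw t i) = ENNReal.ofReal (K * cap d t h₀) := by
      intro i
      have h4 := (hCP zw sw i (hDw.hz i)).1 (by rw [hhtw i]; exact hh₀0)
      rw [h4, hhtw i, min_eq_left hh0]
    rw [Finset.sum_congr rfl (fun i _ => h3 i), Finset.sum_const, Finset.card_univ,
      Fintype.card_fin, nsmul_eq_mul, ENNReal.ofReal_mul (by positivity : (0 : ℝ) ≤ (d : ℝ) + 1)]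
    congr 1
    rw [show ((d : ℝ) + 1) = ((d + 1 : ℕ) : ℝ) by push_cast; ring, ENNReal.ofReal_natCast]
  -- the other simplex
  have h5 := (h_MEA d v z s t hD).1 S hdisj
  have h6 : ENNReal.ofReal (K * ∑ i ∈ S, cap d t (min (max (ht z s i) 0) t)) ≤
      ∑ i ∈ S, muK d (cp z s t i) := by
    rw [Finset.mul_sum, ENNReal.ofReal_sum_of_nonneg]
    · refine Finset.sum_le_sum (fun i _ => ?_)
      rcases le_or_gt 0 (ht z s i) with h7 | h7
      · rw [(hCP z s i (hD.hz i)).1 h7, max_eq_left h7]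
      · have h8 := (hCP z s i (hD.hz i)).2 h7
        rwa [max_eq_right h7.le, min_eq_left ht0.le]
    · intro i _
      exact mul_nonneg hK.le (CMP_.cap_nonneg ht1 (le_min (le_max_right _ _) ht0.le)
        (min_le_right _ _))
  have h9 : ENNReal.ofReal (((d : ℝ) + 1) * (K * cap d t h₀)) ≤
      ENNReal.ofReal (K * ∑ i ∈ S, cap d t (min (max (ht z s i) 0) t)) := by
    apply ENNReal.ofReal_le_ofReal
    rw [show ((d : ℝ) + 1) * (K * cap d t h₀) = K * (((d : ℝ) + 1) * cap d t h₀) by ring]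
    exact mul_le_mul_of_nonneg_left hcap hK.le
  have h10 : muK d (Metric.closedBall 0 t ∩ convexHull ℝ (Set.range v)) +
      ENNReal.ofReal (K * ∑ i ∈ S, cap d t (min (max (ht z s i) 0) t)) ≤
      muK d (Metric.closedBall 0 t ∩ convexHull ℝ (Set.range w)) +
      ENNReal.ofReal (K * ∑ i ∈ S, cap d t (min (max (ht z s i) 0) t)) := by
    calc _ ≤ muK d (Metric.closedBall 0 t ∩ convexHull ℝ (Set.range v)) +
          ∑ i ∈ S, muK d (cp z s t i) := by gcongr
      _ ≤ muK d (Metric.closedBall 0 t) := h5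
      _ ≤ muK d (Metric.closedBall 0 t ∩ convexHull ℝ (Set.range w)) +
          ∑ i, muK d (cp zw sw t i) := h1
      _ ≤ _ := by
          rw [h2]
          gcongr
  exact (ENNReal.add_le_add_iff_right ENNReal.ofReal_ne_top).mp h10

end HCap
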