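import Pool.Agent.HCap.Targets

/-!
# HCap: the volume of the part of the ball beyond a facet
-/

set_option autoImplicit false

open MeasureTheory Set

namespace HCap

open BallSimp

namespace CPM_

lemma mem_iff {d : ℕ} (z : Fin (d + 1) → EE d) (s : Fin (d + 1) → ℝ) (i : Fin (d + 1))
    (hz : z i ≠ 0) (x : EE d) :
    s i < inner ℝ (z i) x ↔ ht z s i < inner ℝ ((‖z i‖)⁻¹ • z i) x := by
  have h0 : 0 < ‖z i‖ := norm_pos_iff.2 hz
  rw [ht, real_inner_smul_left, div_lt_iff₀ h0, mul_comm (‖z i‖)⁻¹, mul_assoc,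
    inv_mul_cancel₀ h0.ne', mul_one]

lemma norm_unit {d : ℕ} {u : EE d} (hu : u ≠ 0) : ‖(‖u‖)⁻¹ • u‖ = 1 := by
  rw [norm_smul, norm_inv, norm_norm, inv_mul_cancel₀ (norm_pos_iff.2 hu).ne']

lemma cp_eq {d : ℕ} (z : Fin (d + 1) → EE d) (s : Fin (d + 1) → ℝ) (t : ℝ) (i : Fin (d + 1))
    (hz : z i ≠ 0) :
    cp z s t i = Metric.closedBall 0 t ∩ {x | ht z s i < inner ℝ ((‖z i‖)⁻¹ • z i) x} := by
  ext x
  simp only [cp, mem_inter_iff, mem_setOf_eq, mem_iff z s i hz x]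

end CPM_

theorem p_CPM (h_CAP : T_CAP) : T_CPM := by
  intro d t hd ht0 ht1
  obtain ⟨K, hK, hC⟩ := h_CAP d t hd ht0 ht1
  refine ⟨K, hK, fun z s i hz => ⟨fun h => ?_, fun h => ?_⟩⟩
  · rw [CPM_.cp_eq z s t i hz]
    rcases le_or_gt (ht z s i) t with h1 | h1
    · rw [min_eq_left h1]
      exact hC _ (CPM_.norm_unit hz) _ h h1
    · rw [min_eq_right h1.le]
      have h2 : (Metric.closedBall (0 : EE d) t ∩
          {x | ht z s i < inner ℝ ((‖z i‖)⁻¹ • z i) x}) = ∅ := by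
        rw [eq_empty_iff_forall_notMem]
        rintro x ⟨hx1, hx2⟩
        rw [mem_setOf_eq] at hx2
        rw [mem_closedBall_zero_iff] at hx1
        have h3 := real_inner_le_norm ((‖z i‖)⁻¹ • z i) x
        rw [CPM_.norm_unit hz, one_mul] at h3
        linarith
      rw [h2, measure_empty, cap, intervalIntegral.integral_same, mul_zero, ENNReal.ofReal_zero]
  · rw [CPM_.cp_eq z s t i hz, ← hC _ (CPM_.norm_unit hz) 0 le_rfl ht0.le]
    apply measure_mono
    rintro x ⟨hx1, hx2⟩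
    rw [mem_setOf_eq] at hx2
    exact ⟨hx1, h.trans hx2⟩

end HCap
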