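import Pool.Agent.HCap.Targets

/-!
# HCap, DUA: barycentric functionals of a simplex
-/

set_option autoImplicit false

open MeasureTheory Set

namespace HCap

open BallSimp

namespace DUA_

variable {d : ℕ}

/-- the functionals `1, …, d` -/
noncomputable def zz (v : Fin (d + 1) → EE d) (k : Fin d) : EE d :=
  WithLp.toLp 2 fun i => -(mt v)⁻¹ i k

/-- all functionals -/
noncomputable def z (v : Fin (d + 1) → EE d) : Fin (d + 1) → EE d :=
  Fin.cons (-∑ k, zz v k) (zz v)

/-- the constants -/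
noncomputable def s (v : Fin (d + 1) → EE d) : Fin (d + 1) → ℝ :=
  Fin.cons (1 - ∑ k, inner ℝ (zz v k) (v 0)) fun k => inner ℝ (zz v k) (v 0)

theorem z_zero (v : Fin (d + 1) → EE d) : z v 0 = -∑ k, zz v k := rfl

theorem z_succ (v : Fin (d + 1) → EE d) (k : Fin d) : z v k.succ = zz v k := rfl

theorem s_zero (v : Fin (d + 1) → EE d) : s v 0 = 1 - ∑ k, inner ℝ (zz v k) (v 0) := rfl

theorem s_succ (v : Fin (d + 1) → EE d) (k : Fin d) : s v k.succ = inner ℝ (zz v k) (v 0) := rfl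

theorem inner_zz (v : Fin (d + 1) → EE d) (k : Fin d) (y : EE d) :
    inner ℝ (zz v k) y = -(Matrix.vecMul y.ofLp (mt v)⁻¹) k := by
  rw [PiLp.inner_apply, Matrix.vecMul, dotProduct, ← Finset.sum_neg_distrib]
  refine Finset.sum_congr rfl fun i _ => ?_
  unfold zz
  simp

theorem coord_succ (v : Fin (d + 1) → EE d) (k : Fin d) (x : EE d) :
    s v k.succ - inner ℝ (z v k.succ) x = (Matrix.vecMul (x - v 0).ofLp (mt v)⁻¹) k := by
  rw [s_succ, z_succ, ← inner_sub_right, inner_zz, ← neg_sub x (v 0), WithLp.ofLp_neg,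
    Matrix.neg_vecMul, Pi.neg_apply, neg_neg]

theorem sum_coord (v : Fin (d + 1) → EE d) (x : EE d) :
    ∑ i, (s v i - inner ℝ (z v i) x) = 1 := by
  rw [Fin.sum_univ_succ, s_zero, z_zero, inner_neg_left, sum_inner]
  simp only [s_succ, z_succ, Finset.sum_sub_distrib]
  ring

theorem comb_eq (v : Fin (d + 1) → EE d) (l : Fin (d + 1) → ℝ) (hl : ∑ i, l i = 1) :
    ∑ i, l i • v i = v 0 + WithLp.toLp 2 (Matrix.vecMul (fun k : Fin d => l k.succ) (mt v)) := by
  have h1 : lam (fun k : Fin d => l k.succ) = l := by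
    funext i
    refine Fin.cases ?_ (fun j => ?_) i
    · rw [lam_zero]
      rw [Fin.sum_univ_succ] at hl
      linarith
    · rfl
  have h2 : ∑ i, l i • v i = bmap v (fun k : Fin d => l k.succ) := by
    unfold bmap
    rw [h1]
  rw [h2, bmap_eq]
  congr 1
  ext i
  simp [Matrix.vecMul, dotProduct, BallSimp.mt]

theorem uniq (v : Fin (d + 1) → EE d) (h : (mt v).det ≠ 0) (l : Fin (d + 1) → ℝ)
    (hl : ∑ i, l i = 1) (i : Fin (d + 1)) :
    l i = s v i - inner ℝ (z v i) (∑ j, l j • v j) := by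
  have hs : ∀ k : Fin d, l k.succ = s v k.succ - inner ℝ (z v k.succ) (∑ j, l j • v j) := by
    intro k
    rw [coord_succ, comb_eq v l hl, add_sub_cancel_left, Matrix.vecMul_vecMul,
      Matrix.mul_nonsing_inv _ (isUnit_iff_ne_zero.2 h), Matrix.vecMul_one]
  refine Fin.cases ?_ (fun k => hs k) i
  have h1 := sum_coord v (∑ j, l j • v j)
  rw [Fin.sum_univ_succ] at h1 hl
  have h2 : ∑ k : Fin d, l k.succ =
      ∑ k : Fin d, (s v k.succ - inner ℝ (z v k.succ) (∑ j, l j • v j)) :=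
    Finset.sum_congr rfl fun k _ => hs k
  linarith

theorem rep (v : Fin (d + 1) → EE d) (h : (mt v).det ≠ 0) (x : EE d) :
    ∑ i, (s v i - inner ℝ (z v i) x) • v i = x := by
  rw [comb_eq v _ (sum_coord v x)]
  have h1 : (fun k : Fin d => s v k.succ - inner ℝ (z v k.succ) x) =
      Matrix.vecMul (x - v 0).ofLp (mt v)⁻¹ := by
    funext k
    exact coord_succ v k x
  rw [h1, Matrix.vecMul_vecMul, Matrix.nonsing_inv_mul _ (isUnit_iff_ne_zero.2 h),
    Matrix.vecMul_one]
  simp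

theorem z_ne (v : Fin (d + 1) → EE d) (hd : 0 < d) (h : (mt v).det ≠ 0) (i : Fin (d + 1)) :
    z v i ≠ 0 := by
  intro h0
  obtain ⟨j, hj⟩ : ∃ j : Fin (d + 1), j ≠ i := by
    have : Nontrivial (Fin (d + 1)) := Fin.nontrivial_iff_two_le.2 (by omega)
    exact exists_ne i
  have h1 := uniq v h (Pi.single i 1) (by simp) i
  have h2 := uniq v h (Pi.single j 1) (by simp) i
  rw [h0, inner_zero_left, sub_zero] at h1 h2
  rw [Pi.single_eq_same] at h1
  rw [Pi.single_eq_of_ne hj.symm] at h2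
  linarith

theorem det_eq (v : Fin (d + 1) → EE d) (h : (mt v).det ≠ 0) :
    |(zm (z v)).det| * |(mt v).det| = 1 := by
  have h1 : zm (z v) = -((mt v)⁻¹).transpose := by
    ext k i
    rfl
  rw [h1, Matrix.det_neg, Matrix.det_transpose, abs_mul, abs_pow, abs_neg, abs_one, one_pow,
    one_mul, ← abs_mul, ← Matrix.det_mul, Matrix.nonsing_inv_mul _ (isUnit_iff_ne_zero.2 h),
    Matrix.det_one, abs_one]

end DUA_

theorem p_DUA : T_DUA := by
  intro d v hd h
  refine ⟨DUA_.z v, DUA_.s v, ⟨?_, ?_, DUA_.z_ne v hd h, DUA_.rep v h, DUA_.uniq v h,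
    DUA_.det_eq v h⟩⟩
  · rw [Fin.sum_univ_succ, DUA_.z_zero]
    simp only [DUA_.z_succ]
    exact neg_add_cancel _
  · rw [Fin.sum_univ_succ, DUA_.s_zero]
    simp only [DUA_.s_succ]
    ring

end HCap
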