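import Pool.Agent.HCap.Targets

set_option autoImplicit false

/-!
# HCap, target EUV: the Euclidean volumes
-/

open MeasureTheory Set

namespace HCap

open BallSimp

theorem p_EUV : T_EUV := by
  intro d v w h
  rcases Nat.eq_zero_or_pos d with hd | hd
  · subst hd
    have : v = w := Subsingleton.elim _ _
    rw [this]
  obtain ⟨α, hα, hw⟩ := h.reg
  have hvd := (affInd_iff v).mp h.hva
  have hwd := (affInd_iff w).mp h.hwa
  have hvp : 0 < |(mt v).det| := abs_pos.mpr hvd
  have hvol : ENNReal.ofReal |(mt w).det| * II w = ENNReal.ofReal |(mt v).det| * II v := by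
    rw [← muK_hull v hvd, ← muK_hull w hwd]
    exact h.hvol
  by_contra hlt
  push Not at hlt
  have h1 := jens v w α h.hv hvd hw hα hlt.le
  have h2 : ENNReal.ofReal |(mt w).det| * II w < ENNReal.ofReal |(mt v).det| * II w :=
    ENNReal.mul_lt_mul_left (II_pos w h.hw).ne' (II_lt w h.hw).ne
      ((ENNReal.ofReal_lt_ofReal_iff hvp).mpr hlt)
  have h3 : ENNReal.ofReal |(mt v).det| * II w ≤ ENNReal.ofReal |(mt v).det| * II v := by gcongr
  rw [← hvol] at h3
  exact absurd (h2.trans_le h3) (lt_irrefl _)

end HCap
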