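import Pool.Agent.HCap.Targets

/-!
# HCap: any centre (target T_FIN)
-/

set_option autoImplicit false

open MeasureTheory Set

namespace HCap

open BallSimp

namespace FIN_

/-- the hypotheses of the theorem -/
def Cond (d : ℕ) (c : EE d) (v w : Fin (d + 1) → EE d) (R R₀ : ℝ) : Prop :=
  (hB c R₀ ⊆ convexHull ℝ (Set.range w) ∧ 9 * (R ^ 2 - 1) ≤ 10 * (R₀ ^ 2 - 1)) ∨
    (DC c R v ∧ 3 ≤ d ∧ hB c R₀ ⊆ convexHull ℝ (Set.range w) ∧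
      2 * (R ^ 2 - 1) ≤ 3 * (R₀ ^ 2 - 1)) ∨
    (DC c R v ∧ hB c R₀ ⊆ convexHull ℝ (Set.range v) ∧ R ^ 2 - 1 ≤ (d : ℝ) * (R₀ ^ 2 - 1))

theorem centred (h1 : T_CE1) (h2 : T_CE2) (h3 : T_CE3) {d : ℕ} {v w : Fin (d + 1) → EE d}
    (hd : 2 ≤ d) (h : Pair 0 v w) {R R₀ : ℝ} (hR : 1 ≤ R₀) (hc : Cond d 0 v w R R₀) :
    muK d (hB (0 : EE d) R ∩ convexHull ℝ (Set.range v)) ≤
      muK d (hB (0 : EE d) R ∩ convexHull ℝ (Set.range w)) := by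
  rcases hc with ⟨a, b⟩ | ⟨a, b, c, e⟩ | ⟨a, b, c⟩
  · exact h1 d v w hd h R R₀ a b hR
  · exact h2 d v w b h R R₀ c e hR a
  · exact h3 d v w hd h R R₀ b c hR a

theorem cond_tr (h5 : T_TRD) {d : ℕ} {c : EE d} {v w : Fin (d + 1) → EE d} (h : Pair c v w)
    {n : ℝ × EE d} (hn : 0 < lor d n n) {R R₀ : ℝ} (hc : Cond d c v w R R₀) :
    Cond d (tr n c) (fun i => tr n (v i)) (fun i => tr n (w i)) R R₀ := by
  rcases hc with ⟨a, b⟩ | ⟨a, b, e, f⟩ | ⟨a, b, e⟩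
  · exact Or.inl ⟨(hB_tr hn c h.hc R₀ w h.hw).2 a, b⟩
  · exact Or.inr (Or.inl ⟨h5 d n v c R hn h.hv h.hc a, b,
      (hB_tr hn c h.hc R₀ w h.hw).2 e, f⟩)
  · exact Or.inr (Or.inr ⟨h5 d n v c R hn h.hv h.hc a,
      (hB_tr hn c h.hc R₀ v h.hv).2 b, e⟩)

end FIN_

open FIN_ in
theorem p_FIN (h1 : T_CE1) (h2 : T_CE2) (h3 : T_CE3) (h4 : T_TRV) (h5 : T_TRD) : T_FIN := by
  intro d c v w hd h R R₀ hR hc
  have hc' : Cond d c v w R R₀ := hc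
  rcases exists_centred c h.hc with h0 | ⟨n, hn, h0⟩
  · subst h0
    exact centred h1 h2 h3 hd h hR hc'
  · have h6 := h.tr hn
    have h7 := cond_tr h5 h hn hc'
    rw [← h4 d n v c R hn h.hv h.hc, ← h4 d n w c R hn h.hw h.hc]
    rw [h0] at h6 h7 ⊢
    exact centred h1 h2 h3 hd h6 hR h7

end HCap
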