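import Pool.Agent.HCap.Targets

/-!
# GMN: the geometric mean inequality
-/

set_option autoImplicit false

namespace HCap

open BallSimp MeasureTheory Set

namespace GMN_

/-- the sum of the logarithms is at most the logarithm of the mean -/
lemma sum_log_le {m : ℕ} (a : Fin (m + 1) → ℝ) (ha : ∀ i, 0 < a i) :
    ∑ i, Real.log (a i) ≤ ((m : ℝ) + 1) * (Real.log (∑ i, a i) - Real.log ((m : ℝ) + 1)) := by
  have hm : (0 : ℝ) < (m : ℝ) + 1 := by positivity
  have hS : 0 < ∑ i, a i := Finset.sum_pos (fun i _ => ha i) ⟨0, Finset.mem_univ _⟩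
  set c := (∑ i, a i) / ((m : ℝ) + 1) with hc
  have hcp : 0 < c := div_pos hS hm
  have hlc : Real.log c = Real.log (∑ i, a i) - Real.log ((m : ℝ) + 1) := by
    rw [hc, Real.log_div hS.ne' hm.ne']
  have h1 : ∀ i, Real.log (a i) ≤ a i / c - 1 + Real.log c := by
    intro i
    have h2 := Real.log_le_sub_one_of_pos (div_pos (ha i) hcp)
    rw [Real.log_div (ha i).ne' hcp.ne'] at h2
    linarith
  calc ∑ i, Real.log (a i) ≤ ∑ i, (a i / c - 1 + Real.log c) :=
        Finset.sum_le_sum (fun i _ => h1 i)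
    _ = (∑ i, a i) / c - ((m : ℝ) + 1) + ((m : ℝ) + 1) * Real.log c := by
        rw [Finset.sum_add_distrib, Finset.sum_sub_distrib, ← Finset.sum_div]
        simp
    _ = ((m : ℝ) + 1) * Real.log c := by
        have h3 : (∑ i, a i) / c = (m : ℝ) + 1 := by
          rw [hc]
          field_simp
        rw [h3]
        ring
    _ = _ := by rw [hlc]

/-- the normalised correlation is between -1 and 1 -/
lemma ep_sq_le {d : ℕ} (z : Fin (d + 1) → EE d) (i j : Fin (d + 1)) : ep z i j ^ 2 ≤ 1 := by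
  have hd : (0 : ℝ) ≤ (d : ℝ) := Nat.cast_nonneg d
  have h1 : |cs z i j| ≤ 1 := abs_real_inner_div_norm_mul_norm_le_one (z i) (z j)
  obtain ⟨h2, h3⟩ := abs_le.mp h1
  rw [sq_le_one_iff_abs_le_one, abs_le, ep]
  constructor
  · rw [le_div_iff₀ (by positivity)]
    nlinarith
  · rw [div_le_iff₀ (by positivity)]
    nlinarith

end GMN_

theorem p_GMN (h_HAD : T_HAD) : T_GMN := by
  intro d v w z s α hd hα hw hvw hD hs rk N p hp
  have hd' : (0 : ℝ) < d := by exact_mod_cast hd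
  have hd1 : (0 : ℝ) < (d : ℝ) + 1 := by positivity
  have hza : ∀ i, 0 < ‖z i‖ := fun i => norm_pos_iff.mpr (hD.hz i)
  have hS : 0 < ∑ i, ‖z i‖ := Finset.sum_pos (fun i _ => hza i) ⟨0, Finset.mem_univ _⟩
  have hDpos : 1 ≤ (zm z).det ^ 2 * (α ^ d * ((d : ℝ) + 1)) := by
    have h1 := hD.det
    have h2 := hw.det_sq
    have h3 : 1 ≤ |(zm z).det| * |(mt w).det| := by
      rw [← h1]
      exact mul_le_mul_of_nonneg_left hvw (abs_nonneg _)
    rw [← h2]
    calc (1 : ℝ) = 1 ^ 2 := by norm_num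
      _ ≤ (|(zm z).det| * |(mt w).det|) ^ 2 := pow_le_pow_left₀ (by norm_num) h3 2
      _ = (zm z).det ^ 2 * (mt w).det ^ 2 := by rw [mul_pow, sq_abs, sq_abs]
  have hD0 : 0 < (zm z).det ^ 2 := by
    rcases (sq_nonneg (zm z).det).lt_or_eq with h | h
    · exact h
    · rw [← h, zero_mul] at hDpos
      linarith
  have hHAD := h_HAD d z hd hD.sz hD.hz rk N p hp
  have hf0 : ∀ j ∈ N, 0 ≤ 1 - ep z j (p j) ^ 2 := by
    intro j _
    have := GMN_.ep_sq_le z j (p j)
    linarith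
  have hA : 0 < ∏ i, ‖z i‖ ^ 2 := Finset.prod_pos (fun i _ => pow_pos (hza i) 2)
  have hP0 : 0 ≤ ∏ j ∈ N, (1 - ep z j (p j) ^ 2) := Finset.prod_nonneg hf0
  have hK : 0 < (d : ℝ) * (((d : ℝ) + 1) / d) ^ (d + 1) := by positivity
  have hL : 0 < (zm z).det ^ 2 * (∑ i, ‖z i‖) ^ 2 := by positivity
  have hP : 0 < ∏ j ∈ N, (1 - ep z j (p j) ^ 2) := by
    rcases hP0.lt_or_eq with h | h
    · exact h
    · rw [← h, mul_zero] at hHAD
      linarith
  have hf : ∀ j ∈ N, 0 < 1 - ep z j (p j) ^ 2 := by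
    intro j hj
    rcases (hf0 j hj).lt_or_eq with h | h
    · exact h
    · exfalso
      rw [Finset.prod_eq_zero hj h.symm] at hP
      exact lt_irrefl _ hP
  refine ⟨hf, ?_⟩
  have hlP : Real.log (∏ j ∈ N, (1 - ep z j (p j) ^ 2)) =
      ∑ j ∈ N, Real.log (1 - ep z j (p j) ^ 2) :=
    Real.log_prod (fun j hj => (hf j hj).ne')
  set LP := ∑ j ∈ N, Real.log (1 - ep z j (p j) ^ 2) with hLP
  have hLP0 : LP ≤ 0 := by
    refine Finset.sum_nonpos (fun j hj => ?_)
    refine Real.log_nonpos (hf0 j hj) ?_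
    have := sq_nonneg (ep z j (p j))
    linarith
  set X := ∑ i, Real.log ‖z i‖ with hX
  set Y := ∑ i, Real.log (s i) with hY
  have hlA : Real.log (∏ i, ‖z i‖ ^ 2) = 2 * X := by
    rw [Real.log_prod (fun i _ => (pow_pos (hza i) 2).ne'), hX, Finset.mul_sum]
    refine Finset.sum_congr rfl (fun i _ => ?_)
    rw [Real.log_pow]
    norm_num
  -- the logarithm of the Hadamard inequality
  have h1 : Real.log ((zm z).det ^ 2) + 2 * Real.log (∑ i, ‖z i‖) ≤
      Real.log d + ((d : ℝ) + 1) * (Real.log ((d : ℝ) + 1) - Real.log d) + 2 * X + LP := by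
    have h2 := Real.log_le_log hL hHAD
    rw [Real.log_mul hD0.ne' (pow_pos hS 2).ne', Real.log_pow (∑ i, ‖z i‖) 2,
      Real.log_mul (mul_pos hK hA).ne' hP.ne', Real.log_mul hK.ne' hA.ne',
      Real.log_mul hd'.ne' (pow_pos (div_pos hd1 hd') _).ne',
      Real.log_pow (((d : ℝ) + 1) / d) (d + 1),
      Real.log_div hd1.ne' hd'.ne', hlA, hlP] at h2
    push_cast at h2
    linarith
  have h3 : -((d : ℝ) * Real.log α + Real.log ((d : ℝ) + 1)) ≤ Real.log ((zm z).det ^ 2) := by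
    have h4 := Real.log_le_log one_pos hDpos
    have hα' : 0 < α ^ d * ((d : ℝ) + 1) := by positivity
    rw [Real.log_one, Real.log_mul hD0.ne' hα'.ne', Real.log_mul (pow_pos hα d).ne' hd1.ne',
      Real.log_pow α d] at h4
    linarith
  have h5 : X ≤ ((d : ℝ) + 1) * (Real.log (∑ i, ‖z i‖) - Real.log ((d : ℝ) + 1)) :=
    GMN_.sum_log_le (fun i => ‖z i‖) hza
  have h6 : Y ≤ -(((d : ℝ) + 1) * Real.log ((d : ℝ) + 1)) := by
    have h7 := GMN_.sum_log_le s hs
    rw [hD.ss, Real.log_one] at h7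
    linarith
  have hlh : Real.log (Real.sqrt (α / (d * (d + 1)))) =
      (Real.log α - Real.log d - Real.log ((d : ℝ) + 1)) / 2 := by
    rw [Real.log_sqrt (by positivity), Real.log_div hα.ne' (mul_pos hd' hd1).ne',
      Real.log_mul hd'.ne' hd1.ne']
    ring
  have hR : ∑ i, (Real.log (Real.sqrt (α / (d * (d + 1)))) - Real.log (ht z s i)) =
      ((d : ℝ) + 1) * ((Real.log α - Real.log d - Real.log ((d : ℝ) + 1)) / 2) - (Y - X) := by
    rw [Finset.sum_sub_distrib, hlh]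
    have h8 : ∑ i, Real.log (ht z s i) = Y - X := by
      rw [hX, hY, ← Finset.sum_sub_distrib]
      refine Finset.sum_congr rfl (fun i _ => ?_)
      rw [ht, Real.log_div (hs i).ne' (hza i).ne']
    rw [h8]
    simp
  rw [hR]
  -- combine
  have h9 : -LP * ((d : ℝ) + 1) ≤ (d : ℝ) * (((d : ℝ) + 1) * (Real.log α + Real.log ((d : ℝ) + 1)
      - Real.log d) + 2 * X) := by
    have e1 := mul_le_mul_of_nonneg_left h1 hd1.le
    have e2 := mul_le_mul_of_nonneg_left h3 hd1.le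
    nlinarith [e1, e2, h5]
  have h10 : (d : ℝ) * (-(1 / 2) * LP) ≤ (d : ℝ) *
      (((d : ℝ) + 1) * ((Real.log α - Real.log d - Real.log ((d : ℝ) + 1)) / 2) - (Y - X)) := by
    have e3 := mul_le_mul_of_nonneg_left h6 hd'.le
    nlinarith [h9, hLP0, e3]
  exact le_of_mul_le_mul_left h10 hd'

end HCap
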