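import Pool.Agent.HCap.Targets

/-!
# GRO: the growth of the cap volume

`cap h / (1 - XX h)^((d+1)/2)` is decreasing on `(0, t)`: its derivative has the sign of
`(d+1)/2 XX' cap - fc (1 - XX)`, which is at most `0` by T_SLO.
-/

set_option autoImplicit false

open MeasureTheory Set

namespace HCap

open BallSimp

theorem GRO_fc_cont (d : ℕ) (t : ℝ) (hd : 2 ≤ d) : ContinuousOn (fc d t) (Ioo (-1) 1) := by
  have hd' : (2 : ℝ) ≤ d := by exact_mod_cast hd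
  intro x hx
  have hx1 : 0 < 1 - x ^ 2 := by nlinarith [hx.1, hx.2]
  have hp : (0 : ℝ) ≤ ((d : ℝ) - 1) / 2 := by linarith
  refine ContinuousAt.continuousWithinAt ?_
  unfold fc
  refine ContinuousAt.div ?_ (by fun_prop) hx1.ne'
  exact ((Real.continuous_rpow_const hp).comp (by fun_prop :
    Continuous fun s : ℝ => t ^ 2 - s ^ 2)).continuousAt

theorem GRO_fc_nonneg (d : ℕ) (t s : ℝ) (ht1 : t < 1) (hs : 0 ≤ s) (hst : s ≤ t) :
    0 ≤ fc d t s := by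
  unfold fc
  have h1 : 0 ≤ t ^ 2 - s ^ 2 := by nlinarith
  have h2 : 0 ≤ 1 - s ^ 2 := by nlinarith
  positivity

theorem GRO_cap_nonneg (d : ℕ) (t h : ℝ) (ht1 : t < 1) (hh : 0 ≤ h) (hht : h ≤ t) :
    0 ≤ cap d t h := by
  unfold cap
  refine intervalIntegral.integral_nonneg hht fun s hs => ?_
  exact GRO_fc_nonneg d t s ht1 (hh.trans hs.1) hs.2

theorem GRO_cap_deriv (d : ℕ) (t x : ℝ) (hd : 2 ≤ d) (ht1 : t < 1) (hx : 0 < x)
    (hxt : x ≤ t) : HasDerivAt (cap d t) (-fc d t x) x := by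
  have hc := GRO_fc_cont d t hd
  have hxm : x ∈ Ioo (-1 : ℝ) 1 := ⟨by linarith, by linarith⟩
  have hint : IntervalIntegrable (fc d t) volume x t := by
    refine ContinuousOn.intervalIntegrable (hc.mono ?_)
    rw [uIcc_of_le hxt]
    intro y hy
    exact ⟨by linarith [hy.1], by linarith [hy.2]⟩
  exact intervalIntegral.integral_hasDerivAt_left hint
    (hc.stronglyMeasurableAtFilter isOpen_Ioo x hxm) (hc.continuousAt (isOpen_Ioo.mem_nhds hxm))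

theorem GRO_XX_eq (t x : ℝ) (ht : 0 < t) (hx : 0 < 1 - x ^ 2) :
    1 - XX t x = (t ^ 2 - x ^ 2) / (t ^ 2 * (1 - x ^ 2)) := by
  unfold XX
  field_simp
  ring

theorem GRO_XX_deriv (t x : ℝ) (ht : 0 < t) (hx : 0 < 1 - x ^ 2) :
    HasDerivAt (fun y => 1 - XX t y)
      (-(2 * x * (1 - t ^ 2) / (t ^ 2 * (1 - x ^ 2) ^ 2))) x := by
  unfold XX
  have h1 : HasDerivAt (fun y : ℝ => y ^ 2 * (1 - t ^ 2)) (2 * x * (1 - t ^ 2)) x := by
    simpa using (hasDerivAt_pow 2 x).mul_const (1 - t ^ 2)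
  have h2 : HasDerivAt (fun y : ℝ => t ^ 2 * (1 - y ^ 2)) (t ^ 2 * (-(2 * x))) x := by
    simpa using ((hasDerivAt_pow 2 x).const_sub 1).const_mul (t ^ 2)
  have hne : t ^ 2 * (1 - x ^ 2) ≠ 0 := by positivity
  have h3 := (h1.div h2 hne).const_sub 1
  refine h3.congr_deriv ?_
  have hx' : (1 - x ^ 2) ≠ 0 := hx.ne'
  field_simp
  ring

theorem GRO_key (h_SLO : T_SLO) (d : ℕ) (t x : ℝ) (hd : 2 ≤ d) (ht : 0 < t) (ht1 : t < 1)
    (hx : 0 < x) (hxt : x < t) :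
    (((d : ℝ) + 1) / 2) * (2 * x * (1 - t ^ 2) / (t ^ 2 * (1 - x ^ 2) ^ 2)) * cap d t x ≤
      fc d t x * (1 - XX t x) := by
  have hs := h_SLO d t x hd ht ht1 hx hxt.le
  have hx1 : 0 < 1 - x ^ 2 := by nlinarith
  have hA : 0 < t ^ 2 - x ^ 2 := by nlinarith
  rw [le_div_iff₀ hx] at hs
  rw [GRO_XX_eq t x ht hx1]
  have hpow : (t ^ 2 - x ^ 2) ^ (((d : ℝ) + 1) / 2) =
      (t ^ 2 - x ^ 2) ^ (((d : ℝ) - 1) / 2) * (t ^ 2 - x ^ 2) := by
    rw [← Real.rpow_add_one hA.ne']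
    congr 1
    ring
  unfold fc
  rw [hpow] at hs
  have e1 : (((d : ℝ) + 1) / 2) * (2 * x * (1 - t ^ 2) / (t ^ 2 * (1 - x ^ 2) ^ 2)) * cap d t x =
      (((d : ℝ) + 1) * (1 - t ^ 2) * cap d t x * x) / (t ^ 2 * (1 - x ^ 2) ^ 2) := by
    ring
  have e2 : (t ^ 2 - x ^ 2) ^ (((d : ℝ) - 1) / 2) / (1 - x ^ 2) *
      ((t ^ 2 - x ^ 2) / (t ^ 2 * (1 - x ^ 2))) =
      ((t ^ 2 - x ^ 2) ^ (((d : ℝ) - 1) / 2) * (t ^ 2 - x ^ 2)) /
        (t ^ 2 * (1 - x ^ 2) ^ 2) := by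
    have hx' : (1 - x ^ 2) ≠ 0 := hx1.ne'
    field_simp
  rw [e1, e2]
  gcongr

theorem GRO_pos (t x : ℝ) (ht : 0 < t) (ht1 : t < 1) (hx : 0 < x) (hxt : x < t) :
    0 < 1 - XX t x := by
  have hx1 : 0 < 1 - x ^ 2 := by nlinarith
  have hA : 0 < t ^ 2 - x ^ 2 := by nlinarith
  rw [GRO_XX_eq t x ht hx1]
  positivity

/-- the derivative of the quotient -/
theorem GRO_deriv (d : ℕ) (t x : ℝ) (hd : 2 ≤ d) (ht : 0 < t) (ht1 : t < 1)
    (hx : 0 < x) (hxt : x < t) :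
    HasDerivAt (fun y => cap d t y / (1 - XX t y) ^ (((d : ℝ) + 1) / 2))
      ((-fc d t x * (1 - XX t x) ^ (((d : ℝ) + 1) / 2) -
        cap d t x * (-(2 * x * (1 - t ^ 2) / (t ^ 2 * (1 - x ^ 2) ^ 2)) * (((d : ℝ) + 1) / 2) *
          (1 - XX t x) ^ (((d : ℝ) + 1) / 2 - 1))) /
        ((1 - XX t x) ^ (((d : ℝ) + 1) / 2)) ^ 2) x := by
  have hx1 : 0 < 1 - x ^ 2 := by nlinarith
  have hp := GRO_pos t x ht ht1 hx hxt
  have h1 := GRO_cap_deriv d t x hd ht1 hx hxt.le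
  have h2 := (GRO_XX_deriv t x ht hx1).rpow_const (p := ((d : ℝ) + 1) / 2) (Or.inl hp.ne')
  exact h1.div h2 (Real.rpow_pos_of_pos hp _).ne'

theorem GRO_nonpos (h_SLO : T_SLO) (d : ℕ) (t x : ℝ) (hd : 2 ≤ d) (ht : 0 < t) (ht1 : t < 1)
    (hx : 0 < x) (hxt : x < t) :
    (-fc d t x * (1 - XX t x) ^ (((d : ℝ) + 1) / 2) -
        cap d t x * (-(2 * x * (1 - t ^ 2) / (t ^ 2 * (1 - x ^ 2) ^ 2)) * (((d : ℝ) + 1) / 2) *
          (1 - XX t x) ^ (((d : ℝ) + 1) / 2 - 1))) /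
        ((1 - XX t x) ^ (((d : ℝ) + 1) / 2)) ^ 2 ≤ 0 := by
  have hp := GRO_pos t x ht ht1 hx hxt
  have hk := GRO_key h_SLO d t x hd ht ht1 hx hxt
  have hq : (1 - XX t x) ^ (((d : ℝ) + 1) / 2) =
      (1 - XX t x) ^ (((d : ℝ) + 1) / 2 - 1) * (1 - XX t x) := by
    rw [← Real.rpow_add_one hp.ne']
    congr 1
    ring
  refine div_nonpos_of_nonpos_of_nonneg ?_ (sq_nonneg _)
  have hr : 0 < (1 - XX t x) ^ (((d : ℝ) + 1) / 2 - 1) := Real.rpow_pos_of_pos hp _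
  have hm := mul_le_mul_of_nonneg_right hk hr.le
  have e : -fc d t x * (1 - XX t x) ^ (((d : ℝ) + 1) / 2) -
        cap d t x * (-(2 * x * (1 - t ^ 2) / (t ^ 2 * (1 - x ^ 2) ^ 2)) * (((d : ℝ) + 1) / 2) *
          (1 - XX t x) ^ (((d : ℝ) + 1) / 2 - 1)) =
      (((d : ℝ) + 1) / 2) * (2 * x * (1 - t ^ 2) / (t ^ 2 * (1 - x ^ 2) ^ 2)) * cap d t x *
          (1 - XX t x) ^ (((d : ℝ) + 1) / 2 - 1) -
        fc d t x * (1 - XX t x) * (1 - XX t x) ^ (((d : ℝ) + 1) / 2 - 1) := by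
    rw [hq]
    ring
  rw [e]
  linarith

theorem p_GRO (h_SLO : T_SLO) : T_GRO := by
  intro d t h h₀ hd ht ht1 hh hhh hh₀
  have hd' : (2 : ℝ) ≤ d := by exact_mod_cast hd
  have hpp : (0 : ℝ) < ((d : ℝ) + 1) / 2 := by linarith
  rcases eq_or_lt_of_le hh₀ with heq | hlt
  · subst heq
    have h1 : cap d h₀ h₀ = 0 := by simp [cap]
    have hx1 : 0 < 1 - h₀ ^ 2 := by nlinarith
    have h2 : 1 - XX h₀ h₀ = 0 := by
      rw [GRO_XX_eq h₀ h₀ ht hx1]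
      simp
    rw [h1, h2, Real.zero_rpow hpp.ne']
    simp
  · have hanti : AntitoneOn (fun y => cap d t y / (1 - XX t y) ^ (((d : ℝ) + 1) / 2))
        (Icc h h₀) := by
      refine antitoneOn_of_deriv_nonpos (convex_Icc h h₀) ?_ ?_ ?_
      · intro y hy
        exact (GRO_deriv d t y hd ht ht1 (by linarith [hy.1])
          (by linarith [hy.2])).continuousAt.continuousWithinAt
      · intro y hy
        rw [interior_Icc] at hy
        exact (GRO_deriv d t y hd ht ht1 (by linarith [hy.1])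
          (by linarith [hy.2])).differentiableAt.differentiableWithinAt
      · intro y hy
        rw [interior_Icc] at hy
        rw [(GRO_deriv d t y hd ht ht1 (by linarith [hy.1]) (by linarith [hy.2])).deriv]
        exact GRO_nonpos h_SLO d t y hd ht ht1 (by linarith [hy.1]) (by linarith [hy.2])
    have h1 := hanti (left_mem_Icc.2 hhh) (right_mem_Icc.2 hhh) hhh
    have hp1 : 0 < (1 - XX t h) ^ (((d : ℝ) + 1) / 2) :=
      Real.rpow_pos_of_pos (GRO_pos t h ht ht1 hh (by linarith)) _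
    have hp2 : 0 < (1 - XX t h₀) ^ (((d : ℝ) + 1) / 2) :=
      Real.rpow_pos_of_pos (GRO_pos t h₀ ht ht1 (by linarith) hlt) _
    simp only at h1
    rw [div_le_div_iff₀ hp2 hp1] at h1
    linarith

end HCap
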