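import Pool.Agent.HCap.Targets

/-!
# HCap: HAD: the inequality of Hadamard with parents
-/

set_option autoImplicit false

open MeasureTheory Set

namespace HCap

open BallSimp

namespace HAD_

/-- the inequality of Hadamard -/
lemma hadamard {n : ℕ} (M : Matrix (Fin n) (Fin n) ℝ) : M.det ^ 2 ≤ ∏ i, ∑ j, M i j ^ 2 := by
  have : Fact (Module.finrank ℝ (EuclideanSpace ℝ (Fin n)) = n) := ⟨by simp⟩
  set b := EuclideanSpace.basisFun (Fin n) ℝ with hb
  set o := b.toBasis.orientation with ho
  set v : Fin n → EuclideanSpace ℝ (Fin n) := fun i => WithLp.toLp 2 (M i) with hv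
  have h1 : |o.volumeForm v| = |M.det| := by
    rw [o.volumeForm_robust' b, Module.Basis.det_apply]
    have : b.toBasis.toMatrix v = M.transpose := by
      ext i j
      simp [Module.Basis.toMatrix_apply, hb, hv]
    rw [this, Matrix.det_transpose]
  have h2 := o.abs_volumeForm_apply_le v
  rw [h1] at h2
  have h3 : ∀ i, ‖v i‖ ^ 2 = ∑ j, M i j ^ 2 := by
    intro i
    rw [EuclideanSpace.norm_sq_eq]
    simp [hv]
  calc M.det ^ 2 = |M.det| ^ 2 := (sq_abs _).symm
    _ ≤ (∏ i, ‖v i‖) ^ 2 := by gcongr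
    _ = ∏ i, ∑ j, M i j ^ 2 := by
      rw [← Finset.prod_pow]
      exact Finset.prod_congr rfl fun i _ => h3 i

/-- replacing rows by rows minus multiples of rows of smaller rank -/
lemma det_replace {n : ℕ} (E : Matrix (Fin n) (Fin n) ℝ) (rk : Fin n → ℕ) (p : Fin n → Fin n)
    (c : Fin n → ℝ) (N : Finset (Fin n)) : (∀ j ∈ N, rk (p j) < rk j) →
    (Matrix.of fun i => if i ∈ N then E i - c i • E (p i) else E i).det = E.det := by
  classical
  refine Finset.induction_on_min_value rk N ?_ ?_
  · intro _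
    congr 1
  · intro a s has hmin ih hN
    have ih' := ih fun j hj => hN j (Finset.mem_insert_of_mem hj)
    have hpa := hN a (Finset.mem_insert_self a s)
    have hps : p a ∉ s := fun h => by
      have := hmin (p a) h
      omega
    have hne : a ≠ p a := fun h => by
      rw [← h] at hpa
      exact lt_irrefl _ hpa
    have hu := Matrix.det_updateRow_add_smul_self
      (Matrix.of fun i => if i ∈ s then E i - c i • E (p i) else E i) hne (-c a)
    rw [← ih', ← hu]
    congr 1
    ext i j
    rw [Matrix.updateRow_apply]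
    by_cases hi : i = a
    · subst hi
      simp [has, hps, sub_eq_add_neg]
    · simp [hi]

/-- the determinant of the matrix with the norms in the column `0` -/
lemma det_border {d : ℕ} (z : Fin (d + 1) → EE d) (hz : ∑ i, z i = 0) (a : Fin (d + 1) → ℝ) :
    (Matrix.of fun i => (Fin.cons (a i) (fun k => z i k) : Fin (d + 1) → ℝ)).det =
      (∑ i, a i) * (zm z).det := by
  set F : Matrix (Fin (d + 1)) (Fin (d + 1)) ℝ :=
    Matrix.of fun i => (Fin.cons (a i) (fun k => z i k) : Fin (d + 1) → ℝ) with hF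
  set w : Fin (d + 1) → ℝ := Fin.cons (∑ i, a i) (fun _ => 0) with hw
  have h0 : (∑ k, (1 : ℝ) • (F k : Fin (d + 1) → ℝ)) = w := by
    funext j
    rw [Finset.sum_apply]
    refine Fin.cases ?_ (fun k => ?_) j
    · simp [hF, hw]
    · have := congrArg (fun x : EE d => x k) hz
      simpa [hF, hw] using this
  have h1 := Matrix.det_updateRow_sum F 0 (fun _ => (1 : ℝ))
  rw [one_smul] at h1
  have h1' : (F.updateRow 0 w).det = F.det := by
    rw [← h1, ← h0]
  rw [← h1', Matrix.det_succ_row_zero, Fin.sum_univ_succ]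
  have h2 : ∀ k : Fin d, (F.updateRow 0 w) 0 k.succ = 0 := by
    intro k
    rw [Matrix.updateRow_self, hw, Fin.cons_succ]
  have h3 : (F.updateRow 0 w) 0 0 = ∑ i, a i := by
    rw [Matrix.updateRow_self, hw, Fin.cons_zero]
  have h4 : (F.updateRow 0 w).submatrix Fin.succ (Fin.succAbove 0) = zm z := by
    ext i j
    simp [hF, zm]
  rw [h3, h4]
  simp [h2]

end HAD_

open HAD_

theorem p_HAD : T_HAD := by
  intro d z hd hz hz0 rk N p hN
  have hd0 : (0 : ℝ) < d := by exact_mod_cast hd
  set a : Fin (d + 1) → ℝ := fun i => ‖z i‖ with ha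
  have ha0 : ∀ i, 0 < a i := fun i => norm_pos_iff.mpr (hz0 i)
  set κ : ℝ := ((d : ℝ) + 1) / d with hκ
  have hs : √(d : ℝ) ^ 2 = d := Real.sq_sqrt hd0.le
  have hs0 : 0 < √(d : ℝ) := Real.sqrt_pos.mpr hd0
  set E : Matrix (Fin (d + 1)) (Fin (d + 1)) ℝ :=
    Matrix.of fun i => (Fin.cons (1 / √(d : ℝ)) (fun k => z i k / a i) : Fin (d + 1) → ℝ) with hE
  have hin : ∀ i j, ∑ k, E i k * E j k = κ * (if i = j then 1 else ep z i j) := by
    intro i j
    have e1 : ∑ k, E i k * E j k = 1 / d + inner ℝ (z i) (z j) / (a i * a j) := by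
      rw [Fin.sum_univ_succ]
      have : E i 0 * E j 0 = 1 / d := by
        simp only [hE, Matrix.of_apply, Fin.cons_zero]
        rw [div_mul_div_comm, one_mul, ← sq, hs]
      rw [this]
      congr 1
      rw [PiLp.inner_apply, Finset.sum_div]
      refine Finset.sum_congr rfl fun k _ => ?_
      simp only [hE, Matrix.of_apply, Fin.cons_succ]
      rw [div_mul_div_comm]
      simp [mul_comm]
    rw [e1]
    split_ifs with hij
    · subst hij
      rw [real_inner_self_eq_norm_sq, hκ]
      have := (ha0 i).ne'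
      simp only [ha] at this ⊢
      field_simp
      ring
    · unfold ep cs
      rw [hκ]
      have := (ha0 i).ne'
      have := (ha0 j).ne'
      simp only [ha] at *
      field_simp
      ring
  have hdet := det_replace E rk p (fun i => ep z i (p i)) N hN
  set E' : Matrix (Fin (d + 1)) (Fin (d + 1)) ℝ :=
    Matrix.of fun i => if i ∈ N then E i - ep z i (p i) • E (p i) else E i with hE'
  have hrow : ∀ i, ∑ k, E' i k ^ 2 = κ * (if i ∈ N then 1 - ep z i (p i) ^ 2 else 1) := by
    intro i
    by_cases hi : i ∈ N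
    · have hne : i ≠ p i := fun h => by
        have := hN i hi
        rw [← h] at this
        exact lt_irrefl _ this
      have e1 : ∑ k, E' i k ^ 2 = ∑ k, E i k * E i k - 2 * ep z i (p i) * ∑ k, E i k * E (p i) k +
          ep z i (p i) ^ 2 * ∑ k, E (p i) k * E (p i) k := by
        rw [Finset.mul_sum, Finset.mul_sum, ← Finset.sum_sub_distrib, ← Finset.sum_add_distrib]
        refine Finset.sum_congr rfl fun k _ => ?_
        simp only [hE', Matrix.of_apply, if_pos hi, Pi.sub_apply, Pi.smul_apply, smul_eq_mul]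
        ring
      rw [e1, hin, hin, hin, if_pos rfl, if_neg hne, if_pos rfl, if_pos hi]
      ring
    · have e1 : ∑ k, E' i k ^ 2 = ∑ k, E i k * E i k := by
        refine Finset.sum_congr rfl fun k _ => ?_
        simp only [hE', Matrix.of_apply, if_neg hi]
        ring
      rw [e1, hin, if_pos rfl, if_neg hi]
  have hH := hadamard E'
  rw [hdet, Finset.prod_congr rfl fun i _ => hrow i, Finset.prod_mul_distrib,
    Finset.prod_const, Finset.card_univ, Fintype.card_fin, Finset.prod_ite_mem,
    Finset.univ_inter] at hH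
  have hF : (∏ i, a i) * E.det = (∑ i, a i) / √(d : ℝ) * (zm z).det := by
    rw [← Matrix.det_mul_column, Finset.sum_div, ← det_border z hz]
    congr 1
    ext i j
    refine Fin.cases ?_ (fun k => ?_) j
    · simp only [hE, Matrix.of_apply, Fin.cons_zero]
      ring
    · simp only [hE, Matrix.of_apply, Fin.cons_succ]
      have := (ha0 i).ne'
      field_simp
  have hP : ∏ i, ‖z i‖ ^ 2 = (∏ i, a i) ^ 2 := by rw [← Finset.prod_pow]
  have hP0 : 0 ≤ (∏ i, a i) ^ 2 := sq_nonneg _
  have hfin : (zm z).det ^ 2 * (∑ i, a i) ^ 2 =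
      d * ((∑ i, a i) / √(d : ℝ) * (zm z).det) ^ 2 := by
    rw [mul_pow, div_pow, hs]
    field_simp
  calc (zm z).det ^ 2 * (∑ i, ‖z i‖) ^ 2
      = d * ((∑ i, a i) / √(d : ℝ) * (zm z).det) ^ 2 := hfin
    _ = d * ((∏ i, a i) ^ 2 * E.det ^ 2) := by rw [← hF]; ring
    _ ≤ d * ((∏ i, a i) ^ 2 * (κ ^ (d + 1) * ∏ j ∈ N, (1 - ep z j (p j) ^ 2))) := by gcongr
    _ = _ := by rw [hP]; ring

end HCap
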