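import Pool.Agent.HCap.Targets

/-!
# HCap: membership in the convex hull by the dual functionals
-/

set_option autoImplicit false

namespace HCap

open BallSimp MeasureTheory Set

namespace HUL_

/-- the simplex in terms of the functionals is convex -/
theorem convex_aux {d : ℕ} (z : Fin (d + 1) → EE d) (s : Fin (d + 1) → ℝ) :
    Convex ℝ {x : EE d | ∀ i, inner ℝ (z i) x ≤ s i} := by
  intro x hx y hy a b ha hb hab i
  rw [inner_add_right, inner_smul_right, inner_smul_right]
  calc a * inner ℝ (z i) x + b * inner ℝ (z i) y ≤ a * s i + b * s i := by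
        have h1 := hx i
        have h2 := hy i
        gcongr
    _ = s i := by rw [← add_mul, hab, one_mul]

theorem vertex {d : ℕ} {v z : Fin (d + 1) → EE d} {s : Fin (d + 1) → ℝ} (h : Dual v z s)
    (j i : Fin (d + 1)) : inner ℝ (z i) (v j) ≤ s i := by
  have h1 := h.uniq (Pi.single j 1) (by simp) i
  have h2 : ∑ k, (Pi.single j (1 : ℝ) : Fin (d + 1) → ℝ) k • v k = v j := by
    rw [Finset.sum_eq_single j]
    · simp
    · intro k _ hk
      rw [Pi.single_eq_of_ne hk, zero_smul]
    · intro hj
      exact absurd (Finset.mem_univ j) hj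
  rw [h2] at h1
  have h3 : 0 ≤ (Pi.single j (1 : ℝ) : Fin (d + 1) → ℝ) i := by
    by_cases hij : i = j
    · subst hij
      simp
    · rw [Pi.single_eq_of_ne hij]
  linarith

end HUL_

theorem p_HUL : T_HUL := by
  intro d v z s h x
  constructor
  · intro hx
    have h1 : Set.range v ⊆ {x : EE d | ∀ i, inner ℝ (z i) x ≤ s i} := by
      rintro _ ⟨j, rfl⟩ i
      exact HUL_.vertex h j i
    exact convexHull_min h1 (HUL_.convex_aux z s) hx
  · intro hx
    rw [← h.rep x]
    refine (convex_convexHull ℝ _).sum_mem (fun i _ => ?_) ?_ fun i _ => ?_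
    · linarith [hx i]
    · rw [Finset.sum_sub_distrib, h.ss, ← sum_inner, h.sz, inner_zero_left, sub_zero]
    · exact subset_convexHull ℝ _ ⟨i, rfl⟩

end HCap
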