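import Pool.Agent.HCap.Targets

/-!
# HCap, target MEA: measure of disjoint pieces
-/

set_option autoImplicit false

open MeasureTheory Set

namespace HCap

open BallSimp

namespace MEA_

variable {d : ℕ}

lemma cp_meas (z : Fin (d + 1) → EE d) (s : Fin (d + 1) → ℝ) (t : ℝ) (i : Fin (d + 1)) :
    MeasurableSet (cp z s t i) := by
  refine Metric.isClosed_closedBall.measurableSet.inter (IsOpen.measurableSet ?_)
  exact isOpen_lt continuous_const (continuous_const.inner continuous_id)

lemma hull_meas (v : Fin (d + 1) → EE d) : MeasurableSet (convexHull ℝ (Set.range v)) :=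
  ((Set.finite_range v).isCompact_convexHull (𝕜 := ℝ)).isClosed.measurableSet

end MEA_

open MEA_

theorem p_MEA (h_HUL : T_HUL) : T_MEA := by
  intro d v z s t hD
  have hul := h_HUL d v z s hD
  have hBH : MeasurableSet (Metric.closedBall (0 : EE d) t ∩ convexHull ℝ (Set.range v)) :=
    Metric.isClosed_closedBall.measurableSet.inter (hull_meas v)
  refine ⟨fun S hS => ?_, ?_⟩
  · rw [← measure_biUnion_finset (fun i hi j hj hij => hS i hi j hj hij)
      (fun i _ => cp_meas z s t i), ← measure_union' ?_ hBH]
    · refine measure_mono ?_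
      refine Set.union_subset Set.inter_subset_left ?_
      exact Set.iUnion₂_subset fun i _ => Set.inter_subset_left
    · rw [Set.disjoint_iUnion₂_right]
      intro i _
      rw [Set.disjoint_left]
      rintro x ⟨_, hx⟩ ⟨_, hx2⟩
      exact absurd ((hul x).1 hx i) (not_le.2 hx2)
  · have hsub : Metric.closedBall (0 : EE d) t ⊆
        (Metric.closedBall (0 : EE d) t ∩ convexHull ℝ (Set.range v)) ∪
          ⋃ i ∈ (Finset.univ : Finset (Fin (d + 1))), cp z s t i := by
      intro x hx
      by_cases h : x ∈ convexHull ℝ (Set.range v)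
      · exact Or.inl ⟨hx, h⟩
      · rw [hul x] at h
        push Not at h
        obtain ⟨i, hi⟩ := h
        right
        rw [Set.mem_iUnion₂]
        exact ⟨i, Finset.mem_univ i, hx, hi⟩
    refine (measure_mono hsub).trans ((measure_union_le _ _).trans ?_)
    exact add_le_add le_rfl (measure_biUnion_finset_le _ _)

end HCap
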