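import Pool.Agent.HCap.Targets

/-!
# HCap: the target `T_NUM`
-/

set_option autoImplicit false

open MeasureTheory Set

namespace HCap

open BallSimp

namespace NUM_

lemma cap_self (d : ℕ) (t : ℝ) : cap d t t = 0 := by simp [cap]

lemma cap_nonneg {d : ℕ} {t h : ℝ} (ht1 : t < 1) (ht : 0 < t) (h0 : 0 ≤ h) (hh : h ≤ t) :
    0 ≤ cap d t h := by
  unfold cap
  refine intervalIntegral.integral_nonneg hh fun s hs => ?_
  unfold fc
  have h1 : 0 ≤ s := h0.trans hs.1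
  have h2 : s < 1 := hs.2.trans_lt ht1
  have h3 : 0 < 1 - s ^ 2 := by nlinarith
  have h4 : 0 ≤ t ^ 2 - s ^ 2 := by nlinarith [hs.2]
  positivity

/-- the slope bound: `27 cap ≤ h₀ fc h₀` -/
lemma slope (h_SLO : T_SLO) {d : ℕ} {t h : ℝ} (hd : 2 ≤ d) (ht : 0 < t) (ht1 : t < 1) (hh : 0 < h)
    (hht : h ≤ t) (hX : 9 / 10 ≤ XX t h) : 27 * cap d t h ≤ h * fc d t h := by
  rcases hht.lt_or_eq with hlt | heq
  · have hs := h_SLO d t h hd ht ht1 hh hht
    have hd' : (2 : ℝ) ≤ d := by exact_mod_cast hd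
    have h1 : 0 < 1 - h ^ 2 := by nlinarith
    have h2 : 0 < 1 - t ^ 2 := by nlinarith
    have h3 : 0 < t ^ 2 - h ^ 2 := by nlinarith
    have hcap := cap_nonneg (d := d) ht1 ht hh.le hht
    -- XX ≥ 9/10 gives 9 (t² - h²) ≤ h² (1 - t²)
    have h4 : 9 * (t ^ 2 - h ^ 2) ≤ h ^ 2 * (1 - t ^ 2) := by
      unfold XX at hX
      rw [le_div_iff₀ (by positivity)] at hX
      nlinarith
    have h5 : (t ^ 2 - h ^ 2) ^ (((d : ℝ) + 1) / 2) =
        (t ^ 2 - h ^ 2) ^ (((d : ℝ) - 1) / 2) * (t ^ 2 - h ^ 2) := by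
      have : ((d : ℝ) + 1) / 2 = ((d : ℝ) - 1) / 2 + 1 := by ring
      rw [this, Real.rpow_add h3, Real.rpow_one]
    rw [h5] at hs
    set Q : ℝ := (t ^ 2 - h ^ 2) ^ (((d : ℝ) - 1) / 2) with hQ
    have hQ0 : 0 ≤ Q := by positivity
    unfold fc
    rw [← hQ]
    -- 27 (1 - t²) cap ≤ 9 (d + 1) (1 - t²) cap ≤ 9 Q (t² - h²) / h ≤ Q h (1 - t²)
    have h6 : 27 * (1 - t ^ 2) * cap d t h ≤ 9 * (Q * (t ^ 2 - h ^ 2) / h) := by
      have h7 : 27 * (1 - t ^ 2) * cap d t h ≤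
          9 * (((d : ℝ) + 1) * (1 - t ^ 2) * cap d t h) := by
        have : 0 ≤ (1 - t ^ 2) * cap d t h := by positivity
        nlinarith
      linarith
    have h8 : 9 * (Q * (t ^ 2 - h ^ 2) / h) ≤ Q * h * (1 - t ^ 2) := by
      have h9 : 9 * (Q * (t ^ 2 - h ^ 2) / h) = Q * (9 * (t ^ 2 - h ^ 2)) / h := by ring
      rw [h9, div_le_iff₀ hh]
      nlinarith [mul_le_mul_of_nonneg_left h4 hQ0]
    have h10 : 27 * cap d t h ≤ Q * h := by
      have h11 : (27 * cap d t h) * (1 - t ^ 2) ≤ (Q * h) * (1 - t ^ 2) := by linarith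
      exact le_of_mul_le_mul_right h11 h2
    have h12 : Q * h ≤ h * (Q / (1 - h ^ 2)) := by
      rw [mul_div_assoc', le_div_iff₀ h1]
      have : 0 ≤ Q * h := by positivity
      nlinarith [sq_nonneg h]
    linarith
  · rw [heq, cap_self]
    unfold fc
    have hd' : (2 : ℝ) ≤ d := by exact_mod_cast hd
    have : (t ^ 2 - t ^ 2 : ℝ) ^ (((d : ℝ) - 1) / 2) = 0 := by
      rw [sub_self, Real.zero_rpow (by
        have : 0 < ((d : ℝ) - 1) / 2 := by linarith
        exact this.ne')]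
    rw [this]
    simp

lemma XX_self {t : ℝ} (ht : 0 < t) (ht1 : t < 1) : XX t t = 1 := by
  unfold XX
  have : 0 < 1 - t ^ 2 := by nlinarith
  field_simp

/-- the range condition -/
lemma range {d : ℕ} {t h₀ h : ℝ} (hd : 2 ≤ d) (ht : 0 < t) (ht1 : t < 1) (h0 : 0 < h₀)
    (h0t : h₀ ≤ t) (h02 : h₀ ≤ 1 / 2) (hX : 9 / 10 ≤ XX t h₀) (hh : 0 < h)
    (h7 : 7 * h₀ ^ 2 ≤ 8 * h ^ 2) : 1 / (d : ℝ) ≤ XX t (min h t) := by
  have hd' : (2 : ℝ) ≤ d := by exact_mod_cast hd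
  have hdd : 1 / (d : ℝ) ≤ 1 / 2 := by
    apply one_div_le_one_div_of_le (by norm_num) hd'
  refine hdd.trans ?_
  rcases le_total h t with hle | hle
  · rw [min_eq_left hle]
    have h1 : 0 < 1 - h ^ 2 := by nlinarith
    have h2 : 0 < 1 - t ^ 2 := by nlinarith
    have h3 : 0 < 1 - h₀ ^ 2 := by nlinarith
    unfold XX at hX ⊢
    rw [le_div_iff₀ (by positivity)] at hX ⊢
    have h4 : h₀ ^ 2 ≤ 1 / 4 := by nlinarith
    -- 9/10 t² (1 - h₀²) ≤ h₀² (1 - t²), h² ≥ 7/8 h₀²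
    have h5 : 1 / 2 * (t ^ 2 * (1 - h ^ 2)) ≤ 1 / 2 * (t ^ 2 * (1 - 7 / 8 * h₀ ^ 2)) := by
      have : 0 < t ^ 2 := by positivity
      nlinarith
    have h6 : 1 / 2 * (t ^ 2 * (1 - 7 / 8 * h₀ ^ 2)) ≤ 7 / 8 * (9 / 10 * (t ^ 2 * (1 - h₀ ^ 2))) := by
      have : 0 < t ^ 2 := by positivity
      nlinarith
    have h8 : 7 / 8 * (h₀ ^ 2 * (1 - t ^ 2)) ≤ h ^ 2 * (1 - t ^ 2) := by nlinarith
    linarith
  · rw [min_eq_right hle, XX_self ht ht1]
    norm_num

end NUM_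

open NUM_

theorem p_NUM (h_TAN : T_TAN) (h_SLO : T_SLO) : T_NUM := by
  intro d t h₀ h N hd ht ht1 h0 h0t h02 hX hpos h7 hN
  have hd' : (2 : ℝ) ≤ d := by exact_mod_cast hd
  set σ : ℝ := h₀ * fc d t h₀ with hσ
  set F : ℝ := cap d t h₀ with hF
  have hF0 : 0 ≤ F := cap_nonneg ht1 ht h0.le h0t
  have hsl : 27 * F ≤ σ := slope h_SLO hd ht ht1 h0 h0t hX
  have hσ0 : 0 ≤ σ := by linarith
  have hX0 : 1 / (d : ℝ) ≤ XX t h₀ := by
    have : 1 / (d : ℝ) ≤ 1 / 2 := one_div_le_one_div_of_le (by norm_num) hd'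
    linarith
  -- the elements of N
  have hNi : ∀ i, Real.log h₀ - Real.log (h i) ≤ 1 / 14 := by
    intro i
    have h1 : Real.log (7 * h₀ ^ 2) ≤ Real.log (8 * h i ^ 2) :=
      Real.log_le_log (by positivity) (h7 i)
    rw [Real.log_mul (by norm_num) (by positivity), Real.log_mul (by norm_num)
      (by have := hpos i; positivity), Real.log_pow, Real.log_pow] at h1
    have h2 : Real.log 8 - Real.log 7 ≤ 1 / 7 := by
      rw [← Real.log_div (by norm_num) (by norm_num)]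
      have := Real.log_le_sub_one_of_pos (show (0 : ℝ) < 8 / 7 by norm_num)
      linarith
    push_cast at h1
    linarith
  have hsplit : ∑ i, (Real.log h₀ - Real.log (h i)) =
      ∑ i ∈ Finset.univ \ N, (Real.log h₀ - Real.log (h i)) +
        ∑ i ∈ N, (Real.log h₀ - Real.log (h i)) :=
    (Finset.sum_sdiff (Finset.subset_univ N)).symm
  have hNs : ∑ i ∈ N, (Real.log h₀ - Real.log (h i)) ≤ (N.card : ℝ) * (1 / 14) := by
    have := Finset.sum_le_card_nsmul N (fun i => Real.log h₀ - Real.log (h i)) (1 / 14)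
      fun i _ => hNi i
    rwa [nsmul_eq_mul] at this
  have hS : (N.card : ℝ) * (9 / 70) ≤
      ∑ i ∈ Finset.univ \ N, (Real.log h₀ - Real.log (h i)) := by
    rw [hsplit] at hN
    linarith
  -- the tangent line
  have htan : ∀ i, F + σ * (Real.log h₀ - Real.log (h i)) ≤ cap d t (min (h i) t) := by
    intro i
    have h1 := h_TAN d t h₀ (min (h i) t) hd ht ht1 h0 h0t (lt_min (hpos i) ht)
      (min_le_right _ _) hX0 (range hd ht ht1 h0 h0t h02 hX (hpos i) (h7 i))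
    have h2 : Real.log (min (h i) t) ≤ Real.log (h i) :=
      Real.log_le_log (lt_min (hpos i) ht) (min_le_left _ _)
    have h3 : σ * (Real.log h₀ - Real.log (h i)) ≤
        σ * (Real.log h₀ - Real.log (min (h i) t)) := by
      apply mul_le_mul_of_nonneg_left _ hσ0
      linarith
    linarith
  have hsum : ∑ i ∈ Finset.univ \ N, (F + σ * (Real.log h₀ - Real.log (h i))) ≤
      ∑ i ∈ Finset.univ \ N, cap d t (min (h i) t) := Finset.sum_le_sum fun i _ => htan i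
  rw [Finset.sum_add_distrib, ← Finset.mul_sum, Finset.sum_const, nsmul_eq_mul] at hsum
  have hcard : ((Finset.univ \ N).card : ℝ) = (d : ℝ) + 1 - N.card := by
    rw [Finset.card_sdiff_of_subset (Finset.subset_univ N), Finset.card_univ, Fintype.card_fin]
    have : N.card ≤ d + 1 := by
      have := Finset.card_le_univ N
      rwa [Fintype.card_fin] at this
    rw [Nat.cast_sub this]
    push_cast
    ring
  rw [hcard] at hsum
  have hgain : (N.card : ℝ) * F ≤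
      σ * ∑ i ∈ Finset.univ \ N, (Real.log h₀ - Real.log (h i)) := by
    have hc : (0 : ℝ) ≤ N.card := by positivity
    calc (N.card : ℝ) * F ≤ (27 * F) * ((N.card : ℝ) * (9 / 70)) := by
          have : 0 ≤ (N.card : ℝ) * F := by positivity
          nlinarith
      _ ≤ σ * ((N.card : ℝ) * (9 / 70)) := by gcongr
      _ ≤ _ := by gcongr
  nlinarith [hsum, hgain]

end HCap
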