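import Pool.Agent.HCap.Targets

/-!
# HCap: two overlapping caps (target OVL)
-/

set_option autoImplicit false

open MeasureTheory Set

namespace HCap

open BallSimp

namespace OVL_

lemma cs_le_one {d : ℕ} (z : Fin (d + 1) → EE d) (i j : Fin (d + 1)) (hi : z i ≠ 0)
    (hj : z j ≠ 0) : cs z i j ≤ 1 := by
  unfold cs
  have h1 : 0 < ‖z i‖ := norm_pos_iff.mpr hi
  have h2 : 0 < ‖z j‖ := norm_pos_iff.mpr hj
  rw [div_le_one (by positivity)]
  exact real_inner_le_norm _ _

/-- the unit functional -/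
noncomputable def un {d : ℕ} (z : Fin (d + 1) → EE d) (i : Fin (d + 1)) : EE d :=
  (‖z i‖⁻¹) • z i

lemma un_ht {d : ℕ} {z : Fin (d + 1) → EE d} {s : Fin (d + 1) → ℝ} {t : ℝ} {i : Fin (d + 1)}
    {x : EE d} (hi : z i ≠ 0) (hx : x ∈ cp z s t i) : ht z s i < inner ℝ (un z i) x := by
  have h1 : 0 < ‖z i‖ := norm_pos_iff.mpr hi
  have h2 : s i < inner ℝ (z i) x := hx.2
  unfold ht un
  rw [inner_smul_left]
  simp only [conj_trivial]
  rw [div_eq_inv_mul]
  exact mul_lt_mul_of_pos_left h2 (by positivity)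

lemma un_norm {d : ℕ} {z : Fin (d + 1) → EE d} {i : Fin (d + 1)} (hi : z i ≠ 0) :
    ‖un z i‖ = 1 := by
  have h1 : 0 < ‖z i‖ := norm_pos_iff.mpr hi
  unfold un
  rw [norm_smul, norm_inv, norm_norm]
  field_simp

lemma un_inner {d : ℕ} {z : Fin (d + 1) → EE d} {i j : Fin (d + 1)} :
    inner ℝ (un z i) (un z j) = cs z i j := by
  unfold un cs
  rw [inner_smul_left, inner_smul_right]
  simp only [conj_trivial]
  rw [div_eq_mul_inv, mul_inv]
  ring

end OVL_

open OVL_ in
theorem p_OVL : T_OVL := by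
  intro d z s t i j x ht0 hzi hzj hsi hsj hxi hxj
  have hcs := cs_le_one z i j hzi hzj
  refine ⟨?_, hcs, ?_⟩
  · have hti : 0 < ht z s i := div_pos hsi (norm_pos_iff.mpr hzi)
    have htj : 0 < ht z s j := div_pos hsj (norm_pos_iff.mpr hzj)
    have h1 := un_ht hzi hxi
    have h2 := un_ht hzj hxj
    have hxt : ‖x‖ ≤ t := by
      have := hxi.1
      rwa [mem_closedBall_zero_iff] at this
    have h3 : inner ℝ (un z i + un z j) x ≤ ‖un z i + un z j‖ * ‖x‖ := real_inner_le_norm _ _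
    rw [inner_add_left] at h3
    have h4 : ‖un z i + un z j‖ ^ 2 = 2 + 2 * cs z i j := by
      rw [norm_add_sq_real, un_norm hzi, un_norm hzj, un_inner]
      ring
    have h5 : ht z s i + ht z s j ≤ ‖un z i + un z j‖ * t := by
      have : ‖un z i + un z j‖ * ‖x‖ ≤ ‖un z i + un z j‖ * t :=
        mul_le_mul_of_nonneg_left hxt (norm_nonneg _)
      linarith
    have h6 : (ht z s i + ht z s j) ^ 2 ≤ (‖un z i + un z j‖ * t) ^ 2 :=
      pow_le_pow_left₀ (by linarith) h5 2
    rw [mul_pow, h4] at h6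
    have h7 : 2 * (ht z s i * ht z s j) / t ^ 2 ≤ 1 + cs z i j := by
      rw [div_le_iff₀ (by positivity)]
      nlinarith [sq_nonneg (ht z s i - ht z s j)]
    linarith
  · unfold ep
    rw [le_div_iff₀ (by positivity)]
    nlinarith

end HCap
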