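import Pool.Agent.HCap.Targets

/-!
# HCap: REG, the regular simplex
-/

set_option autoImplicit false

namespace HCap

open BallSimp MeasureTheory Set

namespace REG_

variable {d : ℕ} {w z : Fin (d + 1) → EE d} {s : Fin (d + 1) → ℝ} {α : ℝ}

theorem key (hα : 0 < α) (hw : Reg w α) (hD : Dual w z s) (i : Fin (d + 1)) (x : EE d) :
    s i - inner ℝ (z i) x = 1 / ((d : ℝ) + 1) + 1 / α * inner ℝ (w i) x := by
  obtain ⟨l, hl⟩ : ∃ l : Fin (d + 1) → ℝ, l = fun j => s j - inner ℝ (z j) x := ⟨_, rfl⟩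
  have h1 : ∑ j, l j = 1 := by
    rw [hl]
    simp only [Finset.sum_sub_distrib, hD.ss, ← sum_inner, hD.sz, inner_zero_left, sub_zero]
  have h2 : ∑ j, l j • w j = x := by
    rw [hl]
    exact hD.rep x
  have h3 : inner ℝ (w i) x = α * (l i - 1 / ((d : ℝ) + 1)) := by
    have e : inner ℝ (w i) x = ∑ j, l j * (α * ((if i = j then 1 else 0) - 1 / ((d : ℝ) + 1))) := by
      conv_lhs => rw [← h2]
      rw [inner_sum]
      refine Finset.sum_congr rfl fun j _ => ?_
      rw [inner_smul_right, hw i j]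
    have e2 : ∀ j, l j * (α * ((if i = j then (1 : ℝ) else 0) - 1 / ((d : ℝ) + 1))) =
        (if i = j then α * l j else 0) - l j * (α / ((d : ℝ) + 1)) := by
      intro j
      split_ifs <;> ring
    rw [e]
    simp only [e2, Finset.sum_sub_distrib, ← Finset.sum_mul, h1, Finset.sum_ite_eq,
      Finset.mem_univ, if_true]
    ring
  have h4 : s i - inner ℝ (z i) x = l i := by rw [hl]
  rw [h4, h3]
  field_simp
  ring

theorem s_eq (hα : 0 < α) (hw : Reg w α) (hD : Dual w z s) (i : Fin (d + 1)) :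
    s i = 1 / ((d : ℝ) + 1) := by
  have h := key hα hw hD i 0
  simpa using h

theorem z_eq (hα : 0 < α) (hw : Reg w α) (hD : Dual w z s) (i : Fin (d + 1)) :
    z i = (-(1 / α)) • w i := by
  rw [← sub_eq_zero, ← inner_self_eq_zero (𝕜 := ℝ)]
  have h : ∀ x : EE d, inner ℝ (z i - (-(1 / α)) • w i) x = 0 := by
    intro x
    have h1 := key hα hw hD i x
    rw [s_eq hα hw hD i] at h1
    rw [inner_sub_left, inner_smul_left]
    simp only [conj_trivial]
    linarith
  exact h _

theorem norm_sq (hw : Reg w α) (i : Fin (d + 1)) :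
    ‖w i‖ ^ 2 = α * d / ((d : ℝ) + 1) := by
  rw [← real_inner_self_eq_norm_sq, hw i i, if_pos rfl]
  have : (0 : ℝ) < (d : ℝ) + 1 := by positivity
  field_simp
  ring

end REG_

theorem p_REG (h_DUA : T_DUA) : T_REG := by
  intro d w α hd hα hw hdet
  obtain ⟨z, s, hD⟩ := h_DUA d w hd hdet
  have hd' : (0 : ℝ) < d := by exact_mod_cast hd
  have hn : ∀ i, ‖w i‖ = d * Real.sqrt (α / (d * (d + 1))) := by
    intro i
    have h0 : 0 ≤ (d : ℝ) * Real.sqrt (α / (d * (d + 1))) := by positivity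
    rw [← Real.sqrt_sq (norm_nonneg (w i)), REG_.norm_sq hw i, ← Real.sqrt_sq h0, mul_pow,
      Real.sq_sqrt (by positivity)]
    congr 1
    field_simp
  refine ⟨z, s, hD, fun i => ?_, fun i => ?_, hn⟩
  · rw [REG_.s_eq hα hw hD i]
    positivity
  · unfold ht
    rw [REG_.s_eq hα hw hD i, REG_.z_eq hα hw hD i, norm_smul, hn i, norm_neg, Real.norm_eq_abs,
      abs_of_pos (by positivity)]
    have h1 : 0 < Real.sqrt (α / (d * (d + 1))) := Real.sqrt_pos.2 (by positivity)
    have h2 : Real.sqrt (α / (d * (d + 1))) ^ 2 = α / (d * (d + 1)) :=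
      Real.sq_sqrt (by positivity)
    rw [div_eq_iff (by positivity)]
    have h3 : Real.sqrt (α / (d * (d + 1))) * (1 / α * (d * Real.sqrt (α / (d * (d + 1))))) =
        1 / α * d * Real.sqrt (α / (d * (d + 1))) ^ 2 := by ring
    rw [h3, h2]
    field_simp

end HCap
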