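import Pool.Agent.HCap.Targets

/-! SLI: radial integral of a power, closed form -/

set_option autoImplicit false

open MeasureTheory Set

namespace HCap

open BallSimp

namespace SLI_

/-- the primitive -/
noncomputable def F (m : ℕ) (b y : ℝ) : ℝ := y ^ m * (b - y ^ 2) ^ (-((m : ℝ) / 2)) / (m * b)

/-- the integrand -/
noncomputable def G (m : ℕ) (b y : ℝ) : ℝ := (b - y ^ 2) ^ (-((m : ℝ) + 2) / 2)

lemma pos {b s y : ℝ} (hs : 0 ≤ s) (hb : s ^ 2 < b) (h0 : 0 ≤ y) (h : y ≤ s) : 0 < b - y ^ 2 := by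
  nlinarith

lemma deriv_F {m : ℕ} {b y : ℝ} (hm : 0 < m) (hb : 0 < b) (hy : 0 < b - y ^ 2) :
    HasDerivAt (F m b) (y ^ (m - 1) * G m b y) y := by
  have h1 : HasDerivAt (fun y : ℝ => b - y ^ 2) (-(2 * y)) y := by
    have := (hasDerivAt_pow 2 y).const_sub b
    simpa using this
  have h2 := h1.rpow_const (p := -((m : ℝ) / 2)) (Or.inl hy.ne')
  have h3 := ((hasDerivAt_pow m y).mul h2).div_const ((m : ℝ) * b)
  unfold F
  refine h3.congr_deriv ?_
  have hm' : (0 : ℝ) < m := by exact_mod_cast hm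
  have e1 : (b - y ^ 2) ^ (-((m : ℝ) / 2)) =
      (b - y ^ 2) * (b - y ^ 2) ^ (-((m : ℝ) / 2) - 1) := by
    rw [Real.rpow_sub_one hy.ne']
    field_simp
  have e2 : G m b y = (b - y ^ 2) ^ (-((m : ℝ) / 2) - 1) := by
    unfold G
    congr 1
    ring
  have e3 : y ^ m = y ^ (m - 1) * y := by
    rw [← pow_succ]
    congr 1
    omega
  rw [e1, e2, e3]
  set P := (b - y ^ 2) ^ (-((m : ℝ) / 2) - 1)
  field_simp
  ring

lemma G_cont {m : ℕ} {b s : ℝ} (hs : 0 ≤ s) (hb : s ^ 2 < b) :
    ContinuousOn (G m b) (Icc 0 s) := by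
  unfold G
  refine ContinuousOn.rpow_const (by fun_prop) fun y hy => Or.inl ?_
  exact (pos hs hb hy.1 hy.2).ne'

lemma int_one {m : ℕ} {b s : ℝ} (hm : 0 < m) (hs : 0 ≤ s) (hb : s ^ 2 < b) :
    ∫ y in (0 : ℝ)..s, y ^ (m - 1) * G m b y = F m b s := by
  have hb0 : 0 < b := lt_of_le_of_lt (sq_nonneg s) hb
  have h := intervalIntegral.integral_eq_sub_of_hasDerivAt (f := F m b)
    (f' := fun y => y ^ (m - 1) * G m b y) (a := 0) (b := s) (fun y hy => ?_) ?_
  · rw [h]
    have : F m b 0 = 0 := by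
      unfold F
      rw [zero_pow hm.ne', zero_mul, zero_div]
    rw [this, sub_zero]
  · rw [uIcc_of_le hs] at hy
    exact deriv_F hm hb0 (pos hs hb hy.1 hy.2)
  · refine ContinuousOn.intervalIntegrable ?_
    rw [uIcc_of_le hs]
    exact (continuous_pow (m - 1)).continuousOn.mul (G_cont hs hb)

end SLI_

open SLI_ in
/-- radial integral of a power -/
theorem p_SLI : T_SLI := by
  intro m b s hm hs hb
  have hb0 : 0 < b := lt_of_le_of_lt (sq_nonneg s) hb
  have hm' : (0 : ℝ) < m := by exact_mod_cast hm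
  have : Nontrivial (EE m) := by
    have : Nonempty (Fin m) := ⟨⟨0, hm⟩⟩
    infer_instance
  have hc : ContinuousOn (fun y : EE m => G m b ‖y‖) (Metric.closedBall 0 s) := by
    refine (G_cont hs hb).comp continuous_norm.continuousOn fun y hy => ?_
    exact ⟨norm_nonneg y, mem_closedBall_zero_iff.1 hy⟩
  have hi : Integrable (fun y : EE m => G m b ‖y‖)
      (volume.restrict (Metric.closedBall (0 : EE m) s)) :=
    hc.integrableOn_compact (isCompact_closedBall _ _)
  have hnn : 0 ≤ᵐ[volume.restrict (Metric.closedBall (0 : EE m) s)]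
      fun y : EE m => G m b ‖y‖ := by
    refine (ae_restrict_iff' measurableSet_closedBall).2 (Filter.Eventually.of_forall ?_)
    intro y hy
    exact Real.rpow_nonneg (pos hs hb (norm_nonneg y) (mem_closedBall_zero_iff.1 hy)).le _
  have h1 := ofReal_integral_eq_lintegral_ofReal hi hnn
  have h2 : ∫ y in Metric.closedBall (0 : EE m) s, G m b ‖y‖ =
      ∫ y : EE m, (Iic s).indicator (G m b) ‖y‖ := by
    rw [← integral_indicator measurableSet_closedBall]
    congr 1
    funext y
    by_cases h : ‖y‖ ≤ s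
    · rw [indicator_of_mem (mem_closedBall_zero_iff.2 h), indicator_of_mem (mem_Iic.2 h)]
    · rw [indicator_of_notMem (fun h' => h (mem_closedBall_zero_iff.1 h')),
        indicator_of_notMem (fun h' => h (mem_Iic.1 h'))]
  have h3 := integral_fun_norm_addHaar (volume : Measure (EE m)) ((Iic s).indicator (G m b))
  have h4 : ∫ y in Ioi (0 : ℝ), y ^ (m - 1) • (Iic s).indicator (G m b) y = F m b s := by
    rw [← int_one hm hs hb, intervalIntegral.integral_of_le hs]
    have e1 : (fun y : ℝ => y ^ (m - 1) • (Iic s).indicator (G m b) y) =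
        (Iic s).indicator fun y => y ^ (m - 1) * G m b y := by
      funext y
      by_cases h : y ∈ Iic s
      · rw [indicator_of_mem h, indicator_of_mem h, smul_eq_mul]
      · rw [indicator_of_notMem h, indicator_of_notMem h, smul_zero]
    rw [e1, setIntegral_indicator measurableSet_Iic]
    rfl
  have h5 : Module.finrank ℝ (EE m) = m := by simp
  rw [h5, h4] at h3
  change ∫⁻ y in Metric.closedBall (0 : EE m) s, ENNReal.ofReal (G m b ‖y‖) = _
  rw [← h1, h2, h3]
  have h6 : volume (Metric.ball (0 : EE m) 1) =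
      ENNReal.ofReal ((volume : Measure (EE m)).real (Metric.ball (0 : EE m) 1)) := by
    rw [Measure.real, ENNReal.ofReal_toReal measure_ball_lt_top.ne]
  rw [h6, ← ENNReal.ofReal_mul measureReal_nonneg]
  congr 1
  rw [nsmul_eq_mul, smul_eq_mul]
  unfold F
  rw [Real.rpow_neg (by linarith)]
  have h7 : 0 < (b - s ^ 2) ^ ((m : ℝ) / 2) := Real.rpow_pos_of_pos (by linarith) _
  field_simp

end HCap
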