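import Pool.Agent.HCap.Targets

/-!
# HCap: one variable (target SLO)
-/

set_option autoImplicit false

open MeasureTheory Set

namespace HCap

open BallSimp

namespace SLO_

lemma fc_cont {d : ℕ} {t h : ℝ} (hd : 2 ≤ d) (ht1 : t < 1) (hh : 0 < h) :
    ContinuousOn (fun s => fc d t s) (Icc h t) := by
  unfold fc
  have hd' : (2 : ℝ) ≤ d := by exact_mod_cast hd
  refine ContinuousOn.div ?_ (by fun_prop) ?_
  · refine ContinuousOn.rpow_const (by fun_prop) ?_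
    intro s _
    exact Or.inr (by linarith)
  · intro s hs
    have h1 : s < 1 := lt_of_le_of_lt hs.2 ht1
    have h2 : 0 < s := lt_of_lt_of_le hh hs.1
    nlinarith

lemma der {d : ℕ} {t s : ℝ} (hs : 0 < s) (hst : s < t) :
    HasDerivAt (fun s => -((t ^ 2 - s ^ 2) ^ (((d : ℝ) + 1) / 2) / s))
      ((t ^ 2 - s ^ 2) ^ (((d : ℝ) - 1) / 2) * (((d : ℝ) + 1) + (t ^ 2 - s ^ 2) / s ^ 2)) s := by
  have hp : 0 < t ^ 2 - s ^ 2 := by nlinarith
  have h1 : HasDerivAt (fun s : ℝ => t ^ 2 - s ^ 2) (-(2 * s)) s := by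
    have := (hasDerivAt_pow 2 s).const_sub (t ^ 2)
    simpa using this
  have h2 := h1.rpow_const (p := ((d : ℝ) + 1) / 2) (Or.inl hp.ne')
  have h3 := (h2.div (hasDerivAt_id s) hs.ne').neg
  have e1 : ((d : ℝ) + 1) / 2 - 1 = ((d : ℝ) - 1) / 2 := by ring
  have e2 : (t ^ 2 - s ^ 2) ^ (((d : ℝ) + 1) / 2) =
      (t ^ 2 - s ^ 2) ^ (((d : ℝ) - 1) / 2) * (t ^ 2 - s ^ 2) := by
    rw [← e1, Real.rpow_sub_one hp.ne']
    field_simp
  have e3 : -((-(2 * s) * (((d : ℝ) + 1) / 2) * (t ^ 2 - s ^ 2) ^ (((d : ℝ) + 1) / 2 - 1) * id s -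
      (t ^ 2 - s ^ 2) ^ (((d : ℝ) + 1) / 2) * 1) / id s ^ 2) =
      (t ^ 2 - s ^ 2) ^ (((d : ℝ) - 1) / 2) * (((d : ℝ) + 1) + (t ^ 2 - s ^ 2) / s ^ 2) := by
    rw [e1, e2]
    simp only [id]
    field_simp
    ring
  rw [← e3]
  exact h3

end SLO_

open SLO_ in
theorem p_SLO : T_SLO := by
  intro d t h hd ht0 ht1 hh hht
  have hd' : (2 : ℝ) ≤ d := by exact_mod_cast hd
  have hU : ContinuousOn (fun s => -((t ^ 2 - s ^ 2) ^ (((d : ℝ) + 1) / 2) / s)) (Icc h t) := by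
    refine ContinuousOn.neg (ContinuousOn.div ?_ continuousOn_id ?_)
    · refine ContinuousOn.rpow_const (by fun_prop) ?_
      intro s _
      exact Or.inr (by linarith)
    · intro s hs
      exact (lt_of_lt_of_le hh hs.1).ne'
  have key := intervalIntegral.integral_le_sub_of_hasDeriv_right_of_le
    (g := fun s => -((t ^ 2 - s ^ 2) ^ (((d : ℝ) + 1) / 2) / s))
    (g' := fun s => (t ^ 2 - s ^ 2) ^ (((d : ℝ) - 1) / 2) *
      (((d : ℝ) + 1) + (t ^ 2 - s ^ 2) / s ^ 2))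
    (φ := fun s => ((d : ℝ) + 1) * (1 - t ^ 2) * fc d t s) hht hU
    (fun s hs => (der (lt_trans hh hs.1) hs.2).hasDerivWithinAt)
    ((continuousOn_const.mul (fc_cont hd ht1 hh)).integrableOn_Icc) ?_
  · rw [intervalIntegral.integral_const_mul] at key
    unfold cap
    refine key.trans (le_of_eq ?_)
    have e : (t ^ 2 - t ^ 2 : ℝ) ^ (((d : ℝ) + 1) / 2) = 0 := by
      rw [sub_self]
      exact Real.zero_rpow (by positivity)
    simp only [e]
    ring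
  · intro s hs
    have hs0 : 0 < s := lt_trans hh hs.1
    have hp : 0 < t ^ 2 - s ^ 2 := by nlinarith [hs.2]
    have h1s : 0 < 1 - s ^ 2 := by nlinarith
    unfold fc
    set P := (t ^ 2 - s ^ 2) ^ (((d : ℝ) - 1) / 2) with hP
    have hP0 : 0 < P := Real.rpow_pos_of_pos hp _
    have h2 : (1 - t ^ 2) * (P / (1 - s ^ 2)) ≤ P := by
      rw [← mul_div_assoc, div_le_iff₀ h1s]
      nlinarith
    have h3 : 0 ≤ P * ((t ^ 2 - s ^ 2) / s ^ 2) := by positivity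
    have h4 : 0 ≤ (d : ℝ) + 1 := by positivity
    calc ((d : ℝ) + 1) * (1 - t ^ 2) * (P / (1 - s ^ 2))
        = ((d : ℝ) + 1) * ((1 - t ^ 2) * (P / (1 - s ^ 2))) := by ring
      _ ≤ ((d : ℝ) + 1) * P := mul_le_mul_of_nonneg_left h2 h4
      _ ≤ P * (((d : ℝ) + 1) + (t ^ 2 - s ^ 2) / s ^ 2) := by
          rw [mul_add]
          linarith

end HCap
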