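import Pool.Agent.HCap.Targets

/-!
# HCap: the tangent line inequality in the variable `log h` (target TAN)
-/

set_option autoImplicit false

open MeasureTheory Set

namespace HCap

open BallSimp

namespace TAN_

theorem fc_cont (d : ℕ) (t : ℝ) (hd : 2 ≤ d) (ht1 : t < 1) :
    ContinuousOn (fc d t) (Icc 0 t) := by
  have hd2 : (2 : ℝ) ≤ d := by exact_mod_cast hd
  unfold fc
  refine ContinuousOn.div ?_ (by fun_prop) ?_
  · refine (Continuous.rpow_const (by fun_prop) fun x => Or.inr ?_).continuousOn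
    linarith
  · intro s hs
    have h1 : s < 1 := hs.2.trans_lt ht1
    have h2 : s ^ 2 < 1 := by nlinarith [hs.1]
    linarith

theorem XX_mono (t a b : ℝ) (ht : 0 < t) (ht1 : t < 1) (ha : 0 ≤ a) (hab : a ≤ b)
    (hb : b ≤ t) : XX t a ≤ XX t b := by
  have hb1 : b < 1 := hb.trans_lt ht1
  have ha1 : a < 1 := hab.trans_lt hb1
  have h1 : 0 < 1 - a ^ 2 := by nlinarith
  have h2 : 0 < 1 - b ^ 2 := by nlinarith
  have h3 : 0 < 1 - t ^ 2 := by nlinarith
  have h4 : a ^ 2 ≤ b ^ 2 := pow_le_pow_left₀ ha hab 2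
  have h5 : 0 < t ^ 2 := by positivity
  unfold XX
  rw [div_le_div_iff₀ (by positivity) (by positivity)]
  have h6 : a ^ 2 * (1 - b ^ 2) ≤ b ^ 2 * (1 - a ^ 2) := by nlinarith
  have h7 : 0 ≤ (1 - t ^ 2) * t ^ 2 := by positivity
  nlinarith [mul_le_mul_of_nonneg_left h6 h7]

end TAN_

open TAN_ in
/-- TAN. -/
theorem p_TAN (h_ANT : T_ANT) : T_TAN := by
  intro d t h₀ h hd ht ht1 h0 h0t hh hht hX0 hX
  have hc := fc_cont d t hd ht1
  have hsub : ∀ a b : ℝ, 0 < a → a ≤ t → 0 < b → b ≤ t → uIcc a b ⊆ Icc 0 t := by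
    intro a b ha hat hb hbt x hx
    rw [uIcc, mem_Icc] at hx
    exact ⟨(le_min ha.le hb.le).trans hx.1, hx.2.trans (max_le hat hbt)⟩
  have hii : ∀ a b : ℝ, 0 < a → a ≤ t → 0 < b → b ≤ t →
      IntervalIntegrable (fc d t) volume a b :=
    fun a b ha hat hb hbt => (hc.mono (hsub a b ha hat hb hbt)).intervalIntegrable
  have hadd : ∀ a b : ℝ, 0 < a → a ≤ t → 0 < b → b ≤ t →
      cap d t a = (∫ s in a..b, fc d t s) + cap d t b := fun a b ha hat hb hbt =>
    (intervalIntegral.integral_add_adjacent_intervals (hii a b ha hat hb hbt)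
      (hii b t hb hbt ht le_rfl)).symm
  have hlog : ∀ a b : ℝ, 0 < a → 0 < b → ∫ s in a..b, h₀ * fc d t h₀ * s⁻¹ =
      h₀ * fc d t h₀ * (Real.log b - Real.log a) := by
    intro a b ha hb
    rw [intervalIntegral.integral_const_mul, integral_inv_of_pos ha hb,
      Real.log_div hb.ne' ha.ne']
  have hinv : ∀ a b : ℝ, 0 < a → 0 < b →
      IntervalIntegrable (fun s => h₀ * fc d t h₀ * s⁻¹) volume a b := by
    intro a b ha hb
    refine (continuousOn_const.mul (continuousOn_id.inv₀ fun x hx => ?_)).intervalIntegrable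
    rw [uIcc, mem_Icc] at hx
    exact ((lt_min ha hb).trans_le hx.1).ne'
  rcases le_total h h₀ with hle | hle
  · have h1 := hadd h h₀ hh hht h0 h0t
    have h2 : ∫ s in h..h₀, h₀ * fc d t h₀ * s⁻¹ ≤ ∫ s in h..h₀, fc d t s := by
      refine intervalIntegral.integral_mono_on hle (hinv h h₀ hh h0)
        (hii h h₀ hh hht h0 h0t) ?_
      intro s hs
      have hs0 : 0 < s := hh.trans_le hs.1
      have h3 := h_ANT d t s h₀ hd ht ht1 hs0 hs.2 h0t
        (hX.trans (XX_mono t h s ht ht1 hh.le hs.1 (hs.2.trans h0t)))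
      rw [← div_eq_mul_inv, div_le_iff₀ hs0]
      linarith
    rw [hlog h h₀ hh h0] at h2
    rw [h1]
    linarith
  · have h1 := hadd h₀ h h0 h0t hh hht
    have h2 : ∫ s in h₀..h, fc d t s ≤ ∫ s in h₀..h, h₀ * fc d t h₀ * s⁻¹ := by
      refine intervalIntegral.integral_mono_on hle (hii h₀ h h0 h0t hh hht)
        (hinv h₀ h h0 hh) ?_
      intro s hs
      have hs0 : 0 < s := h0.trans_le hs.1
      have h3 := h_ANT d t h₀ s hd ht ht1 h0 hs.1 (hs.2.trans hht) hX0
      rw [← div_eq_mul_inv, le_div_iff₀ hs0]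
      linarith
    rw [hlog h₀ h h0 hh] at h2
    rw [h1]
    linarith

end HCap
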