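import Pool.Agent.HCap.Targets

/-!
# HCap: TH1, a low facet pays for everything
-/

set_option autoImplicit false

open MeasureTheory Set

namespace HCap

open BallSimp

namespace TH1_

theorem fc_cont {d : ℕ} (hd : 2 ≤ d) {t : ℝ} (ht1 : t < 1) : ContinuousOn (fc d t) (Icc 0 t) := by
  have hd' : (2 : ℝ) ≤ d := by exact_mod_cast hd
  refine ContinuousOn.div ?_ (by fun_prop) ?_
  · exact (Continuous.rpow_const (by fun_prop) fun x => Or.inr (by linarith)).continuousOn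
  · intro x hx
    have h1 := hx.1
    have h2 := hx.2
    nlinarith

theorem fc_nonneg {d : ℕ} {t s : ℝ} (ht1 : t < 1) (h0 : 0 ≤ s) (h1 : s ≤ t) : 0 ≤ fc d t s := by
  unfold fc
  have h2 : 0 ≤ t ^ 2 - s ^ 2 := by nlinarith
  have h3 : 0 ≤ 1 - s ^ 2 := by nlinarith
  positivity

theorem fc_int {d : ℕ} (hd : 2 ≤ d) {t a b : ℝ} (ht1 : t < 1) (ha : 0 ≤ a) (hab : a ≤ b)
    (hb : b ≤ t) : IntervalIntegrable (fc d t) volume a b := by
  refine ContinuousOn.intervalIntegrable ((fc_cont hd ht1).mono ?_)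
  rw [uIcc_of_le hab]
  exact Icc_subset_Icc ha hb

theorem cap_anti {d : ℕ} (hd : 2 ≤ d) {t a b : ℝ} (ht1 : t < 1) (ha : 0 ≤ a) (hab : a ≤ b)
    (hb : b ≤ t) : cap d t b ≤ cap d t a := by
  unfold cap
  have h1 := intervalIntegral.integral_add_adjacent_intervals (fc_int hd ht1 ha hab hb)
    (fc_int hd ht1 (ha.trans hab) hb le_rfl)
  have h2 : 0 ≤ ∫ s in a..b, fc d t s :=
    intervalIntegral.integral_nonneg hab fun s hs =>
      fc_nonneg ht1 (ha.trans hs.1) (hs.2.trans hb)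
  linarith

theorem cap_nonneg {d : ℕ} {t a : ℝ} (ht1 : t < 1) (ha : 0 ≤ a) (hat : a ≤ t) :
    0 ≤ cap d t a :=
  intervalIntegral.integral_nonneg hat fun s hs => fc_nonneg ht1 (ha.trans hs.1) hs.2

theorem num : ∀ n : ℕ, ((n : ℝ) + 3) ^ 2 ≤ (17 / 8 : ℝ) ^ (n + 3)
  | 0 => by norm_num
  | n + 1 => by
    have h1 := num n
    have h2 : (17 / 8 : ℝ) ^ (n + 1 + 3) = (17 / 8) ^ (n + 3) * (17 / 8) := by
      rw [← pow_succ]
    rw [h2]
    push_cast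
    have h3 : (0 : ℝ) ≤ n := Nat.cast_nonneg n
    nlinarith

theorem pw {d : ℕ} (hd : 2 ≤ d) : (d : ℝ) + 1 ≤ (17 / 8 : ℝ) ^ (((d : ℝ) + 1) / 2) := by
  obtain ⟨n, rfl⟩ := Nat.exists_eq_add_of_le hd
  apply le_of_sq_le_sq _ (by positivity)
  have h1 : ((17 / 8 : ℝ) ^ ((((2 + n : ℕ) : ℝ) + 1) / 2)) ^ 2 = (17 / 8 : ℝ) ^ (n + 3) := by
    rw [← Real.rpow_natCast, ← Real.rpow_mul (by norm_num), ← Real.rpow_natCast]
    congr 1
    push_cast
    ring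
  rw [h1]
  have h2 := num n
  push_cast
  have h3 : (2 + (n : ℝ) + 1) ^ 2 = ((n : ℝ) + 3) ^ 2 := by ring
  rw [h3]
  exact h2

end TH1_

open TH1_ in
/-- TH1. -/
theorem p_TH1 (h_GRO : T_GRO) : T_TH1 := by
  intro d t h h₀ hd ht ht1 hh hh₀ hh₀t hX h8
  have hd' : (2 : ℝ) ≤ d := by exact_mod_cast hd
  obtain ⟨h₁, hh₁⟩ : ∃ h₁ : ℝ, h₁ = √(7 / 8) * h₀ := ⟨_, rfl⟩
  have hs : √(7 / 8 : ℝ) ^ 2 = 7 / 8 := Real.sq_sqrt (by norm_num)
  have hs0 : 0 < √(7 / 8 : ℝ) := Real.sqrt_pos.2 (by norm_num)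
  have h1sq : h₁ ^ 2 = 7 / 8 * h₀ ^ 2 := by rw [hh₁, mul_pow, hs]
  have h1pos : 0 < h₁ := by rw [hh₁]; positivity
  have h1le : h₁ ≤ h₀ := by
    apply le_of_sq_le_sq _ hh₀.le
    rw [h1sq]
    nlinarith [sq_nonneg h₀]
  have hle1 : h ≤ h₁ := by
    apply le_of_sq_le_sq _ h1pos.le
    rw [h1sq]
    linarith
  have hc1 : cap d t h₁ ≤ cap d t h := cap_anti hd ht1 hh hle1 (h1le.trans hh₀t)
  rcases hh₀t.lt_or_eq with hlt | heq
  · have hq : 0 < 1 - h₀ ^ 2 := by nlinarith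
    have hq1 : 0 < 1 - h₁ ^ 2 := by rw [h1sq]; nlinarith [sq_nonneg h₀]
    have htt : 0 < t ^ 2 := by positivity
    have h1t : 0 < 1 - t ^ 2 := by nlinarith
    have hX1 : XX t h₁ ≤ 7 / 8 * XX t h₀ := by
      have e1 : XX t h₁ = 7 / 8 * (h₀ ^ 2 * (1 - t ^ 2) / (t ^ 2 * (1 - h₁ ^ 2))) := by
        unfold XX
        rw [h1sq]
        ring
      rw [e1]
      refine mul_le_mul_of_nonneg_left ?_ (by norm_num)
      unfold XX
      refine div_le_div_of_nonneg_left (by positivity) (by positivity) ?_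
      refine mul_le_mul_of_nonneg_left ?_ htt.le
      rw [h1sq]
      nlinarith [sq_nonneg h₀]
    have hX0 : 0 < 1 - XX t h₀ := by
      have e1 : 1 - XX t h₀ = (t ^ 2 - h₀ ^ 2) / (t ^ 2 * (1 - h₀ ^ 2)) := by
        unfold XX
        field_simp
        ring
      rw [e1]
      have : 0 < t ^ 2 - h₀ ^ 2 := by nlinarith
      positivity
    have hg := h_GRO d t h₁ h₀ hd ht ht1 h1pos h1le hh₀t
    have hc0 : 0 ≤ cap d t h₀ := cap_nonneg ht1 hh₀.le hh₀t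
    have hk : 17 / 8 * (1 - XX t h₀) ≤ 1 - XX t h₁ := by linarith
    have hr : (17 / 8 * (1 - XX t h₀)) ^ (((d : ℝ) + 1) / 2) ≤
        (1 - XX t h₁) ^ (((d : ℝ) + 1) / 2) :=
      Real.rpow_le_rpow (by positivity) hk (by positivity)
    rw [Real.mul_rpow (by norm_num) hX0.le] at hr
    have hp : 0 < (1 - XX t h₀) ^ (((d : ℝ) + 1) / 2) := Real.rpow_pos_of_pos hX0 _
    have h2 := pw hd
    have h3 : ((17 / 8 : ℝ) ^ (((d : ℝ) + 1) / 2) * cap d t h₀) *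
        (1 - XX t h₀) ^ (((d : ℝ) + 1) / 2) ≤
        cap d t h₁ * (1 - XX t h₀) ^ (((d : ℝ) + 1) / 2) := by
      calc _ = ((17 / 8 : ℝ) ^ (((d : ℝ) + 1) / 2) * (1 - XX t h₀) ^ (((d : ℝ) + 1) / 2)) *
            cap d t h₀ := by ring
        _ ≤ (1 - XX t h₁) ^ (((d : ℝ) + 1) / 2) * cap d t h₀ :=
          mul_le_mul_of_nonneg_right hr hc0
        _ ≤ (1 - XX t h₀) ^ (((d : ℝ) + 1) / 2) * cap d t h₁ := hg
        _ = _ := by ring
    have h4 := le_of_mul_le_mul_right h3 hp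
    exact (mul_le_mul_of_nonneg_right h2 hc0).trans (h4.trans hc1)
  · have hz : cap d t h₀ = 0 := by
      rw [heq]
      exact intervalIntegral.integral_same
    rw [hz, mul_zero]
    exact cap_nonneg ht1 hh (hle1.trans (h1le.trans hh₀t))

end HCap
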