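import Pool.Agent.HCap.Targets

/-!
# HCap, job TH2: numerics
-/

set_option autoImplicit false

open MeasureTheory Set

namespace HCap

open BallSimp

namespace TH2_

theorem fc_cont {d : ℕ} (hd : 2 ≤ d) {t : ℝ} (ht1 : t < 1) :
    ContinuousOn (fc d t) (Icc 0 t) := by
  have hd2 : (2 : ℝ) ≤ d := by exact_mod_cast hd
  have h1 : Continuous fun s : ℝ => (t ^ 2 - s ^ 2) ^ (((d : ℝ) - 1) / 2) := by
    apply Continuous.rpow_const (by fun_prop)
    intro s
    right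
    linarith
  refine h1.continuousOn.div (by fun_prop) ?_
  intro s hs h
  have h2 : s ^ 2 < 1 := by nlinarith [hs.1, hs.2]
  linarith

theorem fc_nonneg {d : ℕ} {t s : ℝ} (ht1 : t < 1) (h0 : 0 ≤ s) (hs : s ≤ t) :
    0 ≤ fc d t s := by
  unfold fc
  apply div_nonneg
  · apply Real.rpow_nonneg
    nlinarith
  · nlinarith

theorem cap_anti {d : ℕ} (hd : 2 ≤ d) {t h h' : ℝ} (ht1 : t < 1) (h0 : 0 ≤ h) (hh : h ≤ h')
    (ht : h' ≤ t) : cap d t h' ≤ cap d t h := by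
  have hc := fc_cont hd ht1
  have i1 : IntervalIntegrable (fc d t) volume h h' := by
    apply ContinuousOn.intervalIntegrable_of_Icc hh
    exact hc.mono (Icc_subset_Icc h0 ht)
  have i2 : IntervalIntegrable (fc d t) volume h' t := by
    apply ContinuousOn.intervalIntegrable_of_Icc ht
    exact hc.mono (Icc_subset_Icc (h0.trans hh) le_rfl)
  have e := intervalIntegral.integral_add_adjacent_intervals i1 i2
  have hn : 0 ≤ ∫ s in h..h', fc d t s := by
    apply intervalIntegral.integral_nonneg hh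
    intro s hs
    exact fc_nonneg ht1 (h0.trans hs.1) (hs.2.trans ht)
  unfold cap
  linarith

theorem cap_nonneg {d : ℕ} {t h : ℝ} (ht1 : t < 1) (h0 : 0 ≤ h) (ht : h ≤ t) :
    0 ≤ cap d t h := by
  unfold cap
  apply intervalIntegral.integral_nonneg ht
  intro s hs
  exact fc_nonneg ht1 (h0.trans hs.1) hs.2

theorem XX_mono {t a b : ℝ} (ht : 0 < t) (ht1 : t < 1) (ha : 0 ≤ a) (hab : a ≤ b) (hb : b ≤ t) :
    XX t a ≤ XX t b := by
  unfold XX
  have ha2 : a ^ 2 < 1 := by nlinarith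
  have hb2 : b ^ 2 < 1 := by nlinarith
  have hab2 : a ^ 2 ≤ b ^ 2 := by nlinarith
  have ht2 : 0 < 1 - t ^ 2 := by nlinarith
  have htt : 0 < t ^ 2 := by positivity
  rw [div_le_div_iff₀ (mul_pos htt (by linarith)) (mul_pos htt (by linarith))]
  have h1 : a ^ 2 * (1 - b ^ 2) ≤ b ^ 2 * (1 - a ^ 2) := by nlinarith
  have h2 : 0 ≤ (1 - t ^ 2) * t ^ 2 := by positivity
  nlinarith [mul_le_mul_of_nonneg_left h1 h2]

theorem pow_num (n : ℕ) (hn : 5 ≤ n) : (n : ℝ) ^ 2 ≤ (9 / 4 : ℝ) ^ n := by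
  induction n, hn using Nat.le_induction with
  | base => norm_num
  | succ n hn ih =>
    have h5 : (5 : ℝ) ≤ n := by exact_mod_cast hn
    have h6 : (9 / 4 : ℝ) ^ (n + 1) = (9 / 4) ^ n * (9 / 4) := pow_succ _ _
    rw [h6]
    push_cast
    nlinarith

theorem num {d : ℕ} (hd : 3 ≤ d) :
    ((d : ℝ) + 1) ≤ (3 * (1 - 1 / (d : ℝ))) ^ (((d : ℝ) + 1) / 2) := by
  have hd3 : (3 : ℝ) ≤ d := by exact_mod_cast hd
  have hy : 0 ≤ 3 * (1 - 1 / (d : ℝ)) := by
    have : 1 / (d : ℝ) ≤ 1 := by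
      rw [div_le_one (by linarith)]; linarith
    linarith
  have key : ((d : ℝ) + 1) ^ 2 ≤ (3 * (1 - 1 / (d : ℝ))) ^ (d + 1) := by
    rcases Nat.lt_or_ge d 4 with h | h
    · have : d = 3 := by omega
      subst this
      norm_num
    · have h4 : (4 : ℝ) ≤ d := by exact_mod_cast h
      have h1 : (9 / 4 : ℝ) ≤ 3 * (1 - 1 / (d : ℝ)) := by
        have : 1 / (d : ℝ) ≤ 1 / 4 := one_div_le_one_div_of_le (by norm_num) h4
        linarith
      have h2 := pow_num (d + 1) (by omega)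
      push_cast at h2
      exact h2.trans (pow_le_pow_left₀ (by norm_num) h1 _)
  have e : (3 * (1 - 1 / (d : ℝ))) ^ (((d : ℝ) + 1) / 2) =
      Real.sqrt ((3 * (1 - 1 / (d : ℝ))) ^ (d + 1)) := by
    rw [Real.sqrt_eq_rpow, ← Real.rpow_natCast, ← Real.rpow_mul hy]
    congr 1
    push_cast
    ring
  rw [e]
  apply Real.le_sqrt_of_sq_le
  exact key

theorem pos_case (h_GRO : T_GRO) {d : ℕ} {t h h₀ : ℝ} (hd : 3 ≤ d) (ht : 0 < t) (ht1 : t < 1)
    (hh : 0 < h) (hht : h ≤ t) (_ : 0 < h₀) (hh₀ : h₀ ≤ t) (hX₀ : 2 / 3 ≤ XX t h₀)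
    (hX : XX t h ≤ 1 / (d : ℝ)) : ((d : ℝ) + 1) * cap d t h₀ ≤ cap d t h := by
  have hd3 : (3 : ℝ) ≤ d := by exact_mod_cast hd
  have hd1 : 1 / (d : ℝ) ≤ 1 / 3 := one_div_le_one_div_of_le (by norm_num) hd3
  have hle : h ≤ h₀ := by
    by_contra hc
    rw [not_le] at hc
    have := XX_mono ht ht1 (by linarith) hc.le hht
    linarith
  have hB0 : 0 ≤ 1 - XX t h₀ := by
    have := XX_mono ht ht1 (by linarith) hh₀ le_rfl
    have h1 : XX t t = 1 := by
      unfold XX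
      have : 0 < 1 - t ^ 2 := by nlinarith
      field_simp
    linarith
  have hg := h_GRO d t h h₀ (by omega) ht ht1 hh hle hh₀
  set e : ℝ := ((d : ℝ) + 1) / 2 with he
  have he0 : 0 ≤ e := by rw [he]; linarith
  have hc0 := cap_nonneg (d := d) ht1 (by linarith) hh₀
  have hc := cap_nonneg (d := d) ht1 hh.le hht
  have hA : 0 < 1 - XX t h := by linarith
  have h1 : (1 - XX t h₀) ^ e ≤ (1 / 3 : ℝ) ^ e :=
    Real.rpow_le_rpow hB0 (by linarith) he0
  have h2 : (1 - 1 / (d : ℝ)) ^ e ≤ (1 - XX t h) ^ e :=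
    Real.rpow_le_rpow (by linarith) (by linarith) he0
  have h3 : ((d : ℝ) + 1) * (1 / 3 : ℝ) ^ e ≤ (1 - 1 / (d : ℝ)) ^ e := by
    have h4 := num hd
    rw [← he, Real.mul_rpow (by norm_num) (by linarith)] at h4
    have h5 : (3 : ℝ) ^ e * (1 / 3 : ℝ) ^ e = 1 := by
      rw [← Real.mul_rpow (by norm_num) (by norm_num)]
      norm_num
    have h6 : 0 ≤ (1 / 3 : ℝ) ^ e := by positivity
    calc ((d : ℝ) + 1) * (1 / 3 : ℝ) ^ e
        ≤ (3 ^ e * (1 - 1 / (d : ℝ)) ^ e) * (1 / 3 : ℝ) ^ e := mul_le_mul_of_nonneg_right h4 h6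
      _ = (3 ^ e * (1 / 3 : ℝ) ^ e) * (1 - 1 / (d : ℝ)) ^ e := by ring
      _ = _ := by rw [h5, one_mul]
  have h7 : ((d : ℝ) + 1) * (1 - XX t h₀) ^ e ≤ (1 - XX t h) ^ e := by
    have : ((d : ℝ) + 1) * (1 - XX t h₀) ^ e ≤ ((d : ℝ) + 1) * (1 / 3 : ℝ) ^ e :=
      mul_le_mul_of_nonneg_left h1 (by linarith)
    linarith
  have hBe : 0 ≤ (1 - XX t h₀) ^ e := Real.rpow_nonneg hB0 _
  have hAe : 0 < (1 - XX t h) ^ e := Real.rpow_pos_of_pos hA _
  rcases hBe.eq_or_lt with hz | hz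
  · rw [← hz, zero_mul] at hg
    have : cap d t h₀ ≤ 0 := by
      by_contra hc1
      rw [not_le] at hc1
      have := mul_pos hAe hc1
      linarith
    have h8 : cap d t h₀ = 0 := le_antisymm this hc0
    rw [h8, mul_zero]
    exact hc
  · have h8 : (1 - XX t h₀) ^ e * (((d : ℝ) + 1) * cap d t h₀) ≤
        (1 - XX t h₀) ^ e * cap d t h := by
      calc (1 - XX t h₀) ^ e * (((d : ℝ) + 1) * cap d t h₀)
          = (((d : ℝ) + 1) * (1 - XX t h₀) ^ e) * cap d t h₀ := by ring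
        _ ≤ (1 - XX t h) ^ e * cap d t h₀ := mul_le_mul_of_nonneg_right h7 hc0
        _ ≤ _ := hg
    exact le_of_mul_le_mul_left h8 hz

end TH2_

open TH2_ in
theorem p_TH2 (h_GRO : T_GRO) : T_TH2 := by
  intro d t h h₀ hd ht ht1 hh hht h0 hh₀ hX₀ hX
  rcases hh.eq_or_lt with hz | hz
  · have hd3 : (3 : ℝ) ≤ d := by exact_mod_cast hd
    have hs : 0 < Real.sqrt d := Real.sqrt_pos.2 (by linarith)
    have hs1 : 1 ≤ Real.sqrt d := by
      rw [Real.one_le_sqrt]; linarith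
    have hs2 : Real.sqrt d ^ 2 = d := Real.sq_sqrt (by linarith)
    have h1 : t / Real.sqrt d ≤ t := div_le_self ht.le hs1
    have h2 : 0 < t / Real.sqrt d := by positivity
    have h3 : XX t (t / Real.sqrt d) ≤ 1 / (d : ℝ) := by
      unfold XX
      have e : (t / Real.sqrt d) ^ 2 = t ^ 2 / d := by rw [div_pow, hs2]
      rw [e]
      have h4 : t ^ 2 / (d : ℝ) ≤ t ^ 2 := div_le_self (by positivity) (by linarith)
      have h5 : 0 < 1 - t ^ 2 := by nlinarith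
      rw [div_le_div_iff₀ (mul_pos (by positivity) (by linarith)) (by linarith)]
      have h6 : t ^ 2 / (d : ℝ) * (1 - t ^ 2) * d = t ^ 2 * (1 - t ^ 2) := by
        field_simp
      rw [h6]
      have h7 : 0 < t ^ 2 := by positivity
      nlinarith
    have h4 := pos_case h_GRO hd ht ht1 h2 h1 h0 hh₀ hX₀ h3
    have h5 := cap_anti (d := d) (by omega) ht1 hh (by rw [← hz]; exact h2.le) h1
    exact h4.trans h5
  · exact pos_case h_GRO hd ht ht1 hz hht h0 hh₀ hX₀ hX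

end HCap
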