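import Pool.Agent.HCap.Targets

/-!
# HCap: TRD
-/

set_option autoImplicit false

open MeasureTheory Set

namespace HCap

open BallSimp

/-- a forward vector is a positive multiple of the lift of its projection -/
lemma TRD_smul_lft {d : ℕ} {X : ℝ × EE d} (hX : Fwd X) : X = X.1 • lft (prj X) := by
  rw [lft_prj hX, smul_smul, mul_inv_cancel₀ hX.1.ne', one_smul]

theorem p_TRD : T_TRD := by
  intro d n v c R hn hv hc hD l hl hx i j hij
  have hB := hx
  set x : EE d := ∑ i, l i • tr n (v i) with hxdef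
  obtain ⟨hx1, hx2⟩ := hB
  let F : Fin (d + 1) → ℝ × EE d := fun i => rfl' (lor d) n (lft (tr n (v i)))
  have hF : ∀ i, Fwd (F i) := fun i => fwd_refl hn (fwd_lft (tr_norm hn (hv i)))
  have hFe : ∀ i, F i = (F i).1 • lft (v i) := by
    intro i
    have h1 := TRD_smul_lft (hF i)
    have h2 : prj (F i) = v i := tr_tr hn (hv i)
    rw [h2] at h1
    exact h1
  have hX : Fwd (rfl' (lor d) n (lft x)) := fwd_refl hn (fwd_lft hx1)
  have hlx : lft x = ∑ i, l i • lft (tr n (v i)) := by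
    ext1
    · rw [Prod.fst_sum]
      simp only [lft, Prod.smul_fst, smul_eq_mul, mul_one, hl]
    · rw [Prod.snd_sum]
      simp only [lft, Prod.smul_snd]
      exact hxdef
  have hsum : rfl' (lor d) n (lft x) = ∑ i, (l i * (F i).1) • lft (v i) := by
    rw [hlx, map_sum]
    refine Finset.sum_congr rfl fun i _ => ?_
    rw [map_smul, mul_smul, ← hFe i]
  set m : ℝ := (rfl' (lor d) n (lft x)).1 with hm
  have hm0 : 0 < m := hX.1
  have hm1 : m = ∑ i, l i * (F i).1 := by
    rw [hm, hsum, Prod.fst_sum]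
    simp only [lft, Prod.smul_fst, smul_eq_mul, mul_one]
  have hy : ∑ i, (m⁻¹ * (l i * (F i).1)) • v i = tr n x := by
    have : tr n x = m⁻¹ • (rfl' (lor d) n (lft x)).2 := rfl
    rw [this, hsum, Prod.snd_sum, Finset.smul_sum]
    refine Finset.sum_congr rfl fun i _ => ?_
    simp only [lft, Prod.smul_snd]
    rw [smul_smul]
  have h1 : ∑ i, m⁻¹ * (l i * (F i).1) = 1 := by
    rw [← Finset.mul_sum, ← hm1, inv_mul_cancel₀ hm0.ne']
  have h2 : ∑ i, (m⁻¹ * (l i * (F i).1)) • v i ∈ hB c R := by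
    rw [hy]
    refine ⟨tr_norm hn hx1, ?_⟩
    have h3 := chd_tr hn hx1 (tr_norm hn hc)
    rw [tr_tr hn hc] at h3
    rw [h3]
    exact hx2
  have key : ∀ k, 0 ≤ m⁻¹ * (l k * (F k).1) → 0 ≤ l k := by
    intro k hk
    have h4 : 0 ≤ l k * (F k).1 := nonneg_of_mul_nonneg_right hk (inv_pos.mpr hm0)
    exact nonneg_of_mul_nonneg_left h4 (hF k).1
  rcases hD _ h1 h2 i j hij with h | h
  · exact Or.inl (key i h)
  · exact Or.inr (key j h)

end HCap
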