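import Pool.Agent.HCap.Targets

/-!
# HCap: isometries preserve the volume of the intersection (target T_TRV)
-/

set_option autoImplicit false

open MeasureTheory Set

namespace HCap

open BallSimp

namespace TRV_

theorem one_ind {d : ℕ} (v : Fin (d + 1) → EE d) (hv : ∀ i, ‖v i‖ < 1) (c : EE d) (R : ℝ) :
    ∫⁻ x in convexHull ℝ (Set.range v), (Iic R).indicator (1 : ℝ → ENNReal) (chd c x) ∂(muK d) =
      muK d (hB c R ∩ convexHull ℝ (Set.range v)) := by
  rw [← lintegral_indicator (isClosed_hull v).measurableSet,
    ← lintegral_indicator_one ((meas_hB c R).inter (isClosed_hull v).measurableSet)]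
  congr 1
  funext x
  classical
  simp only [Set.indicator_apply, mem_Iic, mem_inter_iff, Pi.one_apply]
  by_cases h1 : x ∈ convexHull ℝ (Set.range v)
  · have h2 := mem_ball_zero_iff.mp (hull_sub v hv h1)
    simp [h1, hB, h2]
  · simp [h1]

end TRV_

open TRV_ in
theorem p_TRV : T_TRV := by
  intro d n v c R hn hv hc
  rw [← one_ind _ (fun i => tr_norm hn (hv i)), ← one_ind v hv,
    lint_tr hn v hv c hc _ (measurable_one.indicator measurableSet_Iic)]

end HCap
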