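import Pool.Agent.HCap.P_ANT
import Pool.Agent.HCap.P_CAP
import Pool.Agent.HCap.P_CE1
import Pool.Agent.HCap.P_CE2
import Pool.Agent.HCap.P_CE3
import Pool.Agent.HCap.P_CMP
import Pool.Agent.HCap.P_CPM
import Pool.Agent.HCap.P_DUA
import Pool.Agent.HCap.P_EUV
import Pool.Agent.HCap.P_FIN
import Pool.Agent.HCap.P_GMN
import Pool.Agent.HCap.P_GRO
import Pool.Agent.HCap.P_HAD
import Pool.Agent.HCap.P_HUL
import Pool.Agent.HCap.P_MEA
import Pool.Agent.HCap.P_NU2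
import Pool.Agent.HCap.P_NUM
import Pool.Agent.HCap.P_OVL
import Pool.Agent.HCap.P_REG
import Pool.Agent.HCap.P_SLI
import Pool.Agent.HCap.P_SLO
import Pool.Agent.HCap.P_TAN
import Pool.Agent.HCap.P_TH1
import Pool.Agent.HCap.P_TH2
import Pool.Agent.HCap.P_TRD
import Pool.Agent.HCap.P_TRV

/-!
# HCap: assembly
-/

set_option autoImplicit false

namespace HCap

theorem hul : T_HUL := p_HUL
theorem dua : T_DUA := p_DUA
theorem reg : T_REG := p_REG dua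
theorem gmn : T_GMN := p_GMN p_HAD
theorem cpm : T_CPM := p_CPM (p_CAP p_SLI)
theorem cmp : T_CMP := p_CMP cpm (p_MEA hul) reg
theorem tan : T_TAN := p_TAN p_ANT
theorem gro : T_GRO := p_GRO p_SLO
theorem ce1 : T_CE1 := p_CE1 dua p_EUV gmn p_OVL cmp (p_TH1 gro) (p_NUM tan p_SLO) reg hul
theorem ce2 : T_CE2 := p_CE2 dua p_EUV gmn cmp (p_TH2 gro) (p_NU2 tan) reg hul
theorem ce3 : T_CE3 := p_CE3 dua p_EUV gmn cmp (p_NU2 tan) reg hul
theorem fin : T_FIN := p_FIN ce1 ce2 ce3 p_TRV p_TRD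

end HCap
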