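import Pool.Agent.BallSimp.HypMain

/-!
# HCap: definitions (MP_034d00_gt, hyperbolic space, a window of radii)

Klein model, ball centred at the origin: `muK d` is the hyperbolic volume, the ball of radius `r` is
the Euclidean ball of radius `t = tanh r`. `v` are the vertices of the simplex, `s i - ⟪z i, x⟫` its
barycentric coordinates, `ht z s i = s i / ‖z i‖` the Euclidean distance of the origin to the
hyperplane of the facet `i`, `cap d t h` is (up to a constant) the hyperbolic volume of the part of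
the ball beyond a hyperplane at Euclidean distance `h`, and
`XX t h = (sinh ρ / sinh r)²`, `h = tanh ρ`, `t = tanh r`.
-/

set_option autoImplicit false

open MeasureTheory Set

namespace HCap

open BallSimp

/-- the matrix of the functionals `z 1, …, z d` -/
noncomputable def zm {d : ℕ} (z : Fin (d + 1) → EE d) : Matrix (Fin d) (Fin d) ℝ :=
  Matrix.of fun k i => z k.succ i

/-- `x ↦ s i - ⟪z i, x⟫` is the `i`-th barycentric coordinate with respect to `v` -/
structure Dual {d : ℕ} (v z : Fin (d + 1) → EE d) (s : Fin (d + 1) → ℝ) : Prop where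
  sz : ∑ i, z i = 0
  ss : ∑ i, s i = 1
  hz : ∀ i, z i ≠ 0
  rep : ∀ x, ∑ i, (s i - inner ℝ (z i) x) • v i = x
  uniq : ∀ l : Fin (d + 1) → ℝ, ∑ i, l i = 1 →
    ∀ i, l i = s i - inner ℝ (z i) (∑ j, l j • v j)
  det : |(zm z).det| * |(mt v).det| = 1

/-- the cosine of the angle between two functionals -/
noncomputable def cs {d : ℕ} (z : Fin (d + 1) → EE d) (i j : Fin (d + 1)) : ℝ :=
  inner ℝ (z i) (z j) / (‖z i‖ * ‖z j‖)

/-- the distance of the origin to the hyperplane `⟪z i, x⟫ = s i` -/
noncomputable def ht {d : ℕ} (z : Fin (d + 1) → EE d) (s : Fin (d + 1) → ℝ) (i : Fin (d + 1)) : ℝ :=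
  s i / ‖z i‖

/-- the normalised correlation -/
noncomputable def ep {d : ℕ} (z : Fin (d + 1) → EE d) (i j : Fin (d + 1)) : ℝ :=
  ((d : ℝ) * cs z i j + 1) / ((d : ℝ) + 1)

/-- the part of the ball of radius `t` beyond the hyperplane `i` -/
def cp {d : ℕ} (z : Fin (d + 1) → EE d) (s : Fin (d + 1) → ℝ) (t : ℝ) (i : Fin (d + 1)) :
    Set (EE d) :=
  Metric.closedBall 0 t ∩ {x | s i < inner ℝ (z i) x}

/-- the density of the cap volume -/
noncomputable def fc (d : ℕ) (t s : ℝ) : ℝ := (t ^ 2 - s ^ 2) ^ (((d : ℝ) - 1) / 2) / (1 - s ^ 2)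

/-- the cap volume, up to a constant factor -/
noncomputable def cap (d : ℕ) (t h : ℝ) : ℝ := ∫ s in h..t, fc d t s

/-- the square of the ratio of the hyperbolic sines -/
noncomputable def XX (t h : ℝ) : ℝ := h ^ 2 * (1 - t ^ 2) / (t ^ 2 * (1 - h ^ 2))

end HCap
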