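import Pool.Agent.HCap.Targets

/-!
# HCap: ANT, one variable (MP_034d00_gt)
-/

set_option autoImplicit false

open MeasureTheory Set

namespace HCap

open BallSimp

/-- the polynomial inequality -/
theorem ANT_poly {d t x : ℝ} (hd : 2 ≤ d) (ht : t < 1) (hx : 0 < x) (hxt : x ≤ t)
    (h : 1 / d ≤ XX t x) :
    (t ^ 2 - x ^ 2) * (1 - x ^ 2) - (d - 1) * x ^ 2 * (1 - x ^ 2) +
      2 * x ^ 2 * (t ^ 2 - x ^ 2) ≤ 0 := by
  have h0t : 0 < t := lt_of_lt_of_le hx hxt
  have hx1 : x < 1 := lt_of_le_of_lt hxt ht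
  have h1 : 0 < 1 - x ^ 2 := by nlinarith
  have h2 : 0 < t ^ 2 * (1 - x ^ 2) := by positivity
  unfold XX at h
  rw [div_le_div_iff₀ (by linarith) h2] at h
  have h3 : 0 ≤ (d - 2) * x ^ 2 * (t ^ 2 - x ^ 2) := by
    have : 0 ≤ t ^ 2 - x ^ 2 := by nlinarith
    have hd2 : 0 ≤ d - 2 := by linarith
    positivity
  nlinarith

/-- `XX t` increases -/
theorem ANT_mono {t x y : ℝ} (ht : t < 1) (hx : 0 < x) (hxy : x ≤ y) (hy : y ≤ t) :
    XX t x ≤ XX t y := by
  have h0t : 0 < t := by linarith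
  have hy1 : y < 1 := lt_of_le_of_lt hy ht
  have h1 : 0 < 1 - x ^ 2 := by nlinarith
  have h2 : 0 < 1 - y ^ 2 := by nlinarith
  have h3 : 0 < t ^ 2 * (1 - x ^ 2) := by positivity
  have h4 : 0 < t ^ 2 * (1 - y ^ 2) := by positivity
  unfold XX
  rw [div_le_div_iff₀ h3 h4]
  have h5 : x ^ 2 ≤ y ^ 2 := by nlinarith
  have h6 : 0 ≤ 1 - t ^ 2 := by nlinarith
  have h7 : x ^ 2 * (1 - y ^ 2) ≤ y ^ 2 * (1 - x ^ 2) := by nlinarith
  have h8 : 0 ≤ (1 - t ^ 2) * t ^ 2 := by positivity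
  have := mul_le_mul_of_nonneg_right h7 h8
  nlinarith

/-- the derivative -/
theorem ANT_deriv (d : ℕ) {t x : ℝ} (ht : t < 1) (hx : 0 < x) (hxt : x < t) :
    HasDerivAt (fun h => h * fc d t h)
      ((t ^ 2 - x ^ 2) ^ (((d : ℝ) - 1) / 2 - 1) / (1 - x ^ 2) ^ 2 *
        ((t ^ 2 - x ^ 2) * (1 - x ^ 2) - ((d : ℝ) - 1) * x ^ 2 * (1 - x ^ 2) +
          2 * x ^ 2 * (t ^ 2 - x ^ 2))) x := by
  have hf : 0 < t ^ 2 - x ^ 2 := by nlinarith
  have hx1 : x < 1 := lt_trans hxt ht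
  have h1 : 0 < 1 - x ^ 2 := by nlinarith
  have d1 : HasDerivAt (fun y : ℝ => t ^ 2 - y ^ 2) (-(2 * x)) x := by
    have := (hasDerivAt_pow 2 x).const_sub (t ^ 2)
    simpa using this
  have d2 : HasDerivAt (fun y : ℝ => 1 - y ^ 2) (-(2 * x)) x := by
    have := (hasDerivAt_pow 2 x).const_sub 1
    simpa using this
  have d3 := d1.rpow_const (p := ((d : ℝ) - 1) / 2) (Or.inl hf.ne')
  have d4 := d3.div d2 h1.ne'
  have d5 := (hasDerivAt_id' x).mul d4
  have hp : (t ^ 2 - x ^ 2) ^ (((d : ℝ) - 1) / 2) =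
      (t ^ 2 - x ^ 2) ^ (((d : ℝ) - 1) / 2 - 1) * (t ^ 2 - x ^ 2) := by
    rw [← Real.rpow_add_one hf.ne']
    congr 1
    ring
  refine (d5.congr_deriv ?_)
  simp only [Pi.div_apply]
  rw [hp]
  field_simp
  ring

theorem p_ANT : T_ANT := by
  intro d t h₁ h₂ hd h0t ht hh1 h12 h2t hX
  have hd' : (2 : ℝ) ≤ d := by exact_mod_cast hd
  have hanti : AntitoneOn (fun h => h * fc d t h) (Icc h₁ h₂) := by
    refine antitoneOn_of_deriv_nonpos (convex_Icc _ _) ?_ ?_ ?_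
    · refine continuousOn_id.mul ?_
      unfold fc
      refine ContinuousOn.div ?_ ?_ ?_
      · refine ContinuousOn.rpow_const ?_ ?_
        · exact (continuous_const.sub (continuous_id.pow 2)).continuousOn
        · intro x _
          right
          linarith
      · exact (continuous_const.sub (continuous_id.pow 2)).continuousOn
      · intro x hx
        have : x ≤ t := hx.2.trans h2t
        have h0 : 0 < x := lt_of_lt_of_le hh1 hx.1
        nlinarith
    · rw [interior_Icc]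
      intro x hx
      exact (ANT_deriv d ht (lt_trans hh1 hx.1)
        (lt_of_lt_of_le hx.2 h2t)).differentiableAt.differentiableWithinAt
    · rw [interior_Icc]
      intro x hx
      have h0 : 0 < x := lt_trans hh1 hx.1
      have hxt : x < t := lt_of_lt_of_le hx.2 h2t
      rw [(ANT_deriv d ht h0 hxt).deriv]
      refine mul_nonpos_of_nonneg_of_nonpos ?_ ?_
      · have hf : 0 < t ^ 2 - x ^ 2 := by nlinarith
        positivity
      · exact ANT_poly hd' ht h0 hxt.le (hX.trans (ANT_mono ht hh1 hx.1.le hxt.le))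
  exact hanti ⟨le_rfl, h12⟩ ⟨h12, le_rfl⟩ h12

end HCap
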