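import Pool.Agent.HCap.Targets

/-!
# HCap: NU2, the sum of the tangent line inequalities
-/

set_option autoImplicit false

open MeasureTheory Set

namespace HCap

open BallSimp

namespace NU2_

lemma fc_nonneg {d : ℕ} {t h : ℝ} (hh : 0 < h) (hht : h ≤ t) (ht1 : t < 1) :
    0 ≤ fc d t h := by
  unfold fc
  apply div_nonneg
  · apply Real.rpow_nonneg
    nlinarith
  · nlinarith

end NU2_

/-- The target `T_NU2`. -/
theorem p_NU2 (h_TAN : T_TAN) : T_NU2 := by
  intro d t h₀ h hd ht0 ht1 hh0 hh0t hX0 hpos hX hsum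
  have hσ : 0 ≤ h₀ * fc d t h₀ := mul_nonneg hh0.le (NU2_.fc_nonneg hh0 hh0t ht1)
  have hi : ∀ i, cap d t h₀ + h₀ * fc d t h₀ * (Real.log h₀ - Real.log (h i)) ≤
      cap d t (min (h i) t) := by
    intro i
    have hm : 0 < min (h i) t := lt_min (hpos i) ht0
    have h1 := h_TAN d t h₀ (min (h i) t) hd ht0 ht1 hh0 hh0t hm (min_le_right _ _) hX0 (hX i)
    have h2 : Real.log (min (h i) t) ≤ Real.log (h i) := Real.log_le_log hm (min_le_left _ _)
    have h3 : h₀ * fc d t h₀ * (Real.log h₀ - Real.log (h i)) ≤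
        h₀ * fc d t h₀ * (Real.log h₀ - Real.log (min (h i) t)) :=
      mul_le_mul_of_nonneg_left (by linarith) hσ
    linarith
  have hs := Finset.sum_le_sum fun i (_ : i ∈ Finset.univ) => hi i
  rw [Finset.sum_add_distrib, ← Finset.mul_sum, Finset.sum_const, Finset.card_univ,
    Fintype.card_fin, nsmul_eq_mul] at hs
  push_cast at hs
  have h4 := mul_nonneg hσ hsum
  linarith

end HCap
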