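import Pool.Agent.HCap.Defs

/-!
# HCap: targets (MP_034d00_gt)

THEOREM. `H^d`, `d ≥ 2`, `T` any simplex, `T₀` regular with centre `c` and the same volume, `ρ` its
inradius, `B = B(c, r)`. (1) `9 sinh² r ≤ 10 sinh² ρ` implies `vol (B ∩ T) ≤ vol (B ∩ T₀)`.
(2) If no point of `B` is beyond two facets of `T`, the same holds for `d ≥ 3`,
`2 sinh² r ≤ 3 sinh² ρ`, and for every `r` if `T` contains the concentric ball of radius `r'`,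
`sinh r = √d sinh r'`.

One job = one target `T_X`, proved as `theorem p_X (h_Y : T_Y) .. : T_X` in the NEW file
`Pool/Agent/HCap/P_X.lean` (import this file), helper lemmas in the namespace `X_`.
-/

set_option autoImplicit false

open MeasureTheory Set

namespace HCap

open BallSimp

/-! ## A. Linear algebra -/

/-- DUA. Barycentric coordinates. PROOF. `M = mt v` (rows `v (k+1) - v 0`) is invertible,
`z (k+1)` = minus the `k`-th column of `M⁻¹`, `s (k+1) = ⟪z (k+1), v 0⟫`, `z 0 = - ∑ z (k+1)`,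
`s 0 = 1 - ∑ s (k+1)`; `BallSimp.bmap_eq`, `BallSimp.bmap_ofLp`. So `zm z = -(M⁻¹)ᵀ`. `z i ≠ 0`:
for `i = k+1` a zero row of an invertible matrix (`0 < d`), for `i = 0`: if `z 0 = 0` then
`l 0 = s 0` for all `l` with sum `1`, false for two different `l` (by `uniq`). -/
def T_DUA : Prop := ∀ (d : ℕ) (v : Fin (d + 1) → EE d), 0 < d → (mt v).det ≠ 0 →
  ∃ (z : Fin (d + 1) → EE d) (s : Fin (d + 1) → ℝ), Dual v z s

/-- HUL. PROOF. `rep`, `uniq`, and the convex hull of the range as the set of convex combinations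
(`BallSimp.bmap_image`, or `convexHull_range_eq_exists_affineCombination`, or directly
`Convex.sum_mem` and `convexHull_min`). -/
def T_HUL : Prop := ∀ (d : ℕ) (v z : Fin (d + 1) → EE d) (s : Fin (d + 1) → ℝ), Dual v z s →
  ∀ x, x ∈ convexHull ℝ (Set.range v) ↔ ∀ i, inner ℝ (z i) x ≤ s i

/-- HAD. Hadamard inequality with parents. PROOF. `a i = ‖z i‖`. The `(d+1) × (d+1)` matrix `E`
with rows `(z i / a i, 1 / √d)` (index the columns by `Fin (d+1)`, column `0` is `1/√d`) has rows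
of norm² `1 + 1/d`, and `|det E| ∏ a i = |det (zm z)| (∑ a i) / √d` (multiply row `i` by `a i`; add
all rows to row `0`: it becomes `(0, ∑ a i / √d)`). For `j ∈ N` replace row `j` by
`E j - ep z j (p j) • E (p j)`, of norm² `(1 + 1/d) (1 - ep z j (p j) ^ 2)`; the determinant does
not change (`Finset.induction_on_min_value rk N`: when `a` is inserted, `rk a ≤` all ranks of the
set, so `p a` is not in it and row `p a` is still the original one;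
`Matrix.det_updateRow_add_smul_self`).
Hadamard: `Orientation.abs_volumeForm_apply_le` in `EE (d+1)` (`(∏ norms)²`). -/
def T_HAD : Prop := ∀ (d : ℕ) (z : Fin (d + 1) → EE d), 0 < d → ∑ i, z i = 0 → (∀ i, z i ≠ 0) →
  ∀ (rk : Fin (d + 1) → ℕ) (N : Finset (Fin (d + 1))) (p : Fin (d + 1) → Fin (d + 1)),
    (∀ j ∈ N, rk (p j) < rk j) →
    (zm z).det ^ 2 * (∑ i, ‖z i‖) ^ 2 ≤ (d : ℝ) * (((d : ℝ) + 1) / d) ^ (d + 1) *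
      (∏ i, ‖z i‖ ^ 2) * ∏ j ∈ N, (1 - ep z j (p j) ^ 2)

/-- EUV. PROOF. The first part (`hle`) of the proof of `BallSimp.main0` (Main0.lean), hypotheses
from `Pair` as in `BallSimp.Pair.main0`. -/
def T_EUV : Prop := ∀ (d : ℕ) (v w : Fin (d + 1) → EE d), Pair 0 v w →
  |(mt v).det| ≤ |(mt w).det|

/-- REG. PROOF. `z i = -(1/α) • w i`, `s i = 1 / (d+1)`: for `∑ l = 1` and `x = ∑ l j • w j`,
`⟪w i, x⟫ = α (l i - 1/(d+1))`. The vectors `w` span (`BallSimp.Reg.det_ne`), or use T_DUA and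
compare with `uniq`. `det`: `zm z`, `mt w`, `Reg.det_sq`: from T_DUA and uniqueness of the
barycentric coordinates it is automatic. `‖w i‖² = α d / (d+1)`. Last part: `‖w i‖ = d h₀`. -/
def T_REG : Prop := ∀ (d : ℕ) (w : Fin (d + 1) → EE d) (α : ℝ), 0 < d → 0 < α → Reg w α →
  (mt w).det ≠ 0 → ∃ (z : Fin (d + 1) → EE d) (s : Fin (d + 1) → ℝ), Dual w z s ∧
    (∀ i, 0 < s i) ∧ (∀ i, ht z s i = Real.sqrt (α / (d * (d + 1)))) ∧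
    ∀ i, ‖w i‖ = d * Real.sqrt (α / (d * (d + 1)))

/-- GMN (hypothesis T_HAD). The geometric mean inequality. PROOF. `D = |det (zm z)| = 1/|det mt v|
≥ 1/|det mt w|`, `det(mt w)² = α^d (d+1)` (`Reg.det_sq`). `A = ∏ ‖z i‖`, `P` = the product over `N`.
AM-GM `(∑ ‖z i‖)² ≥ (d+1)² A^(2/(d+1))` and `∏ s i ≤ (d+1)^(-(d+1))` (`∑ s i = 1`),
`s i = ‖z i‖ ht i`. With T_HAD: `1 / (α^d (d+1)) ≤ D² ≤ (d+1)^(d-1) d^(-d) A^(2d/(d+1)) P` and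
`A ≤ (d+1)^(-(d+1)) / ∏ ht i`, so `(∏ ht i)^(2d/(d+1)) ≤ h₀^(2d) P`, `h₀² = α/(d(d+1))`. All factors
of `P` are in `[0,1]` (Cauchy-Schwarz: `|cs| ≤ 1`) and `P > 0` since `D > 0`. Take logarithms, and
`(d+1)/(2d) ≥ 1/2`. -/
def T_GMN : Prop := ∀ (d : ℕ) (v w z : Fin (d + 1) → EE d) (s : Fin (d + 1) → ℝ) (α : ℝ), 0 < d →
  0 < α → Reg w α → |(mt v).det| ≤ |(mt w).det| → Dual v z s → (∀ i, 0 < s i) →
  ∀ (rk : Fin (d + 1) → ℕ) (N : Finset (Fin (d + 1))) (p : Fin (d + 1) → Fin (d + 1)),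
    (∀ j ∈ N, rk (p j) < rk j) →
    (∀ j ∈ N, 0 < 1 - ep z j (p j) ^ 2) ∧
    -(1 / 2) * ∑ j ∈ N, Real.log (1 - ep z j (p j) ^ 2) ≤
      ∑ i, (Real.log (Real.sqrt (α / (d * (d + 1)))) - Real.log (ht z s i))

/-- OVL. PROOF. `w i = z i / ‖z i‖`: `ht i + ht j < ⟪w i + w j, x⟫ ≤ t ‖w i + w j‖` and
`‖w i + w j‖² = 2 + 2 cs`, `(ht i + ht j)² ≥ 4 ht i ht j`. Second part: `cs ≤ 1`. -/
def T_OVL : Prop := ∀ (d : ℕ) (z : Fin (d + 1) → EE d) (s : Fin (d + 1) → ℝ) (t : ℝ)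
  (i j : Fin (d + 1)) (x : EE d), 0 < t → z i ≠ 0 → z j ≠ 0 → 0 < s i → 0 < s j →
  x ∈ cp z s t i → x ∈ cp z s t j →
  2 * (ht z s i * ht z s j) / t ^ 2 - 1 ≤ cs z i j ∧ cs z i j ≤ 1 ∧ cs z i j ≤ ep z i j

/-! ## B. Caps -/

/-- SLI. PROOF. Radial integral (`MeasureTheory.lintegral_fun_norm_addHaar`, or the version for
integrals), and `d/dy (y^m / (b (b - y²)^(m/2))) = m y^(m-1) (b - y²)^(-(m+2)/2)`. -/
def T_SLI : Prop := ∀ (m : ℕ) (b s : ℝ), 0 < m → 0 ≤ s → s ^ 2 < b →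
  ∫⁻ y in Metric.closedBall (0 : EE m) s, ENNReal.ofReal ((b - ‖y‖ ^ 2) ^ (-((m : ℝ) + 2) / 2)) =
    volume (Metric.ball (0 : EE m) 1) * ENNReal.ofReal (s ^ m / (b * (b - s ^ 2) ^ ((m : ℝ) / 2)))

/-- CAP (hypothesis T_SLI). The volume of a cap. PROOF. Write `d = m + 1`. A linear isometry sends
`u` to the first basis vector and preserves `muK` (the density depends on the norm), so `u = e₀`.
`EE (m+1)` is `ℝ × EE m` (measure preserving; `‖x‖² = s² + ‖y‖²`). Slice at height `s ∈ (h, t)`: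
`∫ over ‖y‖² ≤ t² - s²` of `(1 - s² - ‖y‖²)^(-(m+2)/2)` is, by T_SLI with `b = 1 - s²`,
`κ (t² - s²)^(m/2) / ((1 - s²) (1 - t²)^(m/2))`. `K = κ (1 - t²)^(-m/2)`,
`κ = (volume (ball 0 1)).toReal`. -/
def T_CAP : Prop := ∀ (d : ℕ) (t : ℝ), 2 ≤ d → 0 < t → t < 1 → ∃ K : ℝ, 0 < K ∧
  ∀ u : EE d, ‖u‖ = 1 → ∀ h : ℝ, 0 ≤ h → h ≤ t →
    muK d (Metric.closedBall 0 t ∩ {x | h < inner ℝ u x}) = ENNReal.ofReal (K * cap d t h)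

/-- CPM (hypothesis T_CAP). The volume of the part of the ball beyond a facet. PROOF.
`u = z i/‖z i‖`,
`cp z s t i = closedBall ∩ {ht < ⟪u, x⟫}`. If `ht < 0` it contains the cap for `h = 0`; if `ht > t`
it is empty (`measure = 0 = cap d t t`). -/
def T_CPM : Prop := ∀ (d : ℕ) (t : ℝ), 2 ≤ d → 0 < t → t < 1 → ∃ K : ℝ, 0 < K ∧
  ∀ (z : Fin (d + 1) → EE d) (s : Fin (d + 1) → ℝ) (i : Fin (d + 1)), z i ≠ 0 →
    (0 ≤ ht z s i → muK d (cp z s t i) = ENNReal.ofReal (K * cap d t (min (ht z s i) t))) ∧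
    (ht z s i < 0 → ENNReal.ofReal (K * cap d t 0) ≤ muK d (cp z s t i))

/-- MEA (hypothesis T_HUL). PROOF. The `cp z s t i`, `i ∈ S`, and `closedBall ∩ hull` are disjoint
and measurable; for the second part they cover the ball. -/
def T_MEA : Prop := ∀ (d : ℕ) (v z : Fin (d + 1) → EE d) (s : Fin (d + 1) → ℝ) (t : ℝ), Dual v z s →
  (∀ S : Finset (Fin (d + 1)), (∀ i ∈ S, ∀ j ∈ S, i ≠ j → Disjoint (cp z s t i) (cp z s t j)) →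
    muK d (Metric.closedBall 0 t ∩ convexHull ℝ (Set.range v)) + ∑ i ∈ S, muK d (cp z s t i) ≤
      muK d (Metric.closedBall 0 t)) ∧
  muK d (Metric.closedBall 0 t) ≤
    muK d (Metric.closedBall 0 t ∩ convexHull ℝ (Set.range v)) + ∑ i, muK d (cp z s t i)

/-- CMP (hypotheses T_CPM, T_MEA, T_REG). Comparison. PROOF. `K` from T_CPM. By T_REG all heights of
`w` are `h₀`, so with T_MEA (2) for `w`:
`muK(B) ≤ muK(B ∩ hull w) + (d+1) K cap d t h₀`; T_MEA (1) for `v`: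
`muK(B ∩ hull v) + ∑_S muK(cp) ≤ muK(B)`, and `muK(cp i) ≥ K cap d t (min (max (ht i) 0) t)`
for all `i`. `muK(B) < ∞` (bounded density, `t < 1`). -/
def T_CMP : Prop := ∀ (d : ℕ) (v w z : Fin (d + 1) → EE d) (s : Fin (d + 1) → ℝ) (α t : ℝ), 2 ≤ d →
  0 < α → Reg w α → (mt w).det ≠ 0 → 0 < t → t < 1 → Real.sqrt (α / (d * (d + 1))) ≤ t →
  Dual v z s → ∀ S : Finset (Fin (d + 1)),
    (∀ i ∈ S, ∀ j ∈ S, i ≠ j → Disjoint (cp z s t i) (cp z s t j)) →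
    ((d : ℝ) + 1) * cap d t (Real.sqrt (α / (d * (d + 1)))) ≤
      ∑ i ∈ S, cap d t (min (max (ht z s i) 0) t) →
    muK d (Metric.closedBall 0 t ∩ convexHull ℝ (Set.range v)) ≤
      muK d (Metric.closedBall 0 t ∩ convexHull ℝ (Set.range w))

/-! ## C. One variable -/

/-- ANT. `h fc h` decreases in the range `XX ≥ 1/d`. PROOF. Derivative of
`h (t² - h²)^((d-1)/2) / (1 - h²)`: it is `≤ 0` iff `t² ≤ d h² - h² t² - (d-2) h⁴`, which follows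
from `t² (1 - h²) ≤ d h² (1 - t²)` (that is `XX ≥ 1/d`) and `h ≤ t`. `XX t` is increasing on
`[0, t]`, so the condition holds on `[h₁, h₂]`. -/
def T_ANT : Prop := ∀ (d : ℕ) (t h₁ h₂ : ℝ), 2 ≤ d → 0 < t → t < 1 → 0 < h₁ → h₁ ≤ h₂ → h₂ ≤ t →
  1 / (d : ℝ) ≤ XX t h₁ → h₂ * fc d t h₂ ≤ h₁ * fc d t h₁

/-- TAN (hypothesis T_ANT). The tangent line inequality in the variable `log h`. PROOF.
For `h ≤ h₀`:
`cap h - cap h₀ = ∫ h..h₀ fc = ∫ (s fc s) / s ≥ h₀ fc h₀ ∫ h..h₀ 1/s`. For `h ≥ h₀`: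
`cap h₀ - cap h = ∫ h₀..h (s fc s) / s ≤ h₀ fc h₀ log (h/h₀)`. -/
def T_TAN : Prop := ∀ (d : ℕ) (t h₀ h : ℝ), 2 ≤ d → 0 < t → t < 1 → 0 < h₀ → h₀ ≤ t → 0 < h →
  h ≤ t → 1 / (d : ℝ) ≤ XX t h₀ → 1 / (d : ℝ) ≤ XX t h →
  cap d t h₀ + h₀ * fc d t h₀ * (Real.log h₀ - Real.log h) ≤ cap d t h

/-- SLO. PROOF. `U h = (t² - h²)^((d+1)/2) / h`, `-U' = (t² - h²)^((d-1)/2) ((d+1) + (t² - h²)/h²)
≥ (d+1) (1 - t²) fc h` since `1 - t² ≤ 1 - h²`, and `U t = 0 = cap d t t`. So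
`(d+1) (1 - t²) cap h ≤ U h`. -/
def T_SLO : Prop := ∀ (d : ℕ) (t h : ℝ), 2 ≤ d → 0 < t → t < 1 → 0 < h → h ≤ t →
  ((d : ℝ) + 1) * (1 - t ^ 2) * cap d t h ≤ (t ^ 2 - h ^ 2) ^ (((d : ℝ) + 1) / 2) / h

/-- GRO (hypothesis T_SLO). PROOF. `k h = cap h / (1 - XX h)^((d+1)/2)` is decreasing on `(0, t)`:
`1 - XX = (t² - h²) / (t² (1 - h²))`, `XX' = 2 h (1 - t²) / (t² (1 - h²)²)`, and `k' ≤ 0` iff
`(d+1)/2 XX' cap ≤ fc (1 - XX)`, which is T_SLO. -/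
def T_GRO : Prop := ∀ (d : ℕ) (t h h₀ : ℝ), 2 ≤ d → 0 < t → t < 1 → 0 < h → h ≤ h₀ → h₀ ≤ t →
  (1 - XX t h) ^ (((d : ℝ) + 1) / 2) * cap d t h₀ ≤
    (1 - XX t h₀) ^ (((d : ℝ) + 1) / 2) * cap d t h

/-- TH1 (hypothesis T_GRO). A low facet pays for everything. PROOF. `cap` is decreasing, so one may
take `h = √(7/8) h₀`. Then `XX h ≤ (7/8) XX h₀`, so
`(1 - XX h)/(1 - XX h₀) ≥ (1 - 7/8 X)/(1 - X) ≥ 17/8` for `X ≥ 9/10` (if `X = 1`, so `h₀ = t`,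
then `cap h₀ = 0`), and `(17/8)^((d+1)/2) ≥ d + 1` for `d ≥ 2` (squares: `(17/8)^(d+1) ≥ (d+1)²`). -/
def T_TH1 : Prop := ∀ (d : ℕ) (t h h₀ : ℝ), 2 ≤ d → 0 < t → t < 1 → 0 ≤ h → 0 < h₀ → h₀ ≤ t →
  9 / 10 ≤ XX t h₀ → 8 * h ^ 2 ≤ 7 * h₀ ^ 2 → ((d : ℝ) + 1) * cap d t h₀ ≤ cap d t h

/-- TH2 (hypothesis T_GRO). PROOF. `XX` increases on `[0, t]`, so `h ≤ h₀` (`1/d < 2/3`). `0 < h`:
T_GRO with `1 - XX h ≥ 1 - 1/d`, `1 - XX h₀ ≤ 1/3` and `(3 (1 - 1/d))^((d+1)/2) ≥ d + 1` for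
`d ≥ 3` (`d = 3`: `2² = 4`; `d ≥ 4`: `(9/4)^(d+1) ≥ (d+1)²`). `h = 0`: `cap 0 ≥ cap h'` with
`h' = t/√d`, `XX h' ≤ h'²/t² = 1/d`. -/
def T_TH2 : Prop := ∀ (d : ℕ) (t h h₀ : ℝ), 3 ≤ d → 0 < t → t < 1 → 0 ≤ h → h ≤ t → 0 < h₀ →
  h₀ ≤ t → 2 / 3 ≤ XX t h₀ → XX t h ≤ 1 / (d : ℝ) → ((d : ℝ) + 1) * cap d t h₀ ≤ cap d t h

/-- NUM (hypotheses T_TAN, T_SLO). PROOF. `σ = h₀ fc h₀`. By T_SLO and
`XX/(1 - XX) = h₀² (1 - t²)/(t² - h₀²)`: `(d+1) XX cap h₀ ≤ (1 - XX) σ (1 - h₀²)`, so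
`27 cap h₀ ≤ σ` (`XX ≥ 9/10`, `d + 1 ≥ 3`; if `h₀ = t` then `cap h₀ = 0`). For `i ∈ N`:
`log h₀ - log (h i) ≤ 1/14` (from `7 h₀² ≤ 8 (h i)²`, `log (8/7) ≤ 1/7`). So
`∑_{i ∉ N} (log h₀ - log (h i)) ≥ (1/5 - 1/14) |N|`. For `i ∉ N`: `XX t (min (h i) t) ≥ 1/2`
(`≥ (7/8) (9/10) (1 - h₀²)/(1 - 7/8 h₀²)` and `h₀ ≤ 1/2`; or `= 1` if `h i ≥ t`), so T_TAN gives
`cap (min (h i) t) ≥ cap h₀ + σ (log h₀ - log (h i))`. Sum up: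
`∑ ≥ (d + 1 - |N|) cap h₀ + 27 (9/70) |N| cap h₀`. -/
def T_NUM : Prop := ∀ (d : ℕ) (t h₀ : ℝ) (h : Fin (d + 1) → ℝ) (N : Finset (Fin (d + 1))), 2 ≤ d →
  0 < t → t < 1 → 0 < h₀ → h₀ ≤ t → h₀ ≤ 1 / 2 → 9 / 10 ≤ XX t h₀ → (∀ i, 0 < h i) →
  (∀ i, 7 * h₀ ^ 2 ≤ 8 * h i ^ 2) →
  (N.card : ℝ) / 5 ≤ ∑ i, (Real.log h₀ - Real.log (h i)) →
  ((d : ℝ) + 1) * cap d t h₀ ≤ ∑ i ∈ Finset.univ \ N, cap d t (min (h i) t)

/-- NU2 (hypothesis T_TAN). PROOF. T_TAN for every `i` (`min (h i) t`, and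
`log (min (h i) t) ≤ log (h i)`), sum. -/
def T_NU2 : Prop := ∀ (d : ℕ) (t h₀ : ℝ) (h : Fin (d + 1) → ℝ), 2 ≤ d → 0 < t → t < 1 → 0 < h₀ →
  h₀ ≤ t → 1 / (d : ℝ) ≤ XX t h₀ → (∀ i, 0 < h i) → (∀ i, 1 / (d : ℝ) ≤ XX t (min (h i) t)) →
  0 ≤ ∑ i, (Real.log h₀ - Real.log (h i)) →
  ((d : ℝ) + 1) * cap d t h₀ ≤ ∑ i, cap d t (min (h i) t)

/-! ## D. The theorem, centred -/

/-- CE1 (hypotheses T_DUA T_EUV T_GMN T_OVL T_CMP T_TH1 T_NUM T_REG T_HUL). PROOF. `R ≤ 1`: both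
sides are `0`. `t = √(1 - 1/R²)`, `BallSimp.hB_zero`. `α`, `Reg w α` from `Pair.reg`,
`h₀ = √(α/(d(d+1)))`. `h₀ < 1/d` from T_REG and `‖w i‖ < 1`. If `t ≤ h₀`: the ball is contained in
`hull w` (T_REG, T_HUL), trivial. The ball of radius `t₀ = √(1 - 1/R₀²)` is in `hull w`, so
`t₀ ≤ h₀` (T_HUL at `t₀ z i / ‖z i‖`); `R² - 1 = t²/(1 - t²)` gives `9/10 ≤ XX t h₀`. `z, s` from
T_DUA for `v`. (a) some `ht z s k` with `ht ≤ 0` or `8 ht² ≤ 7 h₀²`: T_CMP with `S = {k}` and T_TH1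
with `h = max (ht k) 0`. (b) otherwise all `s i > 0`. `N` = the `j` for which some `i < j` has
`¬ Disjoint (cp j) (cp i)`, `p j` such an `i`, `rk` = value. T_OVL:
`cs z j (p j) ≥ 2 (7/8) h₀²/t² - 1 ≥ 23/40` (`h₀² ≥ XX t²`), so `ep ≥ 23/40` and
`-(1/2) log (1 - ep²) ≥ 1/5` (`1 - (23/40)² ≤ exp (-2/5)`). T_GMN, T_NUM, T_CMP with
`S = univ \ N`. -/
def T_CE1 : Prop := ∀ (d : ℕ) (v w : Fin (d + 1) → EE d), 2 ≤ d → Pair 0 v w → ∀ R R₀ : ℝ,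
  hB (0 : EE d) R₀ ⊆ convexHull ℝ (Set.range w) → 9 * (R ^ 2 - 1) ≤ 10 * (R₀ ^ 2 - 1) →
  1 ≤ R₀ →
  muK d (hB (0 : EE d) R ∩ convexHull ℝ (Set.range v)) ≤
    muK d (hB (0 : EE d) R ∩ convexHull ℝ (Set.range w))

/-- no point of the ball is beyond two facets: of the barycentric coordinates of a point of the
ball at most one is negative -/
def DC {d : ℕ} (c : EE d) (R : ℝ) (v : Fin (d + 1) → EE d) : Prop :=
  ∀ l : Fin (d + 1) → ℝ, ∑ i, l i = 1 → ∑ i, l i • v i ∈ hB c R →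
    ∀ i j, i ≠ j → 0 ≤ l i ∨ 0 ≤ l j

/-- CE2 (hypotheses T_DUA T_EUV T_GMN T_CMP T_TH2 T_NU2 T_REG T_HUL). PROOF. As CE1 with `N = ∅`,
`S = univ` (`DC` and `Dual.uniq`, `Dual.rep` give the disjointness). `2/3 ≤ XX t h₀`. (a) some
`ht k ≤ 0` or (`ht k ≤ t` and `XX t (ht k) ≤ 1/d`): T_CMP with `S = {k}`, T_TH2. (b) otherwise
T_GMN with `N = ∅` and T_NU2 (`XX t t = 1`). -/
def T_CE2 : Prop := ∀ (d : ℕ) (v w : Fin (d + 1) → EE d), 3 ≤ d → Pair 0 v w → ∀ R R₀ : ℝ,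
  hB (0 : EE d) R₀ ⊆ convexHull ℝ (Set.range w) → 2 * (R ^ 2 - 1) ≤ 3 * (R₀ ^ 2 - 1) →
  1 ≤ R₀ → DC 0 R v →
  muK d (hB (0 : EE d) R ∩ convexHull ℝ (Set.range v)) ≤
    muK d (hB (0 : EE d) R ∩ convexHull ℝ (Set.range w))

/-- CE3 (hypotheses T_DUA T_EUV T_GMN T_CMP T_NU2 T_REG T_HUL). PROOF. `R ≤ 1` trivial, so
`R₁ > 1`, `t₁ = √(1 - 1/R₁²) > 0`. `t₁ ≤ ht k` for all `k` (T_HUL for `v` at `t₁ z k/‖z k‖`), so
`s k > 0`; `XX t (min t₁ t) ≥ 1/d` from `R² - 1 ≤ d (R₁² - 1)`. T_GMN with `N = ∅`: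
`∑ (log h₀ - log ht) ≥ 0`, so `log t₁ ≤ log h₀`, `XX t h₀ ≥ 1/d` (or `t ≤ h₀`, trivial). T_NU2 and
T_CMP with `S = univ`. -/
def T_CE3 : Prop := ∀ (d : ℕ) (v w : Fin (d + 1) → EE d), 2 ≤ d → Pair 0 v w → ∀ R R₁ : ℝ,
  hB (0 : EE d) R₁ ⊆ convexHull ℝ (Set.range v) → R ^ 2 - 1 ≤ (d : ℝ) * (R₁ ^ 2 - 1) →
  1 ≤ R₁ → DC 0 R v →
  muK d (hB (0 : EE d) R ∩ convexHull ℝ (Set.range v)) ≤
    muK d (hB (0 : EE d) R ∩ convexHull ℝ (Set.range w))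

/-! ## E. Any centre -/

/-- TRV. PROOF. `BallSimp.lint_tr` with the function `(Iic R).indicator 1`, as in the proof of
`BallSimp.weighted` (`lint_wt`). -/
def T_TRV : Prop := ∀ (d : ℕ) (n : ℝ × EE d) (v : Fin (d + 1) → EE d) (c : EE d) (R : ℝ),
  0 < lor d n n → (∀ i, ‖v i‖ < 1) → ‖c‖ < 1 →
  muK d (hB (tr n c) R ∩ convexHull ℝ (Set.range fun i => tr n (v i))) =
    muK d (hB c R ∩ convexHull ℝ (Set.range v))

/-- TRD. PROOF. `x = ∑ l i • v i`, `‖x‖ < 1`: `lft x = ∑ l i • lft (v i)` (`∑ l = 1`), apply the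
linear map `rfl' (lor d) n`; `lft (prj X) = X.1⁻¹ • X`; so
`tr n x = ∑ (l i μ i / μ) • tr n (v i)` with `μ i, μ > 0` the first coordinates (`fwd_refl`), and
`tr n (tr n x) = x`. Signs of the coordinates are preserved; use it for the given combination of
the `tr n (v i)` (apply `tr n` once more). -/
def T_TRD : Prop := ∀ (d : ℕ) (n : ℝ × EE d) (v : Fin (d + 1) → EE d) (c : EE d) (R : ℝ),
  0 < lor d n n → (∀ i, ‖v i‖ < 1) → ‖c‖ < 1 → DC c R v → DC (tr n c) R fun i => tr n (v i)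

/-- FIN (hypotheses T_CE1 T_CE2 T_CE3 T_TRV T_TRD). PROOF. `BallSimp.exists_centred`, `Pair.tr`,
`BallSimp.hB_tr`. -/
def T_FIN : Prop := ∀ (d : ℕ) (c : EE d) (v w : Fin (d + 1) → EE d), 2 ≤ d → Pair c v w →
  ∀ R R₀ : ℝ, 1 ≤ R₀ →
    ((hB c R₀ ⊆ convexHull ℝ (Set.range w) ∧ 9 * (R ^ 2 - 1) ≤ 10 * (R₀ ^ 2 - 1)) ∨
      (DC c R v ∧ 3 ≤ d ∧ hB c R₀ ⊆ convexHull ℝ (Set.range w) ∧
        2 * (R ^ 2 - 1) ≤ 3 * (R₀ ^ 2 - 1)) ∨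
      (DC c R v ∧ hB c R₀ ⊆ convexHull ℝ (Set.range v) ∧ R ^ 2 - 1 ≤ (d : ℝ) * (R₀ ^ 2 - 1))) →
    muK d (hB c R ∩ convexHull ℝ (Set.range v)) ≤ muK d (hB c R ∩ convexHull ℝ (Set.range w))

end HCap
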